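import Mathlib

/-! Definitions for p-adic space groups and coclass. -/

set_option autoImplicit false

universe u

namespace Pool.Agent.H495Z

/-- The closed lower central series: `closedLCS R i` is `γ_{i+1}(R)`, so `closedLCS R 0 = R` and
`closedLCS R (i+1)` is the topological closure of `[closedLCS R i, R]`. -/
def closedLCS (R : Type u) [Group R] [TopologicalSpace R] [IsTopologicalGroup R] :
    ℕ → Subgroup R
  | 0 => ⊤
  | i + 1 => (⁅closedLCS R i, (⊤ : Subgroup R)⁆).topologicalClosure

instance closedLCS_normal (R : Type u) [Group R] [TopologicalSpace R] [IsTopologicalGroup R] :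
    ∀ i : ℕ, (closedLCS R i).Normal
  | 0 => inferInstanceAs (⊤ : Subgroup R).Normal
  | i + 1 =>
    haveI := closedLCS_normal R i
    Subgroup.is_normal_topologicalClosure (⁅closedLCS R i, (⊤ : Subgroup R)⁆)

/-- `P` is a finite `p`-group of coclass `s`: its order is `p ^ (c + s)`, where `c` is its
nilpotency class. -/
def HasCoclass (p : ℕ) (P : Type u) [Group P] (s : ℕ) : Prop :=
  Finite P ∧ Nat.card P = p ^ (Group.nilpotencyClass P + s)

/-- The profinite group `R` is a pro-`p` group: every quotient by an open normal subgroup is a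
`p`-group. -/
def IsProP (p : ℕ) (R : ProfiniteGrp.{u}) : Prop :=
  ∀ U : OpenNormalSubgroup R, IsPGroup p (R ⧸ U.toSubgroup)

/-- `R` has finite coclass: all quotients `R / γ_{i+1}(R)` by terms of the closed lower central
series are finite `p`-groups whose coclasses are bounded. -/
def FiniteCoclass (p : ℕ) (R : ProfiniteGrp.{u}) : Prop :=
  ∃ r : ℕ, ∀ i : ℕ, ∃ k ≤ r, HasCoclass p (R ⧸ closedLCS R i) k

/-- `R` is a `p`-adic space group with translation subgroup `T`: `R` is pro-`p`, `T` is a closed
normal subgroup isomorphic (as a topological group) to `ℤ_p^d` with `d ≥ 1`, the point group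
`R / T` is a finite `p`-group, and its conjugation action on `T` is faithful. -/
structure IsSpaceGroup (p : ℕ) [Fact p.Prime] (R : ProfiniteGrp.{u}) (T : Subgroup R)
    [T.Normal] : Prop where
  proP : IsProP p R
  closed : IsClosed (T : Set R)
  lattice : ∃ d : ℕ, 1 ≤ d ∧ Nonempty (T ≃ₜ* Multiplicative (Fin d → ℤ_[p]))
  finite : Finite (R ⧸ T)
  pgroup : IsPGroup p (R ⧸ T)
  faithful : ∀ g : R, (∀ t ∈ T, g * t * g⁻¹ = t) → g ∈ T

end Pool.Agent.H495Z
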