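import Mathlib

/-! A Hall-Petrescu type collection formula through polynomial sequences. -/

set_option autoImplicit false

universe u

open scoped commutatorElement

namespace Pool.Agent.H495Z.HP

variable {G : Type u} [Group G]

/-- A filtration by normal subgroups with `[Γ i, Γ j] ≤ Γ (i+j)`. -/
structure IsFil (Γ : ℕ → Subgroup G) : Prop where
  normal : ∀ i, (Γ i).Normal
  anti : Antitone Γ
  comm : ∀ i j x y, x ∈ Γ i → y ∈ Γ j → ⁅x, y⁆ ∈ Γ (i + j)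

def der (φ : ℕ → G) : ℕ → G := fun n => φ (n + 1) * (φ n)⁻¹

def P (Γ : ℕ → Subgroup G) (μ : ℕ) : ℕ → ℕ → (ℕ → G) → Prop
  | 0, _, _ => True
  | k + 1, β, φ => (∀ n, φ n ∈ Γ β) ∧ P Γ μ k (β + μ) (der φ)

variable {Γ : ℕ → Subgroup G} {μ : ℕ}

lemma P.mono (hΓ : IsFil Γ) : ∀ (k : ℕ) {β β' : ℕ} {φ : ℕ → G}, β' ≤ β → P Γ μ k β φ →
    P Γ μ k β' φ
  | 0, _, _, _, _, _ => trivial
  | k + 1, _, _, _, h, hφ => ⟨fun n => hΓ.anti h (hφ.1 n), P.mono hΓ k (by omega) hφ.2⟩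

lemma P.depth : ∀ (k : ℕ) {β : ℕ} {φ : ℕ → G}, P Γ μ (k + 1) β φ → P Γ μ k β φ
  | 0, _, _, _ => trivial
  | k + 1, _, _, hφ => ⟨hφ.1, P.depth k hφ.2⟩

lemma P.depth_le {k k' β : ℕ} {φ : ℕ → G} (h : k' ≤ k) (hφ : P Γ μ k β φ) : P Γ μ k' β φ := by
  induction h with
  | refl => exact hφ
  | step _ ih => exact ih (P.depth _ hφ)

lemma der_mul (φ ψ : ℕ → G) : der (φ * ψ) = der φ * ⁅φ, der ψ⁆ * der ψ := by
  funext n
  simp only [der, commutatorElement_def, Pi.mul_apply, Pi.inv_apply]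
  group

lemma der_inv (φ : ℕ → G) : der φ⁻¹ = ⁅φ⁻¹, (der φ)⁻¹⁆ * (der φ)⁻¹ := by
  funext n
  simp only [der, commutatorElement_def, Pi.mul_apply, Pi.inv_apply]
  group

lemma comm_expand {K : Type*} [Group K] (a x b y : K) :
    ⁅a * x, b * y⁆ * ⁅x, y⁆⁻¹ =
      ⁅a, ⁅x, b * y⁆⁆ * (⁅x, b⁆ * ⁅b, ⁅x, y⁆⁆) * (⁅⁅x, y⁆, ⁅a, b * y⁆⁆ * ⁅a, b * y⁆) := by
  simp only [commutatorElement_def]
  group

lemma der_comm (φ ψ : ℕ → G) : der ⁅φ, ψ⁆ =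
    ⁅der φ, ⁅φ, der ψ * ψ⁆⁆ * (⁅φ, der ψ⁆ * ⁅der ψ, ⁅φ, ψ⁆⁆) *
      (⁅⁅φ, ψ⁆, ⁅der φ, der ψ * ψ⁆⁆ * ⁅der φ, der ψ * ψ⁆) := by
  rw [← comm_expand]
  funext n
  simp only [der, commutatorElement_def, Pi.mul_apply, Pi.inv_apply]
  group

theorem closure (hΓ : IsFil Γ) (k : ℕ) :
    (∀ β (φ ψ : ℕ → G), P Γ μ k β φ → P Γ μ k β ψ → P Γ μ k β (φ * ψ)) ∧
    (∀ β (φ : ℕ → G), P Γ μ k β φ → P Γ μ k β φ⁻¹) ∧
    (∀ β β' (φ ψ : ℕ → G), P Γ μ k β φ → P Γ μ k β' ψ → P Γ μ k (β + β') ⁅φ, ψ⁆) := by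
  induction k with
  | zero => exact ⟨fun _ _ _ _ _ => trivial, fun _ _ _ => trivial, fun _ _ _ _ _ _ => trivial⟩
  | succ k ih =>
    obtain ⟨hm, hi, hc⟩ := ih
    refine ⟨fun β φ ψ hφ hψ => ⟨fun n => (Γ β).mul_mem (hφ.1 n) (hψ.1 n), ?_⟩,
      fun β φ hφ => ⟨fun n => (Γ β).inv_mem (hφ.1 n), ?_⟩,
      fun β β' φ ψ hφ hψ => ⟨fun n => hΓ.comm _ _ _ _ (hφ.1 n) (hψ.1 n), ?_⟩⟩
    · rw [der_mul]
      exact hm _ _ _ (hm _ _ _ hφ.2
        (P.mono hΓ k (by omega) (hc _ _ _ _ (P.depth k hφ) hψ.2))) hψ.2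
    · rw [der_inv]
      exact hm _ _ _ (P.mono hΓ k (by omega)
        (hc _ _ _ _ (hi _ _ (P.depth k hφ)) (hi _ _ hφ.2))) (hi _ _ hφ.2)
    · rw [der_comm]
      have h0 := P.depth k hφ
      have h0' := P.depth k hψ
      have hw : P Γ μ k β' (der ψ * ψ) := hm _ _ _ (P.mono hΓ k (by omega) hψ.2) h0'
      have h1 := hc _ _ _ _ hφ.2 hw
      refine hm _ _ _ (hm _ _ _ ?_ (hm _ _ _ ?_ ?_)) (hm _ _ _ ?_ ?_)
      · exact P.mono hΓ k (by omega) (hc _ _ _ _ hφ.2 (hc _ _ _ _ h0 hw))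
      · exact P.mono hΓ k (by omega) (hc _ _ _ _ h0 hψ.2)
      · exact P.mono hΓ k (by omega) (hc _ _ _ _ hψ.2 (hc _ _ _ _ h0 h0'))
      · exact P.mono hΓ k (by omega) (hc _ _ _ _ (hc _ _ _ _ h0 h0') h1)
      · exact P.mono hΓ k (by omega) h1

lemma P.iter_mem : ∀ (k : ℕ) {β : ℕ} {φ : ℕ → G}, P Γ μ (k + 1) β φ → ∀ n,
    der^[k] φ n ∈ Γ (β + k * μ)
  | 0, _, _, hφ, n => by simpa using hφ.1 n
  | k + 1, β, φ, hφ, n => by
    rw [Function.iterate_succ_apply]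
    have := P.iter_mem k hφ.2 n
    rwa [show β + μ + k * μ = β + (k + 1) * μ by ring] at this

lemma top_mul (hΓ : IsFil Γ) (N : ℕ) [(Γ N).Normal] : ∀ (k : ℕ) {β : ℕ} {φ ψ : ℕ → G}, 1 ≤ β →
    N ≤ β + k * μ + 1 → P Γ μ (k + 1) β φ → P Γ μ (k + 1) β ψ →
    ((der^[k] (φ * ψ) 0 : G) : G ⧸ Γ N) = (der^[k] φ 0 : G) * (der^[k] ψ 0 : G)
  | 0, _, _, _, _, _, _, _ => by simp
  | k + 1, β, φ, ψ, hβ, hN, hφ, hψ => by
    obtain ⟨hm, -, hc⟩ := closure (μ := μ) hΓ (k + 1)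
    simp only [Function.iterate_succ_apply]
    have hN' : N ≤ β + μ + k * μ + 1 := by rw [add_mul] at hN; omega
    have h1 := hc _ _ _ _ (P.depth _ hφ) hψ.2
    have h1' : P Γ μ (k + 1) (β + μ) ⁅φ, der ψ⁆ := P.mono hΓ _ (by omega) h1
    rw [der_mul, top_mul hΓ N k (by omega) hN' (hm _ _ _ hφ.2 h1') hψ.2,
      top_mul hΓ N k (by omega) hN' hφ.2 h1']
    have h2 : ((der^[k] ⁅φ, der ψ⁆ 0 : G) : G ⧸ Γ N) = 1 := by
      rw [QuotientGroup.eq_one_iff]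
      exact hΓ.anti (by omega) (P.iter_mem k h1 0)
    rw [h2, mul_one]

lemma der_one : der (1 : ℕ → G) = 1 := by
  funext n; simp [der]

lemma P.one : ∀ (k β : ℕ), P Γ μ k β (1 : ℕ → G)
  | 0, _ => trivial
  | k + 1, β => ⟨fun _ => (Γ β).one_mem, by rw [der_one]; exact P.one k _⟩

/-- The inverted binomial sequence. -/
def bin (c : G) (j : ℕ) : ℕ → G := fun n => (c ^ n.choose j)⁻¹

lemma der_bin_zero (c : G) : der (bin c 0) = 1 := by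
  funext n; simp [der, bin]

lemma der_bin_succ (c : G) (j : ℕ) : der (bin c (j + 1)) = bin c j := by
  funext n
  simp only [der, bin, Nat.choose_succ_succ', pow_add]
  group

lemma P.bin (hΓ : IsFil Γ) (c : G) : ∀ (j k β : ℕ), c ∈ Γ (β + j * μ) → P Γ μ k β (bin c j)
  | _, 0, _, _ => trivial
  | 0, k + 1, β, hc => ⟨fun n => (Γ β).inv_mem ((Γ β).pow_mem (by simpa using hc) _), by
      rw [der_bin_zero]; exact P.one _ _⟩
  | j + 1, k + 1, β, hc =>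
    ⟨fun n => (Γ β).inv_mem ((Γ β).pow_mem (hΓ.anti (by omega) hc) _), by
      rw [der_bin_succ]
      exact P.bin hΓ c j k _ (by rwa [show β + μ + j * μ = β + (j + 1) * μ by ring])⟩

lemma iter_bin (c : G) : ∀ (j k : ℕ), j < k → der^[k] (bin c j) = 1
  | 0, k + 1, _ => by
    rw [Function.iterate_succ_apply, der_bin_zero]
    exact Function.iterate_fixed der_one k
  | j + 1, k + 1, h => by
    rw [Function.iterate_succ_apply, der_bin_succ]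
    exact iter_bin c j k (by omega)

lemma iter_vanish : ∀ (j : ℕ) (φ : ℕ → G), (∀ n < j, φ n = 1) → der^[j] φ 0 = φ j
  | 0, _, _ => rfl
  | j + 1, φ, h => by
    rw [Function.iterate_succ_apply, iter_vanish j (der φ)]
    · simp [der, h j (by omega)]
    · intro n hn
      simp [der, h n (by omega), h (n + 1) (by omega)]

theorem taylor (hΓ : IsFil Γ) {p : ℕ} (hp : p.Prime) {β : ℕ} {φ : ℕ → G}
    (hφ : P Γ μ (p + 1) β φ) (H : Subgroup G) (hH : ∀ c ∈ Γ (β + 2 * μ), c ^ p ∈ H) :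
    ∃ c ∈ Γ (β + p * μ), (1 ≤ β → c * (der^[p] φ 0)⁻¹ ∈ Γ (β + p * μ + 1)) ∧
      c⁻¹ * φ p * (φ 0)⁻¹ * ((der φ 0) ^ p)⁻¹ ∈ H := by
  have := hΓ.normal (β + p * μ + 1)
  obtain ⟨hm, -, -⟩ := closure (μ := μ) hΓ (p + 1)
  have hp2 := hp.two_le
  have key : ∀ j, 1 ≤ j → j < p → ∃ ψ : ℕ → G, P Γ μ (p + 1) β ψ ∧ (∀ n ≤ j, ψ n = 1) ∧
      (1 ≤ β → ((der^[p] ψ 0 : G) : G ⧸ Γ (β + p * μ + 1)) = (der^[p] φ 0 : G)) ∧
      (ψ p)⁻¹ * φ p * (φ 0)⁻¹ * ((der φ 0) ^ p)⁻¹ ∈ H := by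
    intro j hj
    induction j, hj using Nat.le_induction with
    | base =>
      intro _
      have h0 : P Γ μ (p + 1) β (bin (φ 0) 0) := P.bin hΓ _ _ _ _ (by simpa using hφ.1 0)
      have h1 : P Γ μ (p + 1) β (bin (der φ 0) 1) := P.bin hΓ _ _ _ _
        (P.iter_mem 1 (P.depth_le (by omega) hφ) 0)
      refine ⟨φ * bin (φ 0) 0 * bin (der φ 0) 1, hm _ _ _ (hm _ _ _ hφ h0) h1, ?_, ?_, ?_⟩
      · intro n hn
        interval_cases n <;> simp [bin, der]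
      · intro hβ
        rw [top_mul hΓ _ p hβ le_rfl (hm _ _ _ hφ h0) h1, top_mul hΓ _ p hβ le_rfl hφ h0,
          iter_bin _ _ _ (by omega), iter_bin _ _ _ (by omega)]
        simp
      · have : ((φ * bin (φ 0) 0 * bin (der φ 0) 1) p)⁻¹ * φ p * (φ 0)⁻¹ *
            ((der φ 0) ^ p)⁻¹ = 1 := by
          simp only [Pi.mul_apply, bin, Nat.choose_zero_right, Nat.choose_one_right, pow_one]
          group
        rw [this]; exact H.one_mem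
    | succ j hj ih =>
      intro hjp
      obtain ⟨ψ, hψ, hv, ht, hh⟩ := ih (by omega)
      have hc : ψ (j + 1) ∈ Γ (β + (j + 1) * μ) := by
        rw [← iter_vanish (j + 1) ψ (fun n hn => hv n (by omega))]
        exact P.iter_mem _ (P.depth_le (by omega) hψ) 0
      have h1 : P Γ μ (p + 1) β (bin (ψ (j + 1)) (j + 1)) := P.bin hΓ _ _ _ _ hc
      refine ⟨ψ * bin (ψ (j + 1)) (j + 1), hm _ _ _ hψ h1, ?_, ?_, ?_⟩
      · intro n hn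
        rcases Nat.lt_or_eq_of_le hn with h | rfl
        · simp [bin, hv n (by omega), Nat.choose_eq_zero_of_lt h]
        · simp [bin]
      · intro hβ
        rw [top_mul hΓ _ p hβ le_rfl hψ h1, iter_bin _ _ _ hjp, ht hβ]
        simp
      · obtain ⟨r, hr⟩ := hp.dvd_choose_self (k := j + 1) (by omega) hjp
        have h2 : ψ (j + 1) ^ p.choose (j + 1) ∈ H := by
          rw [hr, pow_mul]
          exact H.pow_mem (hH _ (hΓ.anti (by nlinarith) hc)) _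
        have : ((ψ * bin (ψ (j + 1)) (j + 1)) p)⁻¹ * φ p * (φ 0)⁻¹ * ((der φ 0) ^ p)⁻¹ =
            ψ (j + 1) ^ p.choose (j + 1) *
              ((ψ p)⁻¹ * φ p * (φ 0)⁻¹ * ((der φ 0) ^ p)⁻¹) := by
          simp only [Pi.mul_apply, bin]
          group
        rw [this]
        exact H.mul_mem h2 hh
  obtain ⟨ψ, hψ, hv, ht, hh⟩ := key (p - 1) (by omega) (by omega)
  have h1 : der^[p] ψ 0 = ψ p := iter_vanish p ψ (fun n hn => hv n (by omega))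
  refine ⟨ψ p, by rw [← h1]; exact P.iter_mem _ hψ 0, fun hβ => ?_, hh⟩
  have h2 := ht hβ
  rw [h1] at h2
  rw [← QuotientGroup.eq_one_iff]
  simp [h2]

/-- conjugation orbit -/
def orb (g u : G) : ℕ → G := fun n => g ^ n * u * (g ^ n)⁻¹

lemma der_orb (g u : G) : der (orb g u) = orb g ⁅g, u⁆ := by
  funext n
  simp only [der, orb, commutatorElement_def, pow_succ]
  group

lemma P.orb (hΓ : IsFil Γ) (g : G) (a : ℕ)
    (hg : ∀ i, a ≤ i → ∀ u ∈ Γ i, ⁅g, u⁆ ∈ Γ (i + μ)) :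
    ∀ (k β : ℕ) (u : G), a ≤ β → u ∈ Γ β → P Γ μ k β (orb g u)
  | 0, _, _, _, _ => trivial
  | k + 1, β, u, h, hu => ⟨fun n => (hΓ.normal β).conj_mem _ hu _, by
      rw [der_orb]
      exact P.orb hΓ g a hg k _ _ (by omega) (hg _ h _ hu)⟩

lemma iter_orb (g : G) : ∀ (k : ℕ) (u : G),
    der^[k] (orb g u) 0 = (fun w => ⁅g, w⁆)^[k] u
  | 0, u => by simp [orb]
  | k + 1, u => by
    rw [Function.iterate_succ_apply, der_orb, iter_orb g k, Function.iterate_succ_apply]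

/-- The `p`-th power of a product. -/
theorem mul_pow_mem (hΓ : IsFil Γ) {p : ℕ} (hp : p.Prime) {μ β : ℕ} {x z : G} (hx : x ∈ Γ μ)
    (hz : z ∈ Γ (β + μ)) (H : Subgroup G) (hH : ∀ c ∈ Γ (β + 2 * μ), c ^ p ∈ H)
    (hH' : Γ (β + p * μ) ≤ H) : (x ^ p)⁻¹ * (x * z) ^ p * (z ^ p)⁻¹ ∈ H := by
  let φ : ℕ → G := fun n => (x ^ n)⁻¹ * (x * z) ^ n
  have hd : der φ = orb x⁻¹ z := by
    funext n
    simp only [der, orb, φ, pow_succ', inv_pow]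
    group
  have hmem : ∀ n, φ n ∈ Γ β := by
    intro n
    induction n with
    | zero => simp [φ]
    | succ n ih =>
      have : φ (n + 1) = der φ n * φ n := by simp [der]
      rw [this, hd]
      exact (Γ β).mul_mem ((hΓ.normal β).conj_mem _ (hΓ.anti (by omega) hz) _) ih
  have hφ : P Γ μ (p + 1) β φ := ⟨hmem, by
    rw [hd]
    refine P.orb hΓ x⁻¹ 0 (fun i _ u hu => ?_) _ _ _ (Nat.zero_le _) hz
    rw [add_comm]
    exact hΓ.comm _ _ _ _ ((Γ μ).inv_mem hx) hu⟩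
  obtain ⟨c, hc, -, h⟩ := taylor hΓ hp hφ H hH
  have h1 := H.mul_mem (hH' hc) h
  rw [hd] at h1
  simpa [φ, orb, mul_assoc] using h1

/-- The commutator with a `p`-th power. -/
theorem pow_comm_mem (hΓ : IsFil Γ) {p : ℕ} (hp : p.Prime) {σ a i : ℕ} {g u : G}
    (hg : ∀ i, a ≤ i → ∀ u ∈ Γ i, ⁅g, u⁆ ∈ Γ (i + σ)) (hai : a ≤ i) (hi : 1 ≤ i) (hu : u ∈ Γ i)
    (H : Subgroup G) (hH : ∀ c ∈ Γ (i + 2 * σ), c ^ p ∈ H) :
    ∃ c ∈ Γ (i + p * σ), c * ((fun w => ⁅g, w⁆)^[p] u)⁻¹ ∈ Γ (i + p * σ + 1) ∧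
      c⁻¹ * ⁅g ^ p, u⁆ * (⁅g, u⁆ ^ p)⁻¹ ∈ H := by
  obtain ⟨c, hc, h1, h2⟩ := taylor hΓ hp (P.orb hΓ g a hg (p + 1) i u hai hu) H hH
  refine ⟨c, hc, by rw [← iter_orb]; exact h1 hi, ?_⟩
  rw [der_orb] at h2
  simpa [orb, commutatorElement_def, mul_assoc] using h2

end Pool.Agent.H495Z.HP
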