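import Mathlib
import Pool.Agent.H495Z.HP

/-! Propagation of the periodic structure down the lower central series of a finite group. -/

set_option autoImplicit false

universe u

open scoped commutatorElement

namespace Pool.Agent.H495Z.PR

open HP

variable {P : Type u} [Group P]

/-- elements whose commutators with everything lie in `K` -/
def Cen (K : Subgroup P) (hK : K.Normal) : Subgroup P where
  carrier := {x | ∀ y : P, ⁅y, x⁆ ∈ K}
  one_mem' := fun y => by simp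
  mul_mem' := fun {x x'} hx hx' y => by
    have : ⁅y, x * x'⁆ = ⁅y, x⁆ * (x * ⁅y, x'⁆ * x⁻¹) := by
      simp only [commutatorElement_def]; group
    rw [this]; exact K.mul_mem (hx y) (hK.conj_mem _ (hx' y) _)
  inv_mem' := fun {x} hx y => by
    have : ⁅y, x⁻¹⁆ = x⁻¹ * ⁅y, x⁆⁻¹ * x⁻¹⁻¹ := by
      simp only [commutatorElement_def]; group
    rw [this]; exact hK.conj_mem _ (K.inv_mem (hx y)) _

/-- elements whose commutator with `g` lies in `K` -/
def Cen1 (g : P) (K : Subgroup P) (hK : K.Normal) : Subgroup P where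
  carrier := {x | ⁅g, x⁆ ∈ K}
  one_mem' := by simp
  mul_mem' := fun {x x'} hx hx' => by
    have : ⁅g, x * x'⁆ = ⁅g, x⁆ * (x * ⁅g, x'⁆ * x⁻¹) := by
      simp only [commutatorElement_def]; group
    change ⁅g, x * x'⁆ ∈ K
    rw [this]; exact K.mul_mem hx (hK.conj_mem _ hx' _)
  inv_mem' := fun {x} hx => by
    have : ⁅g, x⁻¹⁆ = x⁻¹ * ⁅g, x⁆⁻¹ * x⁻¹⁻¹ := by
      simp only [commutatorElement_def]; group
    change ⁅g, x⁻¹⁆ ∈ K
    rw [this]; exact hK.conj_mem _ (K.inv_mem hx) _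

lemma comm_le_of_le_cen {A K : Subgroup P} (hK : K.Normal) (h : A ≤ Cen K hK) :
    ⁅A, (⊤ : Subgroup P)⁆ ≤ K := by
  rw [Subgroup.commutator_le]
  intro x hx y _
  rw [← commutatorElement_inv]
  exact K.inv_mem (h hx y)

def Gen (γ : ℕ → Subgroup P) (a : ℕ) (w : P) : Prop :=
  w ∈ γ a ∧ γ a ≤ Subgroup.zpowers w ⊔ γ (a + 1)

structure Base (p : ℕ) (γ : ℕ → Subgroup P) (m d : ℕ) : Prop where
  prime : p.Prime
  fil : IsFil γ
  top : γ 1 = ⊤
  succ : ∀ i, 1 ≤ i → γ (i + 1) = ⁅γ i, (⊤ : Subgroup P)⁆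
  m_pos : 1 ≤ m
  d_pos : 1 ≤ d
  num : ∀ b, m ≤ b → b + d + 1 ≤ p * b
  up0 : ∀ x ∈ γ m, x ^ p ∈ γ (m + d)
  cyc0 : ∀ a, m ≤ a → a < m + d → ∃ w, Gen γ a w
  gen0 : ∃ w, Gen γ m w ∧ Gen γ (m + d) (w ^ p)

lemma conj_id (p : ℕ) (g w : P) : ⁅g, w ^ p⁆ =
    w ^ p * ((w ^ p)⁻¹ * (w * (w⁻¹ * ⁅g, w⁆ * w⁻¹⁻¹)) ^ p) * (w ^ p)⁻¹ := by
  have : w * (w⁻¹ * ⁅g, w⁆ * w⁻¹⁻¹) = g * w * g⁻¹ := by
    simp only [commutatorElement_def]; group
  rw [this, conj_pow, commutatorElement_def]; group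

namespace Base

variable {p : ℕ} {γ : ℕ → Subgroup P} {m d : ℕ} (h : Base p γ m d)
include h

lemma comm_mem (g : P) {i : ℕ} {u : P} (hu : u ∈ γ i) : ⁅g, u⁆ ∈ γ (i + 1) := by
  rw [add_comm]; exact h.fil.comm _ _ _ _ (by rw [h.top]; trivial) hu

theorem up : ∀ a, m ≤ a → ∀ x ∈ γ a, x ^ p ∈ γ (a + d) := by
  intro a₀ ha₀
  induction a₀, ha₀ using Nat.le_induction with
  | base => exact h.up0
  | succ a₀ ha₀ ih =>
    have hm := h.m_pos
    have key : ∀ r a, a₀ + 1 ≤ a → a₀ + 1 + d ≤ a + r → ∀ x ∈ γ a, x ^ p ∈ γ (a₀ + 1 + d) := by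
      intro r
      induction r with
      | zero => exact fun a _ ha x hx => (γ _).pow_mem (h.fil.anti ha hx) _
      | succ r ihr =>
        intro a ha har
        obtain ⟨a, rfl⟩ : ∃ b, a = b + 1 := ⟨a - 1, by omega⟩
        have ih' := ihr (a + 1 + 1) (by omega) (by omega)
        let W : Subgroup P :=
          { carrier := {x | x ∈ γ (a + 1) ∧ x ^ p ∈ γ (a₀ + 1 + d)}
            one_mem' := ⟨(γ _).one_mem, by simp⟩
            mul_mem' := fun {x z} hx hz => ⟨(γ _).mul_mem hx.1 hz.1, by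
              have h1 := mul_pow_mem h.fil h.prime (μ := a + 1) (β := 0) hx.1
                (by simpa using hz.1) (γ (a₀ + 1 + d))
                (fun c hc => ih' c (h.fil.anti (by omega) hc))
                (h.fil.anti (by have := h.num (a + 1) (by omega); omega))
              have h2 := (γ _).mul_mem hx.2 ((γ _).mul_mem h1 hz.2)
              rwa [inv_mul_cancel_right, mul_inv_cancel_left] at h2⟩
            inv_mem' := fun {x} hx => ⟨(γ _).inv_mem hx.1, by
              rw [inv_pow]; exact (γ _).inv_mem hx.2⟩ }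
        have hW : γ (a + 1) ≤ W := by
          rw [h.succ a (by omega), Subgroup.commutator_le]
          intro x hx y _
          rw [← commutatorElement_inv]
          refine W.inv_mem ?_
          have hz : x⁻¹ * ⁅y, x⁆ * x⁻¹⁻¹ ∈ γ (a + 1) :=
            (h.fil.normal _).conj_mem _ (h.comm_mem y hx) _
          refine ⟨h.comm_mem y hx, ?_⟩
          have h1 := mul_pow_mem h.fil h.prime (μ := a) (β := 1) hx (by rwa [add_comm] at hz)
            (γ (a₀ + 1 + d)) (fun c hc => ih' c (h.fil.anti (by omega) hc))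
            (h.fil.anti (by have := h.num a (by omega); omega))
          have h2 : ⁅y, x ^ p⁆ ∈ γ (a₀ + 1 + d) := by
            have := h.comm_mem y (ih x (h.fil.anti (by omega) hx))
            rwa [show a₀ + d + 1 = a₀ + 1 + d by ring] at this
          rw [conj_id] at h2
          have h3 := (h.fil.normal _).conj_mem _ h2 (x ^ p)⁻¹
          have h4 := (γ _).mul_mem ((γ _).inv_mem h1) h3
          have h5 := (h.fil.normal _).conj_mem _ h4 x
          convert h5 using 1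
          rw [conj_pow (a := x⁻¹)]
          group
        exact fun x hx => (hW hx).2
    exact key d (a₀ + 1) le_rfl le_rfl

lemma ppow_mod {a : ℕ} (ha : m ≤ a) {x z : P} (hx : x ∈ γ a) (hz : z ∈ γ (a + 1)) :
    (x ^ p)⁻¹ * (x * z) ^ p ∈ γ (a + d + 1) := by
  have hm := h.m_pos
  have h1 := mul_pow_mem h.fil h.prime (μ := a) (β := 1) hx (by rwa [add_comm] at hz)
    (γ (a + d + 1)) (fun c hc => h.fil.anti (by omega) (h.up _ (by omega) c hc))
    (h.fil.anti (by have := h.num a ha; omega))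
  have h2 := (γ _).mul_mem h1 (h.fil.anti (by omega) (h.up (a + 1) (by omega) z hz))
  rwa [inv_mul_cancel_right] at h2

lemma ppow_mem {a : ℕ} (ha : m ≤ a) {w u : P} (hw : Gen γ a w) (hu : u ∈ γ a) :
    u ^ p ∈ Subgroup.zpowers (w ^ p) ⊔ γ (a + d + 1) := by
  have := h.fil.normal (a + 1)
  obtain ⟨_, ⟨k, rfl⟩, z, hz, rfl⟩ := Subgroup.mem_sup_of_normal_right.1 (hw.2 hu)
  have h1 := h.ppow_mod ha ((γ _).zpow_mem hw.1 k) hz
  have h2 : (w ^ k * z) ^ p = (w ^ p) ^ k * (((w ^ k) ^ p)⁻¹ * (w ^ k * z) ^ p) := by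
    have : (w ^ p) ^ k = (w ^ k) ^ p := by
      rw [← zpow_natCast, ← zpow_natCast, ← zpow_mul, ← zpow_mul, mul_comm]
    rw [this]; group
  change (w ^ k * z) ^ p ∈ _
  rw [h2]
  exact Subgroup.mul_mem_sup (Subgroup.zpow_mem_zpowers _ _) h1

lemma gen_pow_of {a : ℕ} (ha : m ≤ a) (hex : ∃ w, Gen γ a w ∧ Gen γ (a + d) (w ^ p)) {w : P}
    (hw : Gen γ a w) : Gen γ (a + d) (w ^ p) := by
  obtain ⟨v, hv, hv'⟩ := hex
  refine ⟨h.up a ha w hw.1, hv'.2.trans (sup_le ?_ le_sup_right)⟩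
  rw [Subgroup.zpowers_le]
  exact h.ppow_mem ha hw hv.1

theorem gen_all : ∀ a, m ≤ a → ∃ w, Gen γ a w ∧ Gen γ (a + d) (w ^ p) := by
  intro a
  induction a using Nat.strong_induction_on with
  | _ a ih =>
    intro ha
    rcases Nat.eq_or_lt_of_le ha with rfl | hlt
    · exact h.gen0
    obtain ⟨a, rfl⟩ : ∃ b, a = b + 1 := ⟨a - 1, by omega⟩
    have hm := h.m_pos
    have hd := h.d_pos
    obtain ⟨w, hw, hwp⟩ := ih a (by omega) (by omega)
    obtain ⟨w', hw'⟩ : ∃ w', Gen γ (a + 1) w' := by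
      by_cases hc : a + 1 < m + d
      · exact h.cyc0 _ ha hc
      · obtain ⟨w₀, -, h0⟩ := ih (a + 1 - d) (by omega) (by omega)
        exact ⟨w₀ ^ p, by rwa [show a + 1 - d + d = a + 1 by omega] at h0⟩
    have hmem := h.up _ ha w' hw'.1
    refine ⟨w', hw', hmem, ?_⟩
    set K := Subgroup.zpowers (w' ^ p) ⊔ γ (a + 1 + d + 1) with hK
    have hKle : K ≤ γ (a + 1 + d) :=
      sup_le (by rwa [Subgroup.zpowers_le]) (h.fil.anti (by omega))
    have hKn : K.Normal := ⟨fun k hk g => by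
      have : g * k * g⁻¹ = ⁅g, k⁆ * k := by simp only [commutatorElement_def]; group
      rw [this]
      exact K.mul_mem (Subgroup.mem_sup_right (h.comm_mem g (hKle hk))) hk⟩
    rw [show a + 1 + d = a + d + 1 by ring, h.succ (a + d) (by omega)]
    refine comm_le_of_le_cen hKn (hwp.2.trans (sup_le ?_ ?_))
    · rw [Subgroup.zpowers_le]
      intro y
      have hz : w⁻¹ * ⁅y, w⁆ * w⁻¹⁻¹ ∈ γ (a + 1) :=
        (h.fil.normal _).conj_mem _ (h.comm_mem y hw.1) _
      have h1 := mul_pow_mem h.fil h.prime (μ := a) (β := 1) hw.1 (by rwa [add_comm] at hz)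
        (γ (a + 1 + d + 1)) (fun c hc => h.fil.anti (by omega) (h.up _ (by omega) c hc))
        (h.fil.anti (by have := h.num a (by omega); omega))
      have h2 := K.mul_mem (Subgroup.mem_sup_right h1) (h.ppow_mem ha hw' hz)
      rw [inv_mul_cancel_right] at h2
      rw [conj_id]
      exact hKn.conj_mem _ h2 _
    · intro x hx y
      refine Subgroup.mem_sup_right ?_
      have := h.comm_mem y hx
      rwa [show a + d + 1 + 1 = a + 1 + d + 1 by ring] at this

theorem shift_all {c σ : ℕ} (hc : γ (c + 1) = ⊥) {g : P}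
    (hg : ∀ y ∈ γ m, ⁅g, y⁆ ∈ γ (m + d + σ)) :
    ∀ a, m ≤ a → ∀ u ∈ γ a, ⁅g, u⁆ ∈ γ (a + σ) := by
  have hm := h.m_pos
  have hd := h.d_pos
  have key : ∀ a, m ≤ a → ∃ w, Gen γ a w ∧ ⁅g, w⁆ ∈ γ (a + σ) := by
    intro a
    induction a using Nat.strong_induction_on with
    | _ a ih =>
      intro ha
      by_cases hlt : a < m + d
      · obtain ⟨w, hw⟩ := h.cyc0 a ha hlt
        exact ⟨w, hw, h.fil.anti (by omega) (hg w (h.fil.anti ha hw.1))⟩
      obtain ⟨a, rfl⟩ : ∃ b, a = b + d := ⟨a - d, by omega⟩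
      obtain ⟨w, hw, hw'⟩ := ih a (by omega) (by omega)
      refine ⟨w ^ p, h.gen_pow_of (by omega) (h.gen_all a (by omega)) hw, ?_⟩
      have hz : w⁻¹ * ⁅g, w⁆ * w⁻¹⁻¹ ∈ γ (a + σ) := (h.fil.normal _).conj_mem _ hw' _
      have h1 := mul_pow_mem h.fil h.prime (μ := a) (β := σ) hw.1 (by rwa [add_comm] at hz)
        (γ (a + d + σ)) (fun c hc => h.fil.anti (by omega) (h.up _ (by omega) c hc))
        (h.fil.anti (by have := h.num a (by omega); omega))
      have h2 := (γ _).mul_mem h1 (h.fil.anti (by omega) (h.up _ (by omega) _ hz))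
      rw [inv_mul_cancel_right] at h2
      rw [conj_id]
      exact (h.fil.normal _).conj_mem _ h2 _
  have key2 : ∀ r a, m ≤ a → c + 1 ≤ a + r → ∀ u ∈ γ a, ⁅g, u⁆ ∈ γ (a + σ) := by
    intro r
    induction r with
    | zero =>
      intro a _ ha u hu
      have : u ∈ γ (c + 1) := h.fil.anti ha hu
      rw [hc, Subgroup.mem_bot] at this
      simp [this]
    | succ r ih =>
      intro a ha har
      obtain ⟨w, hw, hw'⟩ := key a ha
      have : γ a ≤ Cen1 g (γ (a + σ)) (h.fil.normal _) := by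
        refine hw.2.trans (sup_le (by rw [Subgroup.zpowers_le]; exact hw') fun u hu => ?_)
        exact h.fil.anti (by omega) (ih (a + 1) (by omega) (by omega) u hu)
      exact fun u hu => this hu
  exact fun a ha => key2 (c + 1) a ha (by omega)

theorem final {c k : ℕ} (hc : γ (c + 1) = ⊥) (hne : ¬ γ c ≤ γ (c + 1)) (hck : m + k * d ≤ c)
    (hg : ∀ x ∈ γ m, ∀ y ∈ γ m, ⁅x, y⁆ ∈ γ (m + d + (k * d + 1))) :
    ∃ Z : Subgroup P, Z.Normal ∧ Z ≤ γ m ∧ (∀ x ∈ γ m, ∀ y ∈ Z, Commute x y) ∧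
      ∃ y ∈ Z, y ^ p ^ k ≠ 1 := by
  obtain ⟨a, ha, rfl⟩ : ∃ a, m ≤ a ∧ c = a + k * d := ⟨c - k * d, by omega, by omega⟩
  refine ⟨γ a, h.fil.normal a, h.fil.anti ha, fun x hx y hy => ?_, ?_⟩
  · have := h.shift_all hc (hg x hx) a ha y hy
    rw [← add_assoc, hc, Subgroup.mem_bot] at this
    exact commutatorElement_eq_one_iff_commute.1 this
  · obtain ⟨w, hw, -⟩ := h.gen_all a ha
    have key : ∀ l, Gen γ (a + l * d) (w ^ p ^ l) := by
      intro l
      induction l with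
      | zero => simpa using hw
      | succ l ih =>
        have := h.gen_pow_of (by omega) (h.gen_all _ (by omega)) ih
        rwa [← pow_mul, ← pow_succ, show a + l * d + d = a + (l + 1) * d by ring] at this
    refine ⟨w, hw.1, fun h1 => hne ?_⟩
    have := (key k).2
    rwa [h1, Subgroup.zpowers_one_eq_bot, bot_sup_eq] at this

end Base

end Pool.Agent.H495Z.PR
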