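import Mathlib
import Pool.Agent.H495Z.Defs
import Pool.Agent.H495Z.Prop

/-! The lower central series of a finite `p`-group of given coclass. -/

set_option autoImplicit false

universe u

open scoped commutatorElement

namespace Pool.Agent.H495Z.FG

open HP PR

/-- `gam P i = γ_i(P)` -/
def gam (P : Type u) [Group P] (i : ℕ) : Subgroup P := (⊤ : Subgroup P).lowerCentralSeries (i - 1)

variable {P : Type u} [Group P]

lemma three_sub (A B C N : Subgroup P) [N.Normal] (h1 : ⁅⁅B, C⁆, A⁆ ≤ N) (h2 : ⁅⁅C, A⁆, B⁆ ≤ N) :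
    ⁅⁅A, B⁆, C⁆ ≤ N := by
  have key : ∀ H : Subgroup P, H ≤ N ↔ H.map (QuotientGroup.mk' N) = ⊥ := fun H => by
    rw [Subgroup.map_eq_bot_iff, QuotientGroup.ker_mk']
  rw [key] at h1 h2 ⊢
  simp only [Subgroup.map_commutator] at h1 h2 ⊢
  exact Subgroup.commutator_commutator_eq_bot_of_rotate h1 h2

lemma lcs_comm : ∀ j i : ℕ, ⁅(⊤ : Subgroup P).lowerCentralSeries i,
    (⊤ : Subgroup P).lowerCentralSeries j⁆ ≤ (⊤ : Subgroup P).lowerCentralSeries (i + j + 1)
  | 0, _ => le_rfl
  | j + 1, i => by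
    rw [Subgroup.commutator_comm, Subgroup.lowerCentralSeries_succ _ j]
    refine three_sub _ _ _ _ ?_ ?_
    · rw [Subgroup.commutator_comm ⊤, ← Subgroup.lowerCentralSeries_succ]
      have := lcs_comm j (i + 1)
      rwa [show i + 1 + j + 1 = i + (j + 1) + 1 by ring] at this
    · exact Subgroup.commutator_mono (lcs_comm j i) le_rfl

lemma isFil_gam (P : Type u) [Group P] : IsFil (gam P) where
  normal := fun i => by unfold gam; infer_instance
  anti := fun _ _ h => Subgroup.lowerCentralSeries_antitone _ (by omega)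
  comm := fun i j x y hx hy =>
    Subgroup.lowerCentralSeries_antitone _ (by omega)
      (lcs_comm _ _ (Subgroup.commutator_mem_commutator hx hy))

lemma gam_one : gam P 1 = ⊤ := rfl

lemma gam_succ (i : ℕ) (hi : 1 ≤ i) : gam P (i + 1) = ⁅gam P i, (⊤ : Subgroup P)⁆ := by
  obtain ⟨i, rfl⟩ : ∃ j, i = j + 1 := ⟨i - 1, by omega⟩
  rfl

variable {p : ℕ} [Fact p.Prime] {s : ℕ}

lemma nilp (h : HasCoclass p P s) : Group.IsNilpotent P := by
  have := h.1
  exact (IsPGroup.of_card h.2).isNilpotent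

lemma gam_bot (h : HasCoclass p P s) : gam P (Group.nilpotencyClass P + 1) = ⊥ := by
  have := nilp h
  exact Subgroup.lowerCentralSeries_nilpotencyClass

lemma gam_ne (h : HasCoclass p P s) {a : ℕ} (ha : 1 ≤ a) (hc : a ≤ Group.nilpotencyClass P) :
    ¬ gam P a ≤ gam P (a + 1) := by
  have := nilp h
  intro hle
  have key : ∀ t, gam P a ≤ gam P (a + t) := by
    intro t
    induction t with
    | zero => exact le_rfl
    | succ t ih =>
      refine hle.trans ?_
      rw [← add_assoc, gam_succ a ha, gam_succ (a + t) (by omega)]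
      exact Subgroup.commutator_mono ih le_rfl
  have h1 := key (Group.nilpotencyClass P + 1 - a)
  rw [show a + (Group.nilpotencyClass P + 1 - a) = Group.nilpotencyClass P + 1 by omega,
    gam_bot h, le_bot_iff] at h1
  have := Subgroup.lowerCentralSeries_eq_bot_iff_nilpotencyClass_le.1 h1
  omega

/-- exponent of the index of `γ_{i+1}` -/
noncomputable def idx (p : ℕ) (P : Type u) [Group P] (i : ℕ) : ℕ := Nat.log p (gam P (i + 1)).index

lemma index_eq (h : HasCoclass p P s) (i : ℕ) : (gam P (i + 1)).index = p ^ idx p P i := by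
  have hp : p.Prime := Fact.out
  obtain ⟨k, -, hk⟩ := (Nat.dvd_prime_pow hp).1 (h.2 ▸ (gam P (i + 1)).index_dvd_card)
  rw [idx, hk, Nat.log_pow hp.one_lt]

lemma idx_succ (h : HasCoclass p P s) {i : ℕ} (hi : i < Group.nilpotencyClass P) :
    idx p P i + 1 ≤ idx p P (i + 1) := by
  have hp : p.Prime := Fact.out
  have := h.1
  have h1 : gam P (i + 1 + 1) < gam P (i + 1) :=
    lt_of_le_not_ge ((isFil_gam P).anti (by omega)) (gam_ne h (by omega) hi)
  have h2 := Subgroup.index_strictAnti h1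
  rw [index_eq h, index_eq h, Nat.pow_lt_pow_iff_right hp.one_lt] at h2
  exact h2

lemma idx_top (h : HasCoclass p P s) (i : ℕ) : idx p P i ≤ Group.nilpotencyClass P + s := by
  have hp : p.Prime := Fact.out
  have := (gam P (i + 1)).index_dvd_card
  rwa [index_eq h, h.2, Nat.pow_dvd_pow_iff_le_right hp.one_lt] at this

lemma idx_le (h : HasCoclass p P s) (i : ℕ) : idx p P i ≤ i + s := by
  have key : ∀ t, i + t ≤ Group.nilpotencyClass P → idx p P i + t ≤ idx p P (i + t) := by
    intro t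
    induction t with
    | zero => exact fun _ => le_rfl
    | succ t ih =>
      intro ht
      have := idx_succ h (i := i + t) (by omega)
      have := ih (by omega)
      rw [← add_assoc, ← add_assoc]; omega
  by_cases hi : i ≤ Group.nilpotencyClass P
  · have h1 := key (Group.nilpotencyClass P - i) (by omega)
    have h2 := idx_top h (i + (Group.nilpotencyClass P - i))
    omega
  · have := idx_top h i
    omega

lemma le_idx (h : HasCoclass p P s) : ∀ i, i ≤ Group.nilpotencyClass P → i ≤ idx p P i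
  | 0, _ => Nat.zero_le _
  | i + 1, hi => by
    have := le_idx h i (by omega)
    have := idx_succ h (i := i) (by omega)
    omega

lemma pow_mem_gam (h : HasCoclass p P s) (m : ℕ) (g : P) : g ^ p ^ (m + s) ∈ gam P (m + 1) := by
  have := (isFil_gam P).normal (m + 1)
  obtain ⟨t, ht⟩ := Nat.exists_eq_add_of_le (idx_le h m)
  rw [ht, pow_add, pow_mul, ← index_eq h]
  exact Subgroup.pow_mem _ (Subgroup.pow_index_mem _ g) _

/-- coordinates on a factor of order `p` -/
def Layer (p : ℕ) (A B : Subgroup P) (v : P) (κ : P → ZMod p) : Prop :=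
  v ∈ A ∧ κ v = 1 ∧ (∀ x ∈ A, ∀ y ∈ A, κ (x * y) = κ x + κ y) ∧ ∀ x ∈ A, (κ x = 0 ↔ x ∈ B)

lemma exists_layer (A B : Subgroup P) [B.Normal] (hidx : B.relIndex A = p) :
    ∃ v κ, Layer p A B v κ := by
  classical
  have h1 : Nat.card (A ⧸ B.subgroupOf A) = p := hidx
  have h2 : Nat.card (Multiplicative (ZMod p)) = p := by simp
  let e := mulEquivOfPrimeCardEq h1 h2
  obtain ⟨v, hv⟩ := QuotientGroup.mk_surjective (e.symm (Multiplicative.ofAdd 1))
  refine ⟨v, fun x => if hx : x ∈ A then (e (⟨x, hx⟩ : A)).toAdd else 0, v.2, ?_, ?_, ?_⟩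
  · simp [hv]
  · intro x hx y hy
    simp only [hx, hy, A.mul_mem hx hy, dif_pos]
    rw [← toAdd_mul, ← map_mul, ← QuotientGroup.mk_mul]
    rfl
  · intro x hx
    simp only [hx, dif_pos]
    rw [toAdd_eq_zero, map_eq_one_iff _ e.injective, QuotientGroup.eq_one_iff,
      Subgroup.mem_subgroupOf]

lemma layer_of_idx (h : HasCoclass p P s) {i : ℕ} (hi : idx p P (i + 1) = idx p P i + 1) :
    ∃ v κ, Layer p (gam P (i + 1)) (gam P (i + 1 + 1)) v κ := by
  have hp : p.Prime := Fact.out
  have := (isFil_gam P).normal (i + 1 + 1)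
  refine exists_layer _ _ ?_
  have h1 := Subgroup.relIndex_mul_index ((isFil_gam P).anti (show i + 1 ≤ i + 1 + 1 by omega))
  rw [index_eq h, index_eq h, hi, pow_succ'] at h1
  exact Nat.eq_of_mul_eq_mul_right (pow_pos hp.pos _) h1

lemma Layer.gen {A B : Subgroup P} {v : P} {κ : P → ZMod p} (hL : Layer p A B v κ) {w : P}
    (hw : w ∈ A) (hw' : w ∉ B) : A ≤ Subgroup.zpowers w ⊔ B := by
  obtain ⟨-, -, h3, h4⟩ := hL
  have h0 : κ 1 = 0 := (h4 1 A.one_mem).2 B.one_mem
  have hpow : ∀ n : ℕ, κ (w ^ n) = n * κ w := by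
    intro n
    induction n with
    | zero => simp [h0]
    | succ n ih => rw [pow_succ, h3 _ (A.pow_mem hw n) _ hw, ih]; push_cast; ring
  have hκ : κ w ≠ 0 := fun h => hw' ((h4 w hw).1 h)
  intro x hx
  set k := (κ x / κ w).val with hk
  have h5 := A.pow_mem hw k
  have h6 : (w ^ k)⁻¹ * x ∈ B := by
    rw [← h4 _ (A.mul_mem (A.inv_mem h5) hx)]
    have h7 := h3 _ h5 _ (A.mul_mem (A.inv_mem h5) hx)
    rw [mul_inv_cancel_left, hpow, hk, ZMod.natCast_zmod_val, div_mul_cancel₀ _ hκ] at h7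
    linear_combination -h7
  have : x = w ^ k * ((w ^ k)⁻¹ * x) := by group
  rw [this]
  exact Subgroup.mul_mem_sup (Subgroup.npow_mem_zpowers _ _) h6

lemma Layer.not_mem {A B : Subgroup P} {v : P} {κ : P → ZMod p} (hL : Layer p A B v κ) :
    v ∉ B := fun h => by
  have := (hL.2.2.2 v hL.1).2 h
  rw [hL.2.1] at this
  exact one_ne_zero this

lemma exists_step (h : HasCoclass p P s) {i : ℕ} (hi : 1 ≤ i) (hc : i + 1 ≤ Group.nilpotencyClass P)
    {v : P} {κ : P → ZMod p} (hL : Layer p (gam P i) (gam P (i + 1)) v κ) :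
    ∃ y : P, ⁅y, v⁆ ∉ gam P (i + 2) := by
  by_contra hcon
  push Not at hcon
  refine gam_ne h (a := i + 1) (by omega) hc ?_
  rw [gam_succ i hi]
  refine comm_le_of_le_cen ((isFil_gam P).normal _) ((hL.gen hL.1 hL.not_mem).trans
    (sup_le (by rw [Subgroup.zpowers_le]; exact hcon) fun x hx y => ?_))
  rw [add_comm]
  exact (isFil_gam P).comm 1 _ _ _ trivial hx

lemma exists_reps (h : HasCoclass p P s) (i : ℕ) :
    ∃ σ : Fin (p ^ (i + s)) → P, ∀ g : P, ∃ j, (σ j)⁻¹ * g ∈ gam P i := by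
  classical
  have hp : p.Prime := Fact.out
  have := h.1
  have := Fintype.ofFinite (P ⧸ gam P (i + 1))
  have h1 : Fintype.card (P ⧸ gam P (i + 1)) ≤ Fintype.card (Fin (p ^ (i + s))) := by
    rw [Fintype.card_fin, ← Nat.card_eq_fintype_card, ← Subgroup.index_eq_card, index_eq h]
    exact Nat.pow_le_pow_right hp.pos (idx_le h i)
  obtain ⟨f⟩ := Function.Embedding.nonempty_of_card_le h1
  refine ⟨fun j => (Function.invFun f j).out, fun g => ⟨f g, ?_⟩⟩
  refine (isFil_gam P).anti (Nat.le_succ i) ?_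
  rw [← QuotientGroup.eq, QuotientGroup.out_eq', Function.leftInverse_invFun f.injective]

end Pool.Agent.H495Z.FG

namespace Pool.Agent.H495Z

theorem index_commutator_dvd (p : ℕ) [Fact p.Prime] (s : ℕ) (P : Type u) [Group P]
    (h : HasCoclass p P s) : (commutator P).index ∣ p ^ (s + 1) := by
  have h1 : (commutator P).index = p ^ FG.idx p P 1 := FG.index_eq h 1
  rw [h1]
  exact pow_dvd_pow _ (by have := FG.idx_le h 1; omega)

end Pool.Agent.H495Z
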