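import Mathlib
import Pool.Agent.H495Z.Defs

/-! Auxiliary notions shared by the proof files. -/

set_option autoImplicit false

universe u

namespace Pool.Agent.H495Z

/-- A submodule invariant under the representation `ρ`. -/
def Inv {p : ℕ} [Fact p.Prime] {Q : Type u} [Group Q] {M : Type} [AddCommGroup M]
    [Module ℤ_[p] M] (ρ : Q →* Module.End ℤ_[p] M) (L : Submodule ℤ_[p] M) : Prop :=
  ∀ g : Q, ∀ t ∈ L, ρ g t ∈ L

/-- Uniserial action: invariant submodules form a chain. -/
def Chain {p : ℕ} [Fact p.Prime] {Q : Type u} [Group Q] {M : Type} [AddCommGroup M]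
    [Module ℤ_[p] M] (ρ : Q →* Module.End ℤ_[p] M) : Prop :=
  ∀ L L' : Submodule ℤ_[p] M, Inv ρ L → Inv ρ L' → L ≤ L' ∨ L' ≤ L

end Pool.Agent.H495Z
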