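import Mathlib
import Pool.Agent.H495Z.Stmt

set_option autoImplicit false

universe u

namespace Pool.Agent.H495Z

namespace PK

open Finset

/-- Kreknin's argument for a perfect graded left Leibniz algebra with trivial zero component. -/
theorem krek {F L : Type} [Field F] [AddCommGroup L] [Module F L] {p : ℕ} [Fact p.Prime]
    (B : L →ₗ[F] L →ₗ[F] L) (Lc : ZMod p → Submodule F L) (π : ZMod p → L →ₗ[F] L)
    (h1 : ∀ c x, π c x ∈ Lc c) (h2 : ∀ c, ∀ x ∈ Lc c, π c x = x)
    (h3 : ∀ c c', c' ≠ c → ∀ x ∈ Lc c', π c x = 0) (h4 : ∀ x, ∑ c, π c x = x)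
    (h5 : ∀ c c', ∀ x ∈ Lc c, ∀ y ∈ Lc c', B x y ∈ Lc (c + c'))
    (h0 : ∀ x ∈ Lc 0, x = 0)
    (hL : ∀ x y w, B (B x y) w = B x (B y w) - B y (B x w))
    (hperf : ∀ W : Submodule F L, (∀ x y, B x y ∈ W) → W = ⊤) : ∀ x : L, x = 0 := by
  have key : ∀ k : ℕ, ∀ N : Submodule F L, (∀ x ∈ N, ∀ y ∈ N, B x y ∈ N) →
      (∀ c : ZMod p, k < c.val → Lc c ≤ N) → N = ⊤ := by
    intro k
    induction k with
    | zero =>
      intro N _ hN
      rw [eq_top_iff]
      intro x _
      rw [← h4 x]
      refine N.sum_mem fun c _ => ?_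
      by_cases hc : c = 0
      · rw [h0 (π c x) (hc ▸ h1 c x)]; exact N.zero_mem
      · exact hN c (Nat.pos_of_ne_zero fun h => hc ((ZMod.val_eq_zero c).1 h)) (h1 c x)
    | succ k ih =>
      intro N hcl hN
      refine ih N hcl fun c0 hc0 => ?_
      by_cases hlt : k + 1 < c0.val
      · exact hN c0 hlt
      have hc0v : c0.val = k + 1 := by omega
      have hW : N.comap (π c0) = ⊤ := by
        apply hperf
        let N' : Submodule F L :=
          { carrier := {x | ∀ w, B x w ∈ N.comap (π c0)}
            add_mem' := fun {a b} ha hb w => by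
              rw [map_add, LinearMap.add_apply]; exact Submodule.add_mem _ (ha w) (hb w)
            zero_mem' := fun w => by
              rw [map_zero, LinearMap.zero_apply]; exact Submodule.zero_mem _
            smul_mem' := fun r a ha w => by
              rw [map_smul, LinearMap.smul_apply]; exact Submodule.smul_mem _ r (ha w) }
        have hN' : N' = ⊤ := by
          apply ih N'
          · intro x hx y hy w
            rw [hL]
            exact Submodule.sub_mem _ (hx _) (hy _)
          · intro c hc x hx w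
            rw [← h4 w, map_sum]
            refine Submodule.sum_mem _ fun c' _ => ?_
            rw [Submodule.mem_comap]
            have hB := h5 c c' x hx _ (h1 c' w)
            by_cases hcc : c + c' = c0
            · rw [hcc] at hB
              rw [h2 _ _ hB]
              by_cases hc' : c = c0
              · have : c' = 0 := by rw [hc'] at hcc; simpa using hcc
                rw [h0 (π c' w) (this ▸ h1 c' w), map_zero]; exact N.zero_mem
              · have hne : c.val ≠ c0.val := fun h => hc' (ZMod.val_injective p h)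
                have hv := ZMod.val_add c c'
                rw [hcc] at hv
                have a1 := ZMod.val_lt c
                have a2 := ZMod.val_lt c'
                have hc'v : k + 1 < c'.val := by
                  by_cases hs : c.val + c'.val < p
                  · rw [Nat.mod_eq_of_lt hs] at hv; omega
                  · rw [Nat.mod_eq_sub_mod (by omega), Nat.mod_eq_of_lt (by omega)] at hv; omega
                exact hcl _ (hN c (by omega) hx) _ (hN c' hc'v (h1 c' w))
            · rw [h3 c0 _ hcc _ hB]; exact N.zero_mem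
        intro x y
        have : x ∈ N' := hN' ▸ Submodule.mem_top
        exact this y
      intro x hx
      have : x ∈ N.comap (π c0) := hW ▸ Submodule.mem_top
      rwa [Submodule.mem_comap, h2 _ _ hx] at this
  intro x
  have := key p ⊥ (by simp) (fun c hc => absurd (ZMod.val_lt c) (by omega))
  have hx : x ∈ (⊥ : Submodule F L) := this ▸ Submodule.mem_top
  simpa using hx

/-- The version for a derivation `Y` with `Y ^ (p - 1) = 1`. -/
theorem krekY {F L : Type} [Field F] [AddCommGroup L] [Module F L] {p : ℕ} [Fact p.Prime]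
    [CharP F p] (B : L →ₗ[F] L →ₗ[F] L) (Y : Module.End F L) (hY : Y ^ (p - 1) = 1)
    (hder : ∀ x y, Y (B x y) = B (Y x) y + B x (Y y))
    (hL : ∀ x y w, B (B x y) w = B x (B y w) - B y (B x w))
    (hperf : ∀ W : Submodule F L, (∀ x y, B x y ∈ W) → W = ⊤) : ∀ x : L, x = 0 := by
  have hp : p.Prime := Fact.out
  have hp1 : p - 1 ≠ 0 := by have := hp.two_le; omega
  have hp2 : p - 1 + 1 = p := by have := hp.two_le; omega
  let ι : ZMod p →+* F := ZMod.castHom (dvd_refl p) F
  have hι : Function.Injective ι := ι.injective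
  let q : ZMod p → Polynomial F := fun c => 1 - (Polynomial.X - Polynomial.C (ι c)) ^ (p - 1)
  have hqe : ∀ c c', (q c).eval (ι c') = if c' = c then 1 else 0 := by
    intro c c'
    simp only [q, Polynomial.eval_sub, Polynomial.eval_one, Polynomial.eval_pow,
      Polynomial.eval_X, Polynomial.eval_C]
    rw [← map_sub, ← map_pow]
    split_ifs with h
    · rw [h, sub_self, zero_pow hp1, map_zero, sub_zero]
    · rw [ZMod.pow_card_sub_one_eq_one (sub_ne_zero.2 h), map_one, sub_self]
  have hqs : ∑ c, q c = 1 := by
    rw [← sub_eq_zero]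
    apply Polynomial.eq_zero_of_natDegree_lt_card_of_eval_eq_zero _ hι
    · intro c'
      rw [Polynomial.eval_sub, Polynomial.eval_finsetSum, Polynomial.eval_one]
      simp [hqe]
    · rw [ZMod.card]
      refine lt_of_le_of_lt (b := p - 1) ?_ (by omega)
      refine le_trans (Polynomial.natDegree_sub_le _ _) (max_le ?_ (by simp))
      apply Polynomial.natDegree_sum_le_of_forall_le
      intro c _
      refine le_trans (Polynomial.natDegree_sub_le _ _) (max_le (by simp) ?_)
      refine le_trans Polynomial.natDegree_pow_le ?_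
      rw [Polynomial.natDegree_X_sub_C, mul_one]
  have hqm : ∀ c, (Polynomial.X - Polynomial.C (ι c)) * q c =
      Polynomial.X - Polynomial.X ^ p := by
    intro c
    simp only [q]
    rw [mul_sub, mul_one, ← pow_succ', hp2, sub_pow_char, ← Polynomial.C_pow, ← map_pow,
      ZMod.pow_card]
    ring
  have hev : ∀ (c : ZMod p) (x : L), Y x = ι c • x → ∀ r : Polynomial F,
      Polynomial.aeval Y r x = r.eval (ι c) • x := by
    intro c x hx r
    by_cases h0 : x = 0
    · simp [h0]
    · exact Module.End.aeval_apply_of_hasEigenvector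
        ⟨Module.End.mem_eigenspace_iff.2 hx, h0⟩
  refine krek B (fun c => Y.eigenspace (ι c)) (fun c => Polynomial.aeval Y (q c)) ?_ ?_ ?_ ?_ ?_ ?_
    hL hperf
  · intro c x
    rw [Module.End.mem_eigenspace_iff]
    have h := congrArg (fun r => Polynomial.aeval Y r x) (hqm c)
    simp only [map_mul, map_sub, map_pow, Polynomial.aeval_X, Polynomial.aeval_C,
      Module.End.mul_apply, LinearMap.sub_apply, Module.algebraMap_end_apply] at h
    have hYp : Y ^ p = Y := by rw [← hp2, pow_succ, hY, one_mul]
    rw [hYp, sub_self] at h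
    exact sub_eq_zero.1 h
  · intro c x hx
    rw [hev c x (Module.End.mem_eigenspace_iff.1 hx), hqe, if_pos rfl, one_smul]
  · intro c c' hcc x hx
    rw [hev c' x (Module.End.mem_eigenspace_iff.1 hx), hqe, if_neg hcc, zero_smul]
  · intro x
    rw [← LinearMap.sum_apply, ← map_sum, hqs, map_one, Module.End.one_apply]
  · intro c c' x hx y hy
    rw [Module.End.mem_eigenspace_iff] at hx hy ⊢
    rw [hder, hx, hy, map_smul, map_smul, LinearMap.smul_apply, map_add, add_smul]
  · intro x hx
    rw [Module.End.mem_eigenspace_iff, map_zero, zero_smul] at hx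
    have : (Y ^ (p - 1)) x = 0 := by
      obtain ⟨n, hn⟩ := Nat.exists_eq_succ_of_ne_zero hp1
      rw [hn, pow_succ, Module.End.mul_apply, hx, map_zero]
    rwa [hY, Module.End.one_apply] at this

theorem rec_pow {p : ℕ} [Fact p.Prime] (F : Type) [Field F] [CharP F p] (j : ℕ)
    (f : ℕ → ℕ → F) (hrec : ∀ a c, f a c = f (a + 1) c + f a (c + 1)) (a c : ℕ) :
    f a c = f (a + p ^ j) c + f a (c + p ^ j) := by
  let E1 : Module.End F (ℕ → ℕ → F) :=
    { toFun := fun g a c => g (a + 1) c, map_add' := fun _ _ => rfl, map_smul' := fun _ _ => rfl }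
  let E2 : Module.End F (ℕ → ℕ → F) :=
    { toFun := fun g a c => g a (c + 1), map_add' := fun _ _ => rfl, map_smul' := fun _ _ => rfl }
  have hc : Commute E1 E2 := rfl
  have : CharP (Module.End F (ℕ → ℕ → F)) p :=
    charP_of_injective_algebraMap (algebraMap F (Module.End F (ℕ → ℕ → F))).injective p
  have h1 : ∀ n (g : ℕ → ℕ → F) a c, (E1 ^ n) g a c = g (a + n) c := by
    intro n
    induction n with
    | zero => intro g a c; rfl
    | succ n ih => intro g a c; rw [pow_succ, Module.End.mul_apply, ih]; rfl
  have h2 : ∀ n (g : ℕ → ℕ → F) a c, (E2 ^ n) g a c = g a (c + n) := by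
    intro n
    induction n with
    | zero => intro g a c; rfl
    | succ n ih => intro g a c; rw [pow_succ, Module.End.mul_apply, ih]; rfl
  have h3 : (E1 + E2) f = f := by
    funext a c
    exact (hrec a c).symm
  have h4 : ∀ n, ((E1 + E2) ^ n) f = f := by
    intro n
    induction n with
    | zero => rfl
    | succ n ih => rw [pow_succ, Module.End.mul_apply, h3, ih]
  have h5 := h4 (p ^ j)
  rw [add_pow_char_pow_of_commute p j hc] at h5
  have h6 := congrFun (congrFun h5 a) c
  rw [LinearMap.add_apply, Pi.add_apply, Pi.add_apply, h1, h2] at h6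
  exact h6.symm

end PK

/-- TASK K1 -/
theorem lemmaK {p : ℕ} [Fact p.Prime] (F : Type) [Field F] [CharP F p] (j e : ℕ)
    (f : ℕ → ℕ → F)
    (hrec : ∀ a c, f a c = f (a + 1) c + f a (c + 1))
    (hper1 : ∀ a c, f (a + (p - 1) * p ^ j) c = f a c)
    (hper2 : ∀ a c, f a (c + (p - 1) * p ^ j) = f a c)
    (hjac : ∀ k a c, f a c * f k (a + c + e) =
      f k a * f (k + a + e) c + f k c * f a (k + c + e)) :
    ∀ a c, f a c = 0 := by
  have hp : p.Prime := Fact.out
  set d := (p - 1) * p ^ j with hd
  have hd0 : d ≠ 0 := by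
    have := hp.two_le
    exact Nat.mul_ne_zero (by omega) (pow_ne_zero _ hp.ne_zero)
  have : NeZero d := ⟨hd0⟩
  have m1 : ∀ n a c, f (a + d * n) c = f a c := by
    intro n
    induction n with
    | zero => intro a c; rfl
    | succ n ih => intro a c; rw [mul_add, mul_one, ← add_assoc, hper1, ih]
  have m2 : ∀ n a c, f a (c + d * n) = f a c := by
    intro n
    induction n with
    | zero => intro a c; rfl
    | succ n ih => intro a c; rw [mul_add, mul_one, ← add_assoc, hper2, ih]
  let g : ZMod d → ZMod d → F := fun a c => f a.val c.val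
  have hg : ∀ a c : ℕ, g a c = f a c := by
    intro a c
    simp only [g, ZMod.val_natCast]
    rw [← m1 (a / d), ← m2 (c / d), Nat.mod_add_div, Nat.mod_add_div]
  have hs : ∀ a : ZMod d, ∃ n : ℕ, a = n := fun a => ⟨a.val, (ZMod.natCast_zmod_val a).symm⟩
  let b := Pi.basisFun F (ZMod d)
  let B : (ZMod d → F) →ₗ[F] (ZMod d → F) →ₗ[F] (ZMod d → F) :=
    b.constr F fun a => b.constr F fun c => g a c • b (a + c + e)
  have hB : ∀ a c, B (b a) (b c) = g a c • b (a + c + e) := by
    intro a c
    simp only [B, Module.Basis.constr_basis]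
  let Y : Module.End F (ZMod d → F) := b.constr F fun a => b (a + (p ^ j : ℕ))
  have hYb : ∀ a, Y (b a) = b (a + (p ^ j : ℕ)) := by
    intro a
    simp only [Y, Module.Basis.constr_basis]
  have hYn : ∀ (n : ℕ) a, (Y ^ n) (b a) = b (a + (n * p ^ j : ℕ)) := by
    intro n
    induction n with
    | zero => intro a; simp
    | succ n ih =>
      intro a
      rw [pow_succ, Module.End.mul_apply, hYb, ih]
      congr 1
      push_cast; ring
  have hY : Y ^ (p - 1) = 1 := by
    apply b.ext
    intro a
    rw [hYn, ← hd, ZMod.natCast_self, add_zero, Module.End.one_apply]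
  have hder : ∀ x y, Y (B x y) = B (Y x) y + B x (Y y) := by
    have : B.compr₂ Y = B.comp Y + B.compl₂ Y := by
      apply LinearMap.ext_basis b b
      intro a c
      simp only [LinearMap.compr₂_apply, LinearMap.add_apply, LinearMap.comp_apply,
        LinearMap.compl₂_apply, hB, hYb, map_smul]
      obtain ⟨a, rfl⟩ := hs a
      obtain ⟨c, rfl⟩ := hs c
      rw [← Nat.cast_add a (p ^ j), ← Nat.cast_add c (p ^ j), hg, hg, hg, PK.rec_pow F j f hrec a c, add_smul]
      congr 3 <;> push_cast <;> ring
    intro x y
    exact LinearMap.congr_fun₂ this x y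
  have hL : ∀ x y w, B (B x y) w = B x (B y w) - B y (B x w) := by
    intro x y w
    have : ∀ w, (B.compr₂ (B.flip w)) =
        B.compl₂ (B.flip w) - (B.compl₂ (B.flip w)).flip := by
      intro w
      apply LinearMap.ext_basis b b
      intro k a
      have : ∀ w, B (B (b k) (b a)) w = B (b k) (B (b a) w) - B (b a) (B (b k) w) := by
        have h : B (B (b k) (b a)) = (B (b k)).comp (B (b a)) - (B (b a)).comp (B (b k)) := by
          apply b.ext
          intro c
          simp only [LinearMap.sub_apply, LinearMap.comp_apply, hB, map_smul,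
            LinearMap.smul_apply, smul_smul]
          obtain ⟨a, rfl⟩ := hs a
          obtain ⟨c, rfl⟩ := hs c
          obtain ⟨k, rfl⟩ := hs k
          have e1 : (a : ZMod d) + c + e = ((a + c + e : ℕ) : ZMod d) := by push_cast; ring
          have e2 : (k : ZMod d) + c + e = ((k + c + e : ℕ) : ZMod d) := by push_cast; ring
          have e3 : (k : ZMod d) + a + e = ((k + a + e : ℕ) : ZMod d) := by push_cast; ring
          rw [e1, e2, e3, hg, hg, hg, hg, hg, hg, hjac k a c, add_smul]
          have e4 : (k : ZMod d) + ((a + c + e : ℕ) : ZMod d) + e =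
              ((k + a + e : ℕ) : ZMod d) + c + e := by push_cast; ring
          have e5 : (a : ZMod d) + ((k + c + e : ℕ) : ZMod d) + e =
              ((k + a + e : ℕ) : ZMod d) + c + e := by push_cast; ring
          rw [e4, e5, add_sub_cancel_right]
        intro w
        exact LinearMap.congr_fun h w
      exact this w
    exact LinearMap.congr_fun₂ (this w) x y
  intro a0 c0
  by_contra hne
  have hn : ∀ n : ℕ, ∃ a c, a + c = a0 + c0 + n ∧ f a c ≠ 0 := by
    intro n
    induction n with
    | zero => exact ⟨a0, c0, rfl, hne⟩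
    | succ n ih =>
      obtain ⟨a, c, hac, h⟩ := ih
      by_cases h1 : f (a + 1) c = 0
      · refine ⟨a, c + 1, by omega, fun h2 => h ?_⟩
        rw [hrec, h1, h2, add_zero]
      · exact ⟨a + 1, c, by omega, h1⟩
  have hperf : ∀ W : Submodule F (ZMod d → F), (∀ x y, B x y ∈ W) → W = ⊤ := by
    intro W hW
    rw [eq_top_iff, ← b.span_eq, Submodule.span_le]
    rintro _ ⟨t, rfl⟩
    obtain ⟨n, hn'⟩ := hs (t - (a0 + c0 + e))
    obtain ⟨a, c, hac, h⟩ := hn n
    have h1 := hW (b a) (b c)
    rw [hB, hg] at h1
    have h2 : (a : ZMod d) + c + e = t := by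
      rw [← Nat.cast_add, hac]
      push_cast
      rw [← hn']; ring
    rw [h2] at h1
    exact (W.smul_mem_iff h).1 h1
  exact b.ne_zero 0 (PK.krekY B Y hY hder hL hperf _)

/-- TASK K2 -/
theorem polyLaw {p : ℕ} [Fact p.Prime] (F : Type) [Field F] [Algebra (ZMod p) F]
    (S S' : Submodule (ZMod p) (ℕ → ZMod p)) (sh : Fin p → ℕ → ℕ)
    (h : ∀ y ∈ S, (fun i => ∏ l : Fin p, y (sh l i)) ∈ S')
    (Y : ℕ → F)
    (hY : Y ∈ Submodule.span F
      ((fun (y : ℕ → ZMod p) (i : ℕ) => algebraMap (ZMod p) F (y i)) '' (S : Set _))) :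
    (fun i => ∏ l : Fin p, Y (sh l i)) ∈ Submodule.span F
      ((fun (y : ℕ → ZMod p) (i : ℕ) => algebraMap (ZMod p) F (y i)) '' (S' : Set _)) := by
  classical
  obtain ⟨n, μ, z, hz⟩ := Submodule.mem_span_set'.1 hY
  choose y hyS hy using fun k => (z k).2
  let P : ℕ → MvPolynomial (Fin n) (ZMod p) := fun i =>
    ∏ l : Fin p, ∑ k, MvPolynomial.C (y k (sh l i)) * MvPolynomial.X k
  have hP : ∀ i, (P i).IsHomogeneous p := by
    intro i
    have := MvPolynomial.IsHomogeneous.prod Finset.univ
      (fun l : Fin p => ∑ k, MvPolynomial.C (y k (sh l i)) * (MvPolynomial.X k :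
        MvPolynomial (Fin n) (ZMod p))) (fun _ => 1)
      (fun l _ => MvPolynomial.IsHomogeneous.sum _ _ _ fun k _ =>
        MvPolynomial.isHomogeneous_C_mul_X _ _)
    simpa using this
  let M : Finset (Fin n →₀ ℕ) := Finset.univ.finsuppAntidiag p
  have hM : ∀ m, m ∈ M ↔ m.degree = p := by
    intro m
    simp only [M, Finset.mem_finsuppAntidiag, Finset.subset_univ, and_true, Finsupp.degree_eq_sum]
  have hsupp : ∀ i, (P i).support ⊆ M := by
    intro i m hm
    rw [hM]
    by_contra hne
    exact (MvPolynomial.mem_support_iff.1 hm) ((hP i).coeff_eq_zero hne)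
  have hPs : ∀ i, P i = ∑ m ∈ M, MvPolynomial.monomial m ((P i).coeff m) := by
    intro i
    conv_lhs => rw [(P i).as_sum]
    apply Finset.sum_subset (hsupp i)
    intro m _ hm
    rw [MvPolynomial.notMem_support_iff.1 hm, map_zero]
  have hw : ∀ m ∈ M, (fun i => (P i).coeff m) ∈ S' := by
    intro m0 hm0
    by_contra hnot
    obtain ⟨ℓ, hℓ, hker⟩ := Submodule.exists_le_ker_of_notMem hnot
    let Q : MvPolynomial (Fin n) (ZMod p) :=
      ∑ m ∈ M, MvPolynomial.monomial m (ℓ fun i => (P i).coeff m)
    have hQ : Q.IsHomogeneous p :=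
      MvPolynomial.IsHomogeneous.sum _ _ _ fun m hm =>
        MvPolynomial.isHomogeneous_monomial _ ((hM m).1 hm)
    have hQ0 : Q = 0 := by
      apply hQ.eq_zero_of_forall_eval_eq_zero_of_le_card
      · intro x
        have hx : (∑ k, x k • y k) ∈ S := S.sum_mem fun k _ => S.smul_mem _ (hyS k)
        have h1 := hker (h _ hx)
        rw [LinearMap.mem_ker] at h1
        rw [← h1]
        have h2 : (fun i => ∏ l : Fin p, (∑ k, x k • y k) (sh l i)) =
            ∑ m ∈ M, (m.prod fun k a => x k ^ a) • fun i => (P i).coeff m := by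
          funext i
          have h3 : ∏ l : Fin p, (∑ k, x k • y k) (sh l i) = MvPolynomial.eval x (P i) := by
            simp [P, Finset.sum_apply, mul_comm]
          rw [h3, hPs i, map_sum, Finset.sum_apply]
          apply Finset.sum_congr rfl
          intro m _
          rw [MvPolynomial.eval_monomial, mul_comm]
          rfl
        rw [h2, map_sum]
        simp only [Q, map_sum]
        apply Finset.sum_congr rfl
        intro m _
        rw [MvPolynomial.eval_monomial, map_smul, mul_comm]
        rfl
      · simp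
    apply hℓ
    have h4 := congrArg (MvPolynomial.coeff m0) hQ0
    simp only [Q, MvPolynomial.coeff_sum, MvPolynomial.coeff_monomial,
      MvPolynomial.coeff_zero] at h4
    rwa [Finset.sum_ite_eq', if_pos hm0] at h4
  have hfin : (fun i => ∏ l : Fin p, Y (sh l i)) =
      ∑ m ∈ M, (m.prod fun k a => μ k ^ a) •
        fun i => algebraMap (ZMod p) F ((P i).coeff m) := by
    funext i
    have h3 : ∏ l : Fin p, Y (sh l i) = MvPolynomial.aeval μ (P i) := by
      rw [← hz]
      simp only [P, map_prod, map_sum, map_mul, MvPolynomial.aeval_C, MvPolynomial.aeval_X,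
        Finset.sum_apply, Pi.smul_apply, smul_eq_mul]
      apply Finset.prod_congr rfl
      intro l _
      apply Finset.sum_congr rfl
      intro k _
      rw [← hy k, mul_comm]
    rw [h3, hPs i, map_sum, Finset.sum_apply]
    apply Finset.sum_congr rfl
    intro m _
    rw [MvPolynomial.aeval_monomial, mul_comm]
    rfl
  rw [hfin]
  exact Submodule.sum_mem _ fun m hm =>
    Submodule.smul_mem _ _ (Submodule.subset_span ⟨_, hw m hm, rfl⟩)

end Pool.Agent.H495Z
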