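import Mathlib
import Pool.Agent.H495Z.HP

/-! Groups with a filtration whose tail has factors of order `p`: basic calculus. -/

set_option autoImplicit false

universe u

open scoped commutatorElement

namespace Pool.Agent.H495Z.TC

open HP

variable {G : Type u} [Group G]

structure Tail (p : ℕ) (Γ : ℕ → Subgroup G) (m : ℕ) (v : ℕ → G) (κ : ℕ → G → ZMod p) :
    Prop where
  fil : IsFil Γ
  top : Γ 1 = ⊤
  m_pos : 1 ≤ m
  v_mem : ∀ i, m ≤ i → v i ∈ Γ i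
  κ_v : ∀ i, m ≤ i → κ i (v i) = 1
  κ_mul : ∀ i, m ≤ i → ∀ x ∈ Γ i, ∀ y ∈ Γ i, κ i (x * y) = κ i x + κ i y
  κ_zero : ∀ i, m ≤ i → ∀ x ∈ Γ i, (κ i x = 0 ↔ x ∈ Γ (i + 1))
  step : ∀ i, m ≤ i → ∃ y : G, ⁅y, v i⁆ ∉ Γ (i + 2)
  fin : ∀ i, (Γ i).FiniteIndex

/-- elements acting on the tail with shift at least `σ` -/
def C (Γ : ℕ → Subgroup G) (hΓ : IsFil Γ) (m σ : ℕ) : Subgroup G where
  carrier := {g | ∀ i, m ≤ i → ∀ u ∈ Γ i, ⁅g, u⁆ ∈ Γ (i + σ)}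
  one_mem' := fun i _ u _ => by simp
  mul_mem' := fun {g g'} hg hg' i hi u hu => by
    have : ⁅g * g', u⁆ = g * ⁅g', u⁆ * g⁻¹ * ⁅g, u⁆ := by
      simp only [commutatorElement_def]; group
    rw [this]
    exact (Γ _).mul_mem ((hΓ.normal _).conj_mem _ (hg' i hi u hu) _) (hg i hi u hu)
  inv_mem' := fun {g} hg i hi u hu => by
    have : ⁅g⁻¹, u⁆ = g⁻¹ * ⁅g, u⁆⁻¹ * g⁻¹⁻¹ := by
      simp only [commutatorElement_def]; group
    rw [this]
    exact (hΓ.normal _).conj_mem _ ((Γ _).inv_mem (hg i hi u hu)) _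

variable {p : ℕ} {Γ : ℕ → Subgroup G} {m : ℕ} {v : ℕ → G} {κ : ℕ → G → ZMod p}

lemma mem_C {hΓ : IsFil Γ} {σ : ℕ} {g : G} :
    g ∈ C Γ hΓ m σ ↔ ∀ i, m ≤ i → ∀ u ∈ Γ i, ⁅g, u⁆ ∈ Γ (i + σ) := Iff.rfl

lemma C_normal (hΓ : IsFil Γ) (σ : ℕ) : (C Γ hΓ m σ).Normal := ⟨fun g hg y i hi u hu => by
  have : ⁅y * g * y⁻¹, u⁆ = y * ⁅g, y⁻¹ * u * y⁻¹⁻¹⁆ * y⁻¹ := by
    simp only [commutatorElement_def]; group
  rw [this]
  exact (hΓ.normal _).conj_mem _ (hg i hi _ ((hΓ.normal _).conj_mem _ hu _)) _⟩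

lemma C_anti (hΓ : IsFil Γ) : Antitone (C Γ hΓ m) := fun _ _ h _ hg i hi u hu =>
  hΓ.anti (by omega) (hg i hi u hu)

lemma Γ_le_C (hΓ : IsFil Γ) (σ : ℕ) : Γ σ ≤ C Γ hΓ m σ := fun _ hg i _ _ hu => by
  rw [add_comm]; exact hΓ.comm _ _ _ _ hg hu

/-- matrix entry of the action of `g` from layer `i` to layer `i + σ` -/
def ent (v : ℕ → G) (κ : ℕ → G → ZMod p) (g : G) (σ i : ℕ) : ZMod p := κ (i + σ) ⁅g, v i⁆

namespace Tail

variable (h : Tail p Γ m v κ)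
include h

lemma mono {m' : ℕ} (hm : m ≤ m') : Tail p Γ m' v κ :=
  ⟨h.fil, h.top, h.m_pos.trans hm, fun i hi => h.v_mem i (hm.trans hi),
    fun i hi => h.κ_v i (hm.trans hi), fun i hi => h.κ_mul i (hm.trans hi),
    fun i hi => h.κ_zero i (hm.trans hi), fun i hi => h.step i (hm.trans hi), h.fin⟩

lemma mem_C_one (g : G) : g ∈ C Γ h.fil m 1 := Γ_le_C h.fil 1 (by rw [h.top]; trivial)

lemma comm_mem (g : G) {i : ℕ} {u : G} (hu : u ∈ Γ i) : ⁅g, u⁆ ∈ Γ (i + 1) := by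
  rw [add_comm]; exact h.fil.comm _ _ _ _ (by rw [h.top]; trivial) hu

lemma κ_of_mem {i : ℕ} (hi : m ≤ i) {x : G} (hx : x ∈ Γ (i + 1)) : κ i x = 0 :=
  (h.κ_zero i hi x (h.fil.anti (by omega) hx)).2 hx

lemma κ_one {i : ℕ} (hi : m ≤ i) : κ i 1 = 0 := h.κ_of_mem hi (Γ _).one_mem

lemma κ_inv {i : ℕ} (hi : m ≤ i) {x : G} (hx : x ∈ Γ i) : κ i x⁻¹ = -κ i x := by
  have := h.κ_mul i hi x hx x⁻¹ ((Γ _).inv_mem hx)
  rw [mul_inv_cancel, h.κ_one hi] at this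
  linear_combination -this

lemma κ_pow {i : ℕ} (hi : m ≤ i) {x : G} (hx : x ∈ Γ i) (n : ℕ) :
    κ i (x ^ n) = n * κ i x := by
  induction n with
  | zero => simp [h.κ_one hi]
  | succ n ih => rw [pow_succ, h.κ_mul i hi _ ((Γ _).pow_mem hx n) _ hx, ih]; push_cast; ring

lemma κ_conj {i : ℕ} (hi : m ≤ i) {x : G} (hx : x ∈ Γ i) (y : G) :
    κ i (y * x * y⁻¹) = κ i x := by
  have : y * x * y⁻¹ = ⁅y, x⁆ * x := by simp only [commutatorElement_def]; group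
  rw [this, h.κ_mul i hi _ (h.fil.anti (by omega) (h.comm_mem y hx)) _ hx,
    h.κ_of_mem hi (h.comm_mem y hx), zero_add]

lemma κ_congr {i : ℕ} (hi : m ≤ i) {x y : G} (hy : y ∈ Γ i) (hxy : x * y⁻¹ ∈ Γ (i + 1)) :
    κ i x = κ i y := by
  have : x = x * y⁻¹ * y := by group
  rw [this, h.κ_mul i hi _ (h.fil.anti (by omega) hxy) _ hy, h.κ_of_mem hi hxy, zero_add]

lemma pow_mem_succ {i : ℕ} (hi : m ≤ i) {x : G} (hx : x ∈ Γ i) : x ^ p ∈ Γ (i + 1) := by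
  rw [← h.κ_zero i hi _ ((Γ _).pow_mem hx p), h.κ_pow hi hx]; simp

variable [Fact p.Prime]

lemma decomp {i : ℕ} (hi : m ≤ i) {x w : G} (hx : x ∈ Γ i) (hw : w ∈ Γ i) (hw' : κ i w ≠ 0) :
    ∃ k : ℕ, ∃ z ∈ Γ (i + 1), x = w ^ k * z ∧ (k : ZMod p) * κ i w = κ i x := by
  refine ⟨(κ i x / κ i w).val, (w ^ (κ i x / κ i w).val)⁻¹ * x, ?_, by group, ?_⟩
  · have h1 := (Γ _).pow_mem hw (κ i x / κ i w).val
    rw [← h.κ_zero i hi _ ((Γ _).mul_mem ((Γ _).inv_mem h1) hx),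
      h.κ_mul i hi _ ((Γ _).inv_mem h1) _ hx, h.κ_inv hi h1, h.κ_pow hi hw, ZMod.natCast_zmod_val]
    field_simp; ring
  · rw [ZMod.natCast_zmod_val]; field_simp

lemma decomp_v {i : ℕ} (hi : m ≤ i) {x : G} (hx : x ∈ Γ i) :
    ∃ k : ℕ, ∃ z ∈ Γ (i + 1), x = v i ^ k * z ∧ (k : ZMod p) = κ i x := by
  obtain ⟨k, z, hz, h1, h2⟩ := h.decomp hi hx (h.v_mem i hi) (by rw [h.κ_v i hi]; exact one_ne_zero)
  exact ⟨k, z, hz, h1, by rwa [h.κ_v i hi, mul_one] at h2⟩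

lemma κ_comm_mul {σ i : ℕ} (hi : m ≤ i) {g u u' : G} (hg : g ∈ C Γ h.fil m σ) (hu : u ∈ Γ i)
    (hu' : u' ∈ Γ i) : κ (i + σ) ⁅g, u * u'⁆ = κ (i + σ) ⁅g, u⁆ + κ (i + σ) ⁅g, u'⁆ := by
  have : ⁅g, u * u'⁆ = ⁅g, u⁆ * (u * ⁅g, u'⁆ * u⁻¹) := by
    simp only [commutatorElement_def]; group
  rw [this, h.κ_mul _ (by omega) _ (hg i hi u hu) _
    ((h.fil.normal _).conj_mem _ (hg i hi u' hu') _), h.κ_conj (by omega) (hg i hi u' hu')]

lemma κ_comm {σ i N : ℕ} (hi : m ≤ i) {g u : G} (hg : g ∈ C Γ h.fil m σ) (hu : u ∈ Γ i)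
    (hN : N = i + σ) : κ N ⁅g, u⁆ = κ i u * ent v κ g σ i := by
  subst hN
  obtain ⟨k, z, hz, rfl, hk⟩ := h.decomp_v hi hu
  have hv := h.v_mem i hi
  rw [← hk, h.κ_comm_mul hi hg ((Γ _).pow_mem hv k) (h.fil.anti (by omega) hz)]
  have h1 : κ (i + σ) ⁅g, z⁆ = 0 := h.κ_of_mem (by omega) (by
    have := hg (i + 1) (by omega) z hz
    rwa [show i + 1 + σ = i + σ + 1 by ring] at this)
  rw [h1, add_zero]
  clear hk hu
  induction k with
  | zero => simp [h.κ_one (show m ≤ i + σ by omega)]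
  | succ k ih =>
    rw [pow_succ, h.κ_comm_mul hi hg ((Γ _).pow_mem hv k) hv, ih, ent]; push_cast; ring

lemma ent_mul {σ i : ℕ} (hi : m ≤ i) {g g' : G} (hg : g ∈ C Γ h.fil m σ)
    (hg' : g' ∈ C Γ h.fil m σ) :
    ent v κ (g * g') σ i = ent v κ g σ i + ent v κ g' σ i := by
  have hv := h.v_mem i hi
  have : ⁅g * g', v i⁆ = g * ⁅g', v i⁆ * g⁻¹ * ⁅g, v i⁆ := by
    simp only [commutatorElement_def]; group
  rw [ent, this, h.κ_mul _ (by omega) _ ((h.fil.normal _).conj_mem _ (hg' i hi _ hv) _) _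
    (hg i hi _ hv), h.κ_conj (by omega) (hg' i hi _ hv), add_comm]
  rfl

lemma ent_of_mem {σ i : ℕ} (hi : m ≤ i) {g : G} (hg : g ∈ C Γ h.fil m (σ + 1)) :
    ent v κ g σ i = 0 := h.κ_of_mem (by omega) (hg i hi _ (h.v_mem i hi))

lemma ent_pow {σ i : ℕ} (hi : m ≤ i) {g : G} (hg : g ∈ C Γ h.fil m σ) (n : ℕ) :
    ent v κ (g ^ n) σ i = n * ent v κ g σ i := by
  induction n with
  | zero => simp [ent, h.κ_one (show m ≤ i + σ by omega)]
  | succ n ih => rw [pow_succ, h.ent_mul hi (Subgroup.pow_mem _ hg n) hg, ih]; push_cast; ring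

/-- iterated commutators -/
lemma iter_comm {σ : ℕ} {g : G} (hg : g ∈ C Γ h.fil m σ) : ∀ (k : ℕ) {i : ℕ} {u : G}, m ≤ i →
    u ∈ Γ i → (fun w => ⁅g, w⁆)^[k] u ∈ Γ (i + k * σ) ∧
      κ (i + k * σ) ((fun w => ⁅g, w⁆)^[k] u) =
        κ i u * ∏ l ∈ Finset.range k, ent v κ g σ (i + l * σ)
  | 0, i, u, _, hu => by simpa using hu
  | k + 1, i, u, hi, hu => by
    obtain ⟨h1, h2⟩ := iter_comm hg k hi hu
    rw [Function.iterate_succ_apply', Finset.prod_range_succ]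
    refine ⟨?_, ?_⟩
    · have := hg _ (by omega) _ h1
      rwa [show i + k * σ + σ = i + (k + 1) * σ by ring] at this
    · rw [h.κ_comm (i := i + k * σ) (by omega) hg h1 (by ring), h2, mul_assoc]

/-- A normal subgroup containing a deep term and an element of exact level `a` contains `Γ a`. -/
lemma le_of_exact (N : Subgroup G) [hN : N.Normal] {a b : ℕ} (ha : m ≤ a) (hb : Γ b ≤ N) {x : G}
    (hxN : x ∈ N) (hx : x ∈ Γ a) (hx' : κ a x ≠ 0) : Γ a ≤ N := by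
  have key : ∀ t, ∃ w ∈ N, w ∈ Γ (a + t) ∧ κ (a + t) w ≠ 0 := by
    intro t
    induction t with
    | zero => exact ⟨x, hxN, hx, hx'⟩
    | succ t ih =>
      obtain ⟨w, hwN, hw, hw'⟩ := ih
      obtain ⟨y, hy⟩ := h.step (a + t) (by omega)
      refine ⟨⁅y, w⁆, ?_, h.comm_mem y hw, ?_⟩
      · rw [commutatorElement_def]
        exact N.mul_mem (hN.conj_mem _ hwN _) (N.inv_mem hwN)
      · rw [h.κ_comm (i := a + t) (by omega) (h.mem_C_one y) hw (by ring)]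
        refine mul_ne_zero hw' fun h0 => hy ?_
        exact (h.κ_zero _ (by omega) _ (h.comm_mem y (h.v_mem _ (by omega)))).1 h0
  have key2 : ∀ r t, b ≤ a + t + r → Γ (a + t) ≤ N := by
    intro r
    induction r with
    | zero => intro t ht; exact (h.fil.anti ht).trans hb
    | succ r ih =>
      intro t ht u hu
      obtain ⟨w, hwN, hw, hw'⟩ := key t
      obtain ⟨k, z, hz, rfl, -⟩ := h.decomp (by omega) hu hw hw'
      exact N.mul_mem (N.pow_mem hwN k) (ih (t + 1) (by omega) hz)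
  exact key2 b 0 (by omega)

/-- For large `σ` all elements of shift `σ` have a common zero entry. -/
theorem exists_zero_entry : ∃ σ₀, ∀ σ, σ₀ ≤ σ → ∃ n, m ≤ n ∧
    ∀ g ∈ C Γ h.fil m σ, ent v κ g σ n = 0 := by
  classical
  have := h.fil.normal m
  have := h.fin m
  have : Finite (G ⧸ Γ m) := Subgroup.finite_quotient_of_finiteIndex
  let f : ℕ →o (Subgroup (G ⧸ Γ m))ᵒᵈ :=
    ⟨fun σ => OrderDual.toDual ((C Γ h.fil m σ).map (QuotientGroup.mk' (Γ m))),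
      fun _ _ hab => Subgroup.map_mono (C_anti h.fil hab)⟩
  obtain ⟨σ₀, hσ₀⟩ := WellFoundedGT.monotone_chain_condition f
  refine ⟨σ₀, fun σ hσ => ?_⟩
  have hex : ∃ n, m ≤ n ∧ Γ n ≤ C Γ h.fil m σ :=
    ⟨m + σ, by omega, (h.fil.anti (by omega)).trans (Γ_le_C h.fil σ)⟩
  obtain ⟨hn1, hn2⟩ := Nat.find_spec hex
  set n := Nat.find hex with hn
  refine ⟨n, hn1, fun g hg => ?_⟩
  have hC := C_normal (m := m) h.fil σ
  have hΓn : ∀ x ∈ C Γ h.fil m σ, x ∈ Γ m → x ∈ Γ n := by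
    intro x hx hxm
    have : ∀ t, m + t ≤ n → x ∈ Γ (m + t) := by
      intro t
      induction t with
      | zero => exact fun _ => hxm
      | succ t ih =>
        intro ht
        have h1 := ih (by omega)
        rw [← add_assoc, ← h.κ_zero _ (by omega) _ h1]
        by_contra h2
        exact Nat.find_min hex (show m + t < n by omega)
          ⟨by omega, h.le_of_exact _ (by omega) hn2 hx h1 h2⟩
    have h3 := this (n - m) (by omega)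
    rwa [show m + (n - m) = n by omega] at h3
  have h1 : (C Γ h.fil m σ).map (QuotientGroup.mk' (Γ m)) =
      (C Γ h.fil m (σ + 1)).map (QuotientGroup.mk' (Γ m)) :=
    (hσ₀ σ hσ).symm.trans (hσ₀ (σ + 1) (by omega))
  obtain ⟨g', hg', hgg'⟩ : QuotientGroup.mk' (Γ m) g ∈
      (C Γ h.fil m (σ + 1)).map (QuotientGroup.mk' (Γ m)) := h1 ▸ Subgroup.mem_map_of_mem _ hg
  have hg'' : g' ∈ C Γ h.fil m σ := C_anti h.fil (by omega) hg'
  have h2 : g'⁻¹ * g ∈ Γ m := QuotientGroup.eq.1 hgg'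
  have h3 : g'⁻¹ * g ∈ C Γ h.fil m σ := Subgroup.mul_mem _ (Subgroup.inv_mem _ hg'') hg
  obtain ⟨k, z, hz, hzz, -⟩ := h.decomp_v hn1 (hΓn _ h3 h2)
  have hv : v n ∈ C Γ h.fil m σ := hn2 (h.v_mem n hn1)
  have hz' : z ∈ C Γ h.fil m σ := hn2 (h.fil.anti (by omega) hz)
  have h4 : g = g' * (v n ^ k * z) := by rw [← hzz]; group
  rw [h4, h.ent_mul hn1 hg'' (hzz ▸ h3), h.ent_of_mem hn1 hg', zero_add,
    h.ent_mul hn1 (Subgroup.pow_mem _ hv k) hz', h.ent_pow hn1 hv]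
  have h5 : ent v κ (v n) σ n = 0 := by simp [ent, h.κ_one (show m ≤ n + σ by omega)]
  have h6 : ent v κ z σ n = 0 := by
    refine h.κ_of_mem (by omega) ?_
    rw [← commutatorElement_inv]
    have := hv (n + 1) (by omega) z hz
    rw [show n + 1 + σ = n + σ + 1 by ring] at this
    exact (Γ _).inv_mem this
  rw [h5, h6]; simp

end Tail

end Pool.Agent.H495Z.TC
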