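import Mathlib
import Pool.Agent.H495Z.TailA
import Pool.Agent.H495Z.PartK

/-! Power structure of the tail and virtual commutativity. -/

set_option autoImplicit false

universe u

open scoped commutatorElement

namespace Pool.Agent.H495Z.TC

open HP

variable {G : Type u} [Group G]
variable {p : ℕ} [Fact p.Prime] {Γ : ℕ → Subgroup G} {m : ℕ} {v : ℕ → G} {κ : ℕ → G → ZMod p}

abbrev FF (p : ℕ) [Fact p.Prime] : Type := FractionRing (Polynomial (ZMod p))

instance : CharP (FF p) p :=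
  charP_of_injective_algebraMap (algebraMap (ZMod p) (FF p)).injective p

lemma exists_indep (p : ℕ) [Fact p.Prime] :
    ∃ μ : ℕ → FF p, LinearIndependent (ZMod p) μ := by
  refine ⟨_, (Polynomial.basisMonomials (ZMod p)).linearIndependent.map'
    (IsScalarTower.toAlgHom (ZMod p) (Polynomial (ZMod p)) (FF p)).toLinearMap ?_⟩
  rw [LinearMap.ker_eq_bot]
  exact IsFractionRing.injective (Polynomial (ZMod p)) (FF p)

namespace Tail

variable (h : Tail p Γ m v κ)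

/-- entry sequences of the elements of shift `σ` -/
def S (σ : ℕ) : Submodule (ZMod p) (ℕ → ZMod p) where
  carrier := {y | ∃ g ∈ C Γ h.fil m σ, y = fun i => ent v κ g σ (m + i)}
  zero_mem' := ⟨1, Subgroup.one_mem _, by
    funext i; simp [ent, h.κ_one (show m ≤ m + i + σ by omega)]⟩
  add_mem' := by
    rintro _ _ ⟨g, hg, rfl⟩ ⟨g', hg', rfl⟩
    exact ⟨g * g', Subgroup.mul_mem _ hg hg', by
      funext i; rw [h.ent_mul (by omega) hg hg']; rfl⟩
  smul_mem' := by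
    rintro c _ ⟨g, hg, rfl⟩
    exact ⟨g ^ c.val, Subgroup.pow_mem _ hg _, by
      funext i; rw [h.ent_pow (by omega) hg, ZMod.natCast_zmod_val]; rfl⟩

noncomputable def A (σ : ℕ) : Submodule (FF p) (ℕ → FF p) :=
  Submodule.span (FF p)
    ((fun (y : ℕ → ZMod p) (i : ℕ) => algebraMap (ZMod p) (FF p) (y i)) '' (h.S σ : Set _))

lemma A_induction {σ : ℕ} (W : Submodule (FF p) (ℕ → FF p))
    (hW : ∀ g ∈ C Γ h.fil m σ, (fun i => algebraMap (ZMod p) (FF p) (ent v κ g σ (m + i))) ∈ W) :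
    h.A σ ≤ W := by
  refine Submodule.span_le.2 ?_
  rintro _ ⟨_, ⟨g, hg, rfl⟩, rfl⟩
  exact hW g hg

lemma mem_A {σ : ℕ} {g : G} (hg : g ∈ C Γ h.fil m σ) :
    (fun i => algebraMap (ZMod p) (FF p) (ent v κ g σ (m + i))) ∈ h.A σ :=
  Submodule.subset_span ⟨_, ⟨g, hg, rfl⟩, rfl⟩

def Good (σ : ℕ) : Prop := ∃ Y ∈ h.A σ, ∀ i, Y i ≠ 0

theorem not_good : ∃ σ₀, ∀ σ, σ₀ ≤ σ → ¬ h.Good σ := by
  obtain ⟨σ₀, hσ₀⟩ := h.exists_zero_entry
  refine ⟨σ₀, fun σ hσ ⟨Y, hY, hY'⟩ => ?_⟩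
  obtain ⟨n, hn, hz⟩ := hσ₀ σ hσ
  have := h.A_induction (σ := σ) (LinearMap.ker (LinearMap.proj (n - m))) (fun g hg => by
    simp [show m + (n - m) = n by omega, hz g hg]) hY
  exact hY' _ this

theorem good_one : h.Good 1 := by
  classical
  have := h.fil.normal 2
  have := h.fin 2
  have : Finite (G ⧸ Γ 2) := Subgroup.finite_quotient_of_finiteIndex
  obtain ⟨N, ⟨e⟩⟩ := Finite.exists_equiv_fin (G ⧸ Γ 2)
  obtain ⟨μ, hμ⟩ := exists_indep p
  have hμ' : LinearIndependent (ZMod p) (fun j : Fin N => μ j) :=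
    hμ.comp _ Fin.val_injective
  refine ⟨∑ j : Fin N, μ j • fun i => algebraMap (ZMod p) (FF p)
    (ent v κ (e.symm j).out 1 (m + i)), Submodule.sum_mem _ fun j _ =>
      Submodule.smul_mem _ _ (h.mem_A (h.mem_C_one _)), fun i hi => ?_⟩
  have h1 := Fintype.linearIndependent_iff.1 hμ' (fun j => ent v κ (e.symm j).out 1 (m + i)) (by
    rw [← hi, Finset.sum_apply]
    refine Finset.sum_congr rfl fun j _ => ?_
    rw [Algebra.smul_def, Pi.smul_apply, smul_eq_mul, mul_comm])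
  obtain ⟨y, hy⟩ := h.step (m + i) (by omega)
  have h2 := h1 (e (y : G ⧸ Γ 2))
  rw [Equiv.symm_apply_apply] at h2
  obtain ⟨z, hz⟩ := QuotientGroup.mk_out_eq_mul (Γ 2) y
  rw [hz, h.ent_mul (by omega) (h.mem_C_one _) (h.mem_C_one _),
    h.ent_of_mem (σ := 1) (by omega) (Γ_le_C h.fil 2 z.2), add_zero] at h2
  exact hy ((h.κ_zero _ (by omega) _ (h.comm_mem y (h.v_mem _ (by omega)))).1 h2)

theorem good_pow {σ : ℕ} (hw : ∀ i, m ≤ i → ∀ c ∈ Γ (i + σ), c ^ p ∈ Γ (i + p * σ + 1))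
    (hg : h.Good σ) : h.Good (p * σ) := by
  obtain ⟨Y, hY, hY'⟩ := hg
  have hp : p.Prime := Fact.out
  refine ⟨_, polyLaw (FF p) (h.S σ) (h.S (p * σ)) (fun l i => i + l * σ) ?_ Y hY,
    fun i => Finset.prod_ne_zero_iff.2 fun l _ => hY' _⟩
  rintro _ ⟨g, hg, rfl⟩
  have key : ∀ i, m ≤ i → ∀ u ∈ Γ i, ⁅g ^ p, u⁆ ∈ Γ (i + p * σ) ∧
      κ (i + p * σ) ⁅g ^ p, u⁆ = κ i u * ∏ l ∈ Finset.range p, ent v κ g σ (i + l * σ) := by
    intro i hi u hu
    obtain ⟨c, hc, h1, h2⟩ := pow_comm_mem h.fil hp hg hi (h.m_pos.trans hi) hu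
      (Γ (i + p * σ + 1)) (fun c hc => hw i hi c (h.fil.anti (by omega) hc))
    have h3 : c⁻¹ * ⁅g ^ p, u⁆ ∈ Γ (i + p * σ + 1) := by
      have := (Γ _).mul_mem h2 (hw i hi _ (hg i hi u hu))
      rwa [inv_mul_cancel_right] at this
    have h4 : ⁅g ^ p, u⁆ = c * (c⁻¹ * ⁅g ^ p, u⁆) := by group
    obtain ⟨h5, h6⟩ := h.iter_comm hg p hi hu
    refine ⟨?_, ?_⟩
    · rw [h4]; exact (Γ _).mul_mem hc (h.fil.anti (by omega) h3)
    · rw [h4, h.κ_mul _ (by omega) _ hc _ (h.fil.anti (by omega) h3),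
        h.κ_of_mem (by omega) h3, add_zero, h.κ_congr (by omega) h5 h1, h6]
  refine ⟨g ^ p, fun i hi u hu => (key i hi u hu).1, ?_⟩
  funext i
  rw [ent, (key (m + i) (by omega) _ (h.v_mem _ (by omega))).2, h.κ_v _ (by omega), one_mul,
    ← Fin.prod_univ_eq_prod_range (fun l => ent v κ g σ (m + i + l * σ)) p]
  simp only [add_assoc]

include h in
/-- the power structure of the tail -/
theorem power_structure : ∃ m' d, m ≤ m' ∧ 1 ≤ d ∧ m' + d + 1 ≤ p * m' ∧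
    (∀ a, m' ≤ a → ∀ x ∈ Γ a, x ^ p ∈ Γ (a + d)) ∧
    (∀ a, m' ≤ a → ∃ x ∈ Γ a, x ^ p ∉ Γ (a + d + 1)) := by
  classical
  have hp : p.Prime := Fact.out
  obtain ⟨q, hq⟩ : ∃ q, p = q + 1 := ⟨p - 1, by have := hp.pos; omega⟩
  have hq1 : 1 ≤ q := by have := hp.two_le; omega
  have hI : ∃ r, ∃ x ∈ Γ (m + r), x ^ p ∉ Γ (m + p * r + 1) := by
    by_contra hc
    push Not at hc
    obtain ⟨σ₀, hσ₀⟩ := h.not_good
    have hall : ∀ j, h.Good (p ^ j) := by
      intro j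
      induction j with
      | zero => simpa using h.good_one
      | succ j ih =>
        rw [pow_succ']
        refine h.good_pow (fun i hi c hc' => ?_) ih
        obtain ⟨t, rfl⟩ := Nat.exists_eq_add_of_le hi
        refine h.fil.anti ?_ (hc (t + p ^ j) c (by rwa [← add_assoc]))
        have : t ≤ p * t := Nat.le_mul_of_pos_left _ hp.pos
        rw [mul_add]; omega
    exact hσ₀ _ (Nat.lt_pow_self hp.one_lt).le (hall σ₀)
  obtain ⟨r, x₀, hx₀, hx₀'⟩ := hI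
  have hex : ∃ δ, ∃ a, m + r ≤ a ∧ ∃ x ∈ Γ a, x ^ p ∉ Γ (a + δ + 1) :=
    ⟨q * r, m + r, le_rfl, x₀, hx₀, by
      rwa [show m + r + q * r + 1 = m + p * r + 1 by rw [hq]; ring]⟩
  have hdle : Nat.find hex ≤ q * r := Nat.find_min' hex ⟨m + r, le_rfl, x₀, hx₀, by
      rwa [show m + r + q * r + 1 = m + p * r + 1 by rw [hq]; ring]⟩
  obtain ⟨a, ha, x, hx, hx'⟩ := Nat.find_spec hex
  set d := Nat.find hex with hd
  have hd1 : 1 ≤ d := by
    by_contra h0
    have : d = 0 := by omega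
    rw [this] at hx'
    exact hx' (h.pow_mem_succ (by omega) hx)
  have hU : ∀ b, m + r ≤ b → ∀ y ∈ Γ b, y ^ p ∈ Γ (b + d) := by
    intro b hb y hy
    by_contra hc
    exact Nat.find_min hex (show d - 1 < d by omega) ⟨b, hb, y, hy, by
      rwa [show b + (d - 1) + 1 = b + d by omega]⟩
  have hm := h.m_pos
  have hnum : ∀ b, m + r ≤ b → b + d + 1 ≤ p * b := by
    intro b hb
    have : q * (m + r) ≤ q * b := Nat.mul_le_mul_left _ hb
    have : q ≤ q * m := Nat.le_mul_of_pos_right _ hm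
    rw [hq]; nlinarith
  refine ⟨a, d, by omega, hd1, hnum a ha, fun b hb => hU b (by omega), fun b hb => ?_⟩
  induction b, hb using Nat.le_induction with
  | base => exact ⟨x, hx, hx'⟩
  | succ b hb ih =>
    obtain ⟨w, hw, hw'⟩ := ih
    obtain ⟨y, hy⟩ := h.step (b + d) (by omega)
    have hz : w⁻¹ * ⁅y, w⁆ * w⁻¹⁻¹ ∈ Γ (b + 1) :=
      (h.fil.normal _).conj_mem _ (h.comm_mem y hw) _
    refine ⟨_, hz, fun hc => ?_⟩
    have h1 := mul_pow_mem h.fil hp (μ := b) (β := 1) hw (by rwa [add_comm] at hz)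
      (Γ (b + 1 + d + 1)) (fun c hc => h.fil.anti (by omega) (hU _ (by omega) c hc))
      (h.fil.anti (by have := hnum b (by omega); omega))
    have h2 := (Γ _).mul_mem h1 hc
    rw [inv_mul_cancel_right] at h2
    have h3 := (h.fil.normal _).conj_mem _ h2 (w ^ p)
    have h4 : w ^ p * ((w ^ p)⁻¹ * (w * (w⁻¹ * ⁅y, w⁆ * w⁻¹⁻¹)) ^ p) * (w ^ p)⁻¹ =
        ⁅y, w ^ p⁆ := by
      have : w * (w⁻¹ * ⁅y, w⁆ * w⁻¹⁻¹) = y * w * y⁻¹ := by
        simp only [commutatorElement_def]; group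
      rw [this, conj_pow, commutatorElement_def]; group
    rw [h4] at h3
    have hwp := hU b (by omega) w hw
    have h5 := h.κ_comm (i := b + d) (by omega) (h.mem_C_one y) hwp rfl
    rw [h.κ_of_mem (by omega) (by rwa [show b + 1 + d + 1 = b + d + 1 + 1 by ring] at h3)] at h5
    rcases mul_eq_zero.1 h5.symm with h6 | h6
    · exact hw' ((h.κ_zero _ (by omega) _ hwp).1 h6)
    · exact hy ((h.κ_zero _ (by omega) _ (h.comm_mem y (h.v_mem _ (by omega)))).1 h6)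

end Tail

end Pool.Agent.H495Z.TC
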