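import Mathlib
import Pool.Agent.H495Z.TailB

/-! The periodic case: the tail is commutative. -/

set_option autoImplicit false

universe u

open scoped commutatorElement

namespace Pool.Agent.H495Z.TC

open HP

variable {G : Type u} [Group G]
variable {p : ℕ} [Fact p.Prime] {Γ : ℕ → Subgroup G} {m : ℕ} {v : ℕ → G} {κ : ℕ → G → ZMod p}

structure Per (p : ℕ) (Γ : ℕ → Subgroup G) (m : ℕ) (v : ℕ → G) (κ : ℕ → G → ZMod p) (d : ℕ) :
    Prop extends Tail p Γ m v κ where
  d_pos : 1 ≤ d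
  num : ∀ b, m ≤ b → b + d + 1 ≤ p * b
  up : ∀ a, m ≤ a → ∀ x ∈ Γ a, x ^ p ∈ Γ (a + d)
  exact : ∀ a, m ≤ a → ∃ x ∈ Γ a, x ^ p ∉ Γ (a + d + 1)

def tau (p : ℕ) (v : ℕ → G) (κ : ℕ → G → ZMod p) (d a : ℕ) : ZMod p := κ (a + d) (v a ^ p)

theorem Tail.exists_per (h : Tail p Γ m v κ) : ∃ m' d, m ≤ m' ∧ Per p Γ m' v κ d := by
  obtain ⟨m', d, h1, h2, h3, h4, h5⟩ := h.power_structure
  refine ⟨m', d, h1, h.mono h1, h2, fun b hb => ?_, h4, h5⟩
  obtain ⟨t, rfl⟩ := Nat.exists_eq_add_of_le hb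
  have : t ≤ p * t := Nat.le_mul_of_pos_left _ (Fact.out : p.Prime).pos
  rw [mul_add]; omega

namespace Per

variable {d : ℕ} (h : Per p Γ m v κ d)
include h

lemma κ_ppow {a N : ℕ} (ha : m ≤ a) {u : G} (hu : u ∈ Γ a) (hN : N = a + d) :
    κ N (u ^ p) = κ a u * tau p v κ d a := by
  subst hN
  have hp : p.Prime := Fact.out
  have hm := h.m_pos
  obtain ⟨k, z, hz, rfl, hk⟩ := h.decomp_v ha hu
  have hv := h.v_mem a ha
  have h1 := mul_pow_mem h.fil hp (μ := a) (β := 1) ((Γ _).pow_mem hv k) (by rwa [add_comm] at hz)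
    (Γ (a + d + 1)) (fun c hc => h.fil.anti (by omega) (h.up _ (by omega) c hc))
    (h.fil.anti (by have := h.num a ha; omega))
  have h2 := (Γ _).mul_mem h1 (h.fil.anti (by omega) (h.up (a + 1) (by omega) z hz))
  rw [inv_mul_cancel_right] at h2
  have h3 : (v a ^ k * z) ^ p = (v a ^ p) ^ k * (((v a ^ k) ^ p)⁻¹ * (v a ^ k * z) ^ p) := by
    rw [← pow_mul, ← pow_mul, mul_comm k p]; group
  have hvp := h.up a ha _ hv
  rw [← hk, h3, h.κ_mul _ (by omega) _ ((Γ _).pow_mem hvp k) _ (h.fil.anti (by omega) h2),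
    h.κ_of_mem (by omega) h2, add_zero, h.κ_pow (by omega) hvp, tau]

lemma tau_ne {a : ℕ} (ha : m ≤ a) : tau p v κ d a ≠ 0 := by
  intro h0
  obtain ⟨x, hx, hx'⟩ := h.exact a ha
  apply hx'
  rw [← h.κ_zero _ (by omega) _ (h.up a ha x hx), h.κ_ppow ha hx rfl, h0, mul_zero]

lemma ent_per {σ i : ℕ} (hi : m ≤ i) {g : G} (hg : g ∈ C Γ h.fil m σ) :
    ent v κ g σ (i + d) * tau p v κ d i = tau p v κ d (i + σ) * ent v κ g σ i := by
  have hp : p.Prime := Fact.out
  have hm := h.m_pos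
  have hv := h.v_mem i hi
  have hvp := h.up i hi _ hv
  have hz : (v i)⁻¹ * ⁅g, v i⁆ * (v i)⁻¹⁻¹ ∈ Γ (i + σ) :=
    (h.fil.normal _).conj_mem _ (hg i hi _ hv) _
  have hzp := h.up _ (by omega) _ hz
  have h1 := mul_pow_mem h.fil hp (μ := i) (β := σ) hv (by rwa [add_comm] at hz)
    (Γ (i + σ + d + 1)) (fun c hc => h.fil.anti (by omega) (h.up _ (by omega) c hc))
    (h.fil.anti (by have := h.num i hi; omega))
  have h2 := h.κ_congr (by omega) hzp h1
  have h3 : (v i ^ p)⁻¹ * (v i * ((v i)⁻¹ * ⁅g, v i⁆ * (v i)⁻¹⁻¹)) ^ p =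
      (v i ^ p)⁻¹ * ⁅g, v i ^ p⁆ * (v i ^ p)⁻¹⁻¹ := by
    have : v i * ((v i)⁻¹ * ⁅g, v i⁆ * (v i)⁻¹⁻¹) = g * v i * g⁻¹ := by
      simp only [commutatorElement_def]; group
    rw [this, conj_pow, commutatorElement_def]; group
  have h4 : ⁅g, v i ^ p⁆ ∈ Γ (i + σ + d) := by
    have := hg _ (by omega) _ hvp
    rwa [show i + d + σ = i + σ + d by ring] at this
  rw [h3, h.κ_conj (by omega) h4, h.κ_comm (i := i + d) (by omega) hg hvp (by ring),
    h.κ_ppow (a := i + σ) (by omega) hz rfl, h.κ_conj (by omega) (hg i hi _ hv)] at h2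
  rw [mul_comm, mul_comm (tau p v κ d (i + σ))]
  exact h2

theorem good_add {σ : ℕ} (hσ : σ + d + 1 ≤ p * σ) (hg : h.toTail.Good σ) :
    h.toTail.Good (σ + d) := by
  have hp : p.Prime := Fact.out
  have hm := h.m_pos
  have hσ1 : 1 ≤ σ := by
    rcases Nat.eq_zero_or_pos σ with rfl | h0
    · simp at hσ
    · exact h0
  obtain ⟨Y, hY, hY'⟩ := hg
  let T : ℕ → FF p := fun i => algebraMap (ZMod p) (FF p) (tau p v κ d (m + i + σ))
  have hT : ∀ i, T i ≠ 0 := fun i => by
    simpa [T] using h.tau_ne (a := m + i + σ) (by omega)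
  refine ⟨T * Y, ?_, fun i => mul_ne_zero (hT i) (hY' i)⟩
  refine h.toTail.A_induction (σ := σ)
    ((h.toTail.A (σ + d)).comap (LinearMap.mulLeft (FF p) T)) (fun g hg => ?_) hY
  have key : ∀ i, m ≤ i → ∀ u ∈ Γ i, ⁅g ^ p, u⁆ * (⁅g, u⁆ ^ p)⁻¹ ∈ Γ (i + σ + d + 1) := by
    intro i hi u hu
    obtain ⟨c, hc, -, h2⟩ := pow_comm_mem h.fil hp hg hi (hm.trans hi) hu
      (Γ (i + σ + d + 1)) (fun c hc => h.fil.anti (by omega) (h.up _ (by omega) c hc))
    have := (Γ _).mul_mem (h.fil.anti (show i + σ + d + 1 ≤ i + p * σ by omega) hc) h2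
    rwa [← mul_assoc, mul_inv_cancel_left] at this
  have hgp : g ^ p ∈ C Γ h.fil m (σ + d) := by
    intro i hi u hu
    have := (Γ _).mul_mem (h.fil.anti (Nat.le_succ _) (key i hi u hu))
      (h.up _ (by omega) _ (hg i hi u hu))
    rwa [inv_mul_cancel_right, add_assoc] at this
  have := h.toTail.mem_A hgp
  rw [Submodule.mem_comap]
  convert this using 1
  funext i
  have hv := h.v_mem (m + i) (by omega)
  have h1 := h.κ_congr (by omega) (h.up _ (by omega) _ (hg _ (by omega) _ hv))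
    (key (m + i) (by omega) _ hv)
  rw [h.κ_ppow (a := m + i + σ) (by omega) (hg _ (by omega) _ hv) rfl] at h1
  simp only [LinearMap.mulLeft_apply, Pi.mul_apply, T, ← map_mul]
  rw [ent, ent, ← add_assoc, h1, mul_comm]

theorem d_eq : ∃ j, d = (p - 1) * p ^ j := by
  classical
  have hp : p.Prime := Fact.out
  have hp2 := hp.two_le
  have hex : ∃ j, p ^ j + d ≤ p * p ^ j := ⟨d, by
    have := (Nat.lt_pow_self hp.one_lt (n := d)).le
    nlinarith⟩
  have hj := Nat.find_spec hex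
  set j := Nat.find hex with hjdef
  have hgood : ∀ l ≤ j, h.toTail.Good (p ^ l) := by
    intro l
    induction l with
    | zero => intro _; simpa using h.toTail.good_one
    | succ l ih =>
      intro hl
      rw [pow_succ']
      refine h.toTail.good_pow (fun i hi c hc => ?_) (ih (by omega))
      have := Nat.find_min hex (show l < j by omega)
      exact h.fil.anti (by omega) (h.up _ (by omega) c hc)
  refine ⟨j, ?_⟩
  by_contra hne
  have hlt : p ^ j + d + 1 ≤ p * p ^ j := by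
    rcases Nat.lt_or_eq_of_le hj with h1 | h1
    · exact h1
    · exfalso
      apply hne
      rw [Nat.sub_mul, ← h1]; omega
  have hall : ∀ r, h.toTail.Good (p ^ j + r * d) := by
    intro r
    induction r with
    | zero => simpa using hgood j le_rfl
    | succ r ih =>
      rw [add_mul, one_mul, ← add_assoc]
      refine h.good_add ?_ ih
      have : r * d ≤ p * (r * d) := Nat.le_mul_of_pos_left _ hp.pos
      rw [mul_add]; omega
  obtain ⟨σ₀, hσ₀⟩ := h.toTail.not_good
  refine hσ₀ _ ?_ (hall σ₀)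
  have : σ₀ ≤ σ₀ * d := Nat.le_mul_of_pos_right _ h.d_pos
  omega

section bracket

variable {e : ℕ} (hE : ∀ i j, m ≤ i → m ≤ j → ∀ x ∈ Γ i, ∀ y ∈ Γ j, ⁅x, y⁆ ∈ Γ (i + j + e))
include hE

omit [Fact p.Prime] in
lemma mem_C_of {a : ℕ} (ha : m ≤ a) {x : G} (hx : x ∈ Γ a) : x ∈ C Γ h.fil m (a + e) := by
  intro i hi u hu
  have := hE a i ha hi x hx u hu
  rwa [show a + i + e = i + (a + e) by ring] at this

lemma ent_swap {a c : ℕ} (ha : m ≤ a) (hc : m ≤ c) {x : G} (hx : x ∈ Γ a) :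
    ent v κ x (a + e) c = -(κ a x * ent v κ (v c) (c + e) a) := by
  have hv := h.v_mem c hc
  rw [ent, ← commutatorElement_inv, h.κ_inv (by omega) (by
    have := hE c a hc ha _ hv x hx
    rwa [show c + a + e = c + (a + e) by ring] at this),
    h.κ_comm ha (h.mem_C_of hE hc hv) hx (by ring)]

lemma b_swap {a c : ℕ} (ha : m ≤ a) (hc : m ≤ c) :
    ent v κ (v a) (a + e) c = -ent v κ (v c) (c + e) a := by
  rw [h.ent_swap hE ha hc (h.v_mem a ha), h.κ_v a ha, one_mul]

lemma κ_bil {a c N : ℕ} (ha : m ≤ a) (hc : m ≤ c) {x y : G} (hx : x ∈ Γ a) (hy : y ∈ Γ c)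
    (hN : N = a + c + e) : κ N ⁅x, y⁆ = κ a x * κ c y * ent v κ (v a) (a + e) c := by
  rw [h.κ_comm hc (h.mem_C_of hE ha hx) hy (by omega), h.ent_swap hE ha hc hx,
    h.b_swap hE ha hc]
  ring

lemma deriv {a c σ : ℕ} (ha : m ≤ a) (hc : m ≤ c) (hσ : 1 ≤ σ) {g : G}
    (hg : g ∈ C Γ h.fil m σ) :
    ent v κ (v a) (a + e) c * ent v κ g σ (a + c + e) =
      ent v κ g σ a * ent v κ (v (a + σ)) (a + σ + e) c +
      ent v κ g σ c * ent v κ (v a) (a + e) (c + σ) := by
  have hm := h.m_pos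
  have hx := h.v_mem a ha
  have hy := h.v_mem c hc
  set x := v a with hxdef
  set y := v c with hydef
  have hx' := hg a ha x hx
  have hy' := hg c hc y hy
  have hw : ⁅g, y⁆ * y ∈ Γ c := (Γ _).mul_mem (h.fil.anti (by omega) hy') hy
  have hxy := hE a c ha hc x hx y hy
  have h0 : ⁅g, ⁅x, y⁆⁆ = ⁅⁅g, x⁆ * x, ⁅g, y⁆ * y⁆ * ⁅x, y⁆⁻¹ := by
    simp only [commutatorElement_def]; group
  set L := a + c + e + σ with hL
  have t1 : ⁅⁅g, x⁆, ⁅x, ⁅g, y⁆ * y⁆⁆ ∈ Γ (L + 1) :=
    h.fil.anti (by omega) (h.fil.comm _ _ _ _ hx' (hE a c ha hc x hx _ hw))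
  have t2 : ⁅x, ⁅g, y⁆⁆ ∈ Γ L := h.fil.anti (by omega) (hE a (c + σ) ha (by omega) x hx _ hy')
  have t3 : ⁅⁅g, y⁆, ⁅x, y⁆⁆ ∈ Γ (L + 1) := h.fil.anti (by omega) (h.fil.comm _ _ _ _ hy' hxy)
  have t5 : ⁅⁅g, x⁆, ⁅g, y⁆ * y⁆ ∈ Γ L :=
    h.fil.anti (by omega) (hE (a + σ) c (by omega) hc _ hx' _ hw)
  have t4 : ⁅⁅x, y⁆, ⁅⁅g, x⁆, ⁅g, y⁆ * y⁆⁆ ∈ Γ (L + 1) :=
    h.fil.anti (by omega) (h.fil.comm _ _ _ _ hxy t5)
  have hLm : m ≤ L := by omega
  have le := h.fil.anti (Nat.le_succ L)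
  have h1 := h.κ_comm (i := a + c + e) (by omega) hg hxy hL
  rw [h0, comm_expand, h.κ_mul L hLm _ ((Γ _).mul_mem (le t1) ((Γ _).mul_mem t2 (le t3))) _
      ((Γ _).mul_mem (le t4) t5), h.κ_mul L hLm _ (le t1) _ ((Γ _).mul_mem t2 (le t3)),
    h.κ_mul L hLm _ t2 _ (le t3), h.κ_mul L hLm _ (le t4) _ t5, h.κ_of_mem hLm t1,
    h.κ_of_mem hLm t3, h.κ_of_mem hLm t4,
    h.κ_bil hE ha (c := c + σ) (by omega) hx hy' (by omega),
    h.κ_bil hE (a := a + σ) (by omega) hc hx' hw (by omega),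
    h.κ_bil hE ha hc hx hy rfl, h.κ_mul c hc _ (h.fil.anti (by omega) hy') _ hy,
    h.κ_of_mem hc (h.fil.anti (by omega) hy'), hxdef, hydef, h.κ_v a ha, h.κ_v c hc] at h1
  simp only [ent] at h1 ⊢
  linear_combination -h1

theorem b_zero {a c : ℕ} (ha : m ≤ a) (hc : m ≤ c) : ent v κ (v a) (a + e) c = 0 := by
  obtain ⟨j, hj⟩ := h.d_eq
  obtain ⟨X, hX, hX'⟩ := h.toTail.good_one
  have hm := h.m_pos
  let ι := algebraMap (ZMod p) (FF p)
  let B : ℕ → ℕ → FF p := fun a c => ι (ent v κ (v (m + a)) (m + a + e) (m + c))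
  let T : ℕ → FF p := fun i => ι (tau p v κ d (m + i))
  have hT : ∀ i, T i ≠ 0 := fun i => by
    simpa [T, ι] using h.tau_ne (a := m + i) (by omega)
  have hX1 : ∀ a c, B a c * X (a + c + (m + e)) = X a * B (a + 1) c + X c * B a (c + 1) := by
    intro a c
    have := h.toTail.A_induction (σ := 1) (LinearMap.ker
      (B a c • LinearMap.proj (a + c + (m + e)) - B (a + 1) c • LinearMap.proj a -
        B a (c + 1) • LinearMap.proj c : (ℕ → FF p) →ₗ[FF p] FF p)) (fun g hg => by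
      have h1 := congrArg ι (h.deriv hE (a := m + a) (c := m + c) (by omega) (by omega) le_rfl hg)
      simp only [map_add, map_mul] at h1
      simp only [LinearMap.mem_ker, LinearMap.sub_apply, LinearMap.smul_apply,
        LinearMap.proj_apply, smul_eq_mul, B]
      rw [show m + (a + c + (m + e)) = m + a + (m + c) + e by ring, ← add_assoc m a 1,
        ← add_assoc m c 1]
      linear_combination h1) hX
    simp only [LinearMap.mem_ker, LinearMap.sub_apply, LinearMap.smul_apply,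
      LinearMap.proj_apply, smul_eq_mul] at this
    linear_combination this
  have hX2 : ∀ i, X (i + d) * T i = T (i + 1) * X i := by
    intro i
    have := h.toTail.A_induction (σ := 1) (LinearMap.ker
      (T i • LinearMap.proj (i + d) - T (i + 1) • LinearMap.proj i :
        (ℕ → FF p) →ₗ[FF p] FF p)) (fun g hg => by
      have h1 := congrArg ι (h.ent_per (i := m + i) (by omega) hg)
      simp only [map_mul] at h1
      simp only [LinearMap.mem_ker, LinearMap.sub_apply, LinearMap.smul_apply,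
        LinearMap.proj_apply, smul_eq_mul, T]
      rw [← add_assoc m i d, ← add_assoc m i 1]
      linear_combination h1) hX
    simp only [LinearMap.mem_ker, LinearMap.sub_apply, LinearMap.smul_apply,
      LinearMap.proj_apply, smul_eq_mul] at this
    linear_combination this
  have hBs : ∀ a c, B a c = -B c a := fun a c => by
    simp only [B]
    rw [h.b_swap hE (by omega) (by omega), map_neg]
  have hB2 : ∀ a c, B a (c + d) * T c = T (a + c + (m + e)) * B a c := fun a c => by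
    have h1 := congrArg ι (h.ent_per (i := m + c) (by omega)
      (h.mem_C_of hE (a := m + a) (by omega) (h.v_mem _ (by omega))))
    simp only [map_mul] at h1
    simp only [B, T]
    rw [← add_assoc m c d, show m + (a + c + (m + e)) = m + c + (m + a + e) by ring]
    exact h1
  have hJ : ∀ k a c, B a c * B k (a + c + (m + e)) =
      B k a * B (k + a + (m + e)) c + B k c * B a (k + c + (m + e)) := fun k a c => by
    have h1 := congrArg ι (h.deriv hE (a := m + a) (c := m + c) (σ := m + k + e) (by omega)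
      (by omega) (by omega) (h.mem_C_of hE (a := m + k) (by omega) (h.v_mem _ (by omega))))
    simp only [map_add, map_mul] at h1
    simp only [B]
    rw [show m + (a + c + (m + e)) = m + a + (m + c) + e by ring,
      show m + (k + a + (m + e)) = m + a + (m + k + e) by ring,
      show m + (k + c + (m + e)) = m + c + (m + k + e) by ring]
    exact h1
  let ξ : ℕ → FF p := fun i => ∏ l ∈ Finset.range i, X l
  have hξ : ∀ i, ξ i ≠ 0 := fun i => Finset.prod_ne_zero_iff.2 fun l _ => hX' l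
  have hξs : ∀ i, ξ (i + 1) = ξ i * X i := fun i => Finset.prod_range_succ _ _
  have hθ : ∀ i, ξ (i + d) = T i * ξ i * (ξ d / T 0) := by
    intro i
    induction i with
    | zero => have := hT 0; simp only [zero_add, ξ, Finset.range_zero, Finset.prod_empty]; field_simp
    | succ i ih =>
      rw [show i + 1 + d = i + d + 1 by ring, hξs, hξs, ih]
      linear_combination (ξ i * (ξ d / T 0)) * hX2 i
  let f : ℕ → ℕ → FF p := fun a c => B a c * ξ a * ξ c / ξ (a + c + (m + e))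
  have hf2 : ∀ a c, f a (c + d) = f a c := fun a c => by
    simp only [f]
    rw [show a + (c + d) + (m + e) = a + c + (m + e) + d by ring, hθ, hθ]
    have := hT 0
    have := hT c
    have := hT (a + c + (m + e))
    have := hξ d
    have := hξ (a + c + (m + e))
    field_simp
    linear_combination (ξ a * ξ c) * hB2 a c
  have hfs : ∀ a c, f a c = -f c a := fun a c => by
    simp only [f]
    rw [hBs a c, add_comm c a]; ring
  have hf := lemmaK (FF p) j (m + e) f (fun a c => by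
      simp only [f]
      rw [show a + 1 + c + (m + e) = a + c + (m + e) + 1 by ring,
        show a + (c + 1) + (m + e) = a + c + (m + e) + 1 by ring, hξs, hξs, hξs]
      have := hX' (a + c + (m + e))
      have := hξ (a + c + (m + e))
      field_simp
      linear_combination (ξ a * ξ c) * hX1 a c)
    (fun a c => by rw [← hj, hfs, hf2, ← hfs]) (fun a c => by rw [← hj, hf2])
    (fun k a c => by
      simp only [f]
      rw [show k + a + (m + e) + c + (m + e) = k + (a + c + (m + e)) + (m + e) by ring,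
        show a + (k + c + (m + e)) + (m + e) = k + (a + c + (m + e)) + (m + e) by ring]
      have := hξ (a + c + (m + e))
      have := hξ (k + a + (m + e))
      have := hξ (k + c + (m + e))
      have := hξ (k + (a + c + (m + e)) + (m + e))
      field_simp
      linear_combination (ξ a * ξ c * ξ k) * hJ k a c)
  obtain ⟨a, rfl⟩ := Nat.exists_eq_add_of_le ha
  obtain ⟨c, rfl⟩ := Nat.exists_eq_add_of_le hc
  have h1 := hf a c
  simp only [f, div_eq_zero_iff, mul_eq_zero, hξ, or_false] at h1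
  simpa [B, ι] using h1

end bracket

theorem tail_comm (t : ℕ) : ∀ x ∈ Γ m, ∀ y ∈ Γ m, ⁅x, y⁆ ∈ Γ t := by
  have key : ∀ e, ∀ i j, m ≤ i → m ≤ j → ∀ x ∈ Γ i, ∀ y ∈ Γ j, ⁅x, y⁆ ∈ Γ (i + j + e) := by
    intro e
    induction e with
    | zero => exact fun i j _ _ x hx y hy => h.fil.comm i j x y hx hy
    | succ e ih =>
      intro i j hi hj x hx y hy
      rw [← add_assoc, ← h.κ_zero _ (by omega) _ (ih i j hi hj x hx y hy),
        h.κ_bil ih hi hj hx hy rfl, h.b_zero ih hi hj, mul_zero]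
  exact fun x hx y hy => h.fil.anti (by omega) (key t m m le_rfl le_rfl x hx y hy)

end Per

end Pool.Agent.H495Z.TC
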