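import Mathlib
import Pool.Agent.H495Z.FinG
import Pool.Agent.H495Z.TailC

/-! Large finite `p`-groups of given coclass have abelian normal subgroups of large exponent
centralised by a subgroup of bounded index. -/

set_option autoImplicit false

universe u

open scoped commutatorElement
open Filter

namespace Pool.Agent.H495Z.LM

open HP PR FG TC

variable (U : Ultrafilter ℕ) (P : ℕ → Type u) [∀ n, Group (P n)]

def Gam (i : ℕ) : Subgroup (∀ n, P n) where
  carrier := {g | ∀ᶠ n in U, g n ∈ gam (P n) i}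
  one_mem' := Eventually.of_forall fun _ => Subgroup.one_mem _
  mul_mem' := fun hx hy => (Eventually.and hx hy).mono fun _ h => Subgroup.mul_mem _ h.1 h.2
  inv_mem' := fun hx => Eventually.mono hx fun _ h => Subgroup.inv_mem _ h

variable {U P}

lemma mem_Gam {i : ℕ} {g : ∀ n, P n} : g ∈ Gam U P i ↔ ∀ᶠ n in U, g n ∈ gam (P n) i := Iff.rfl

lemma isFil_Gam : IsFil (Gam U P) where
  normal := fun i => ⟨fun _ hx g => Eventually.mono hx fun n h =>
    ((isFil_gam (P n)).normal i).conj_mem _ h (g n)⟩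
  anti := fun _ _ h _ hx => Eventually.mono hx fun n h' => (isFil_gam (P n)).anti h h'
  comm := fun i j _ _ hx hy => (Eventually.and hx hy).mono fun n h =>
    (isFil_gam (P n)).comm i j _ _ h.1 h.2

lemma ev_choice {r : ∀ n, P n → Prop} (h : ∀ᶠ n in U, ∃ y, r n y) :
    ∃ y : ∀ n, P n, ∀ᶠ n in U, r n (y n) :=
  ⟨fun n => @Classical.epsilon _ ⟨1⟩ (r n), h.mono fun _ hn => Classical.epsilon_spec hn⟩

lemma exists_lim (U : Ultrafilter ℕ) {α : Type} [Finite α] (F : ℕ → α) :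
    ∃ a, ∀ᶠ n in U, F n = a :=
  Ultrafilter.eventually_exists_iff.1 (Eventually.of_forall fun n => ⟨F n, rfl⟩)

noncomputable def lim (U : Ultrafilter ℕ) {α : Type} [Finite α] (F : ℕ → α) : α :=
  (exists_lim U F).choose

lemma lim_spec {α : Type} [Finite α] (F : ℕ → α) : ∀ᶠ n in U, F n = lim U F :=
  (exists_lim U F).choose_spec

lemma lim_eq {α : Type} [Finite α] {F : ℕ → α} {a : α} (h : ∀ᶠ n in U, F n = a) :
    lim U F = a := by
  obtain ⟨n, h1, h2⟩ := (h.and (lim_spec (U := U) F)).exists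
  rw [← h1, h2]

variable {p : ℕ} [Fact p.Prime] {s : ℕ}

theorem exists_tail (hP : ∀ n, HasCoclass p (P n) s)
    (hc : ∀ i, ∀ᶠ n in U, i ≤ Group.nilpotencyClass (P n)) :
    ∃ (m : ℕ) (v : ℕ → ∀ n, P n) (κ : ℕ → (∀ n, P n) → ZMod p) (κ' : ∀ n, ℕ → P n → ZMod p),
      Tail p (Gam U P) m v κ ∧ ∀ i, m ≤ i → ∀ᶠ n in U,
        Layer p (gam (P n) i) (gam (P n) (i + 1)) (v i n) (κ' n i) := by
  have hp : p.Prime := Fact.out
  have h1 : ∀ i, ∃ a ∈ Set.Iic s, ∀ᶠ n in U, idx p (P n) i = i + a := fun i =>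
    (Ultrafilter.eventually_exists_mem_iff (Set.finite_Iic s)).1 ((hc i).mono fun n hn =>
      ⟨idx p (P n) i - i, by have := idx_le (hP n) i; simp only [Set.mem_Iic]; omega,
        by have := le_idx (hP n) i hn; omega⟩)
  choose a ha ha' using h1
  have hmono : Monotone a := monotone_nat_of_le_succ fun i => by
    obtain ⟨n, h1, h2, h3⟩ := ((ha' i).and ((ha' (i + 1)).and (hc (i + 1)))).exists
    have := idx_succ (hP n) (i := i) h3
    omega
  obtain ⟨i₀, hi₀⟩ : ∃ i₀, ∀ i, a i ≤ a i₀ := by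
    refine ⟨Function.argmin (fun i => s - a i), fun i => ?_⟩
    have h1 := Function.argmin_le (fun i => s - a i) i
    have h2 : a i ≤ s := ha i
    have h3 : a (Function.argmin fun i => s - a i) ≤ s := ha _
    omega
  have h2 : ∀ n i, ∃ (v : P n) (κ : P n → ZMod p),
      (∃ v κ, Layer p (gam (P n) i) (gam (P n) (i + 1)) v κ) →
        Layer p (gam (P n) i) (gam (P n) (i + 1)) v κ := by
    intro n i
    by_cases h : ∃ v κ, Layer p (gam (P n) i) (gam (P n) (i + 1)) v κ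
    · obtain ⟨v, κ, h⟩ := h
      exact ⟨v, κ, fun _ => h⟩
    · exact ⟨1, 0, fun h' => absurd h' h⟩
  choose v κ' hv using h2
  have hL : ∀ i, i₀ + 1 ≤ i → ∀ᶠ n in U,
      Layer p (gam (P n) i) (gam (P n) (i + 1)) (v n i) (κ' n i) := by
    intro i hi
    obtain ⟨i, rfl⟩ : ∃ j, i = j + 1 := ⟨i - 1, by omega⟩
    refine ((ha' i).and (ha' (i + 1))).mono fun n hn => hv n _ (layer_of_idx (hP n) ?_)
    have := hmono (show i₀ ≤ i by omega)
    have := hmono (show i ≤ i + 1 by omega)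
    have := hi₀ (i + 1)
    omega
  refine ⟨i₀ + 1, fun i n => v n i, fun i g => lim U fun n => κ' n i (g n), κ', ?_, hL⟩
  refine ⟨isFil_Gam, ?_, by omega, fun i hi => (hL i hi).mono fun n h => h.1,
    fun i hi => lim_eq ((hL i hi).mono fun n h => h.2.1), fun i hi x hx y hy => ?_,
    fun i hi x hx => ⟨fun h0 => ?_, fun h0 => ?_⟩, fun i hi => ?_, fun i => ?_⟩
  · exact eq_top_iff.2 fun g _ => Eventually.of_forall fun _ => trivial
  · refine lim_eq ?_
    filter_upwards [hL i hi, hx, hy, lim_spec (U := U) fun n => κ' n i (x n),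
      lim_spec (U := U) fun n => κ' n i (y n)] with n h1 h2 h3 h4 h5
    rw [← h4, ← h5]
    exact h1.2.2.1 _ h2 _ h3
  · rw [mem_Gam]
    filter_upwards [hL i hi, hx, lim_spec (U := U) fun n => κ' n i (x n)] with n h1 h2 h3
    exact (h1.2.2.2 _ h2).1 (h3.trans h0)
  · refine lim_eq ?_
    filter_upwards [hL i hi, hx, h0] with n h1 h2 h3
    exact (h1.2.2.2 _ h2).2 h3
  · obtain ⟨y, hy⟩ := ev_choice (U := U) (r := fun n y => ⁅y, v n i⁆ ∉ gam (P n) (i + 2)) (by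
      filter_upwards [hL i hi, hc (i + 1)] with n h1 h2
      exact exists_step (hP n) (by omega) h2 h1)
    exact ⟨y, Ultrafilter.eventually_not.1 hy⟩
  · choose σ hσ using fun n => exists_reps (hP n) i
    have : Finite ((∀ n, P n) ⧸ Gam U P i) := by
      refine Finite.of_surjective
        (fun j : Fin (p ^ (i + s)) => ((fun n => σ n j : ∀ n, P n) : _ ⧸ Gam U P i)) fun q => ?_
      obtain ⟨g, rfl⟩ := QuotientGroup.mk_surjective q
      obtain ⟨j, hj⟩ := (Ultrafilter.eventually_exists_iff (f := U)).1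
        (Eventually.of_forall fun n => hσ n (g n))
      exact ⟨j, QuotientGroup.eq.2 hj⟩
    exact Subgroup.finiteIndex_of_finite_quotient

theorem exists_good (hP : ∀ n, HasCoclass p (P n) s)
    (hc : ∀ i, ∀ᶠ n in U, i ≤ Group.nilpotencyClass (P n)) :
    ∃ n, ∃ (Z : Subgroup (P n)) (b : ℕ), Z.Normal ∧ (∀ x ∈ Z, ∀ y ∈ Z, Commute x y) ∧
        (∀ g : P n, ∀ y ∈ Z, Commute (g ^ p ^ b) y) ∧ ∃ y ∈ Z, y ^ p ^ (s + 1 + b) ≠ 1 := by
  have hp : p.Prime := Fact.out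
  obtain ⟨m₀, v, κ, κ', hT, hL⟩ := exists_tail hP hc
  obtain ⟨m, d, hm, h⟩ := hT.exists_per
  set k := s + 1 + (m + s) with hk
  have e1 : ∀ᶠ n in U, ∀ x ∈ gam (P n) m, x ^ p ∈ gam (P n) (m + d) := by
    by_contra hcon
    rw [← Ultrafilter.eventually_not] at hcon
    obtain ⟨x, hx⟩ := ev_choice (U := U)
      (r := fun n x => x ∈ gam (P n) m ∧ x ^ p ∉ gam (P n) (m + d))
      (hcon.mono fun n hn => by push Not at hn; exact hn)
    exact Ultrafilter.eventually_not.1 (hx.mono fun n hn => hn.2)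
      (h.up m le_rfl x (hx.mono fun n hn => hn.1))
  have e2 : ∀ᶠ n in U, v m n ^ p ∉ gam (P n) (m + d + 1) := by
    refine Ultrafilter.eventually_not.2 fun hcon => h.tau_ne (a := m) le_rfl ?_
    exact h.κ_of_mem (by omega) hcon
  have e3 : ∀ᶠ n in U, ∀ x ∈ gam (P n) m, ∀ y ∈ gam (P n) m,
      ⁅x, y⁆ ∈ gam (P n) (m + d + (k * d + 1)) := by
    by_contra hcon
    rw [← Ultrafilter.eventually_not] at hcon
    obtain ⟨x, hx⟩ := ev_choice (U := U)
      (r := fun n x => x ∈ gam (P n) m ∧ ∃ y ∈ gam (P n) m,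
        ⁅x, y⁆ ∉ gam (P n) (m + d + (k * d + 1)))
      (hcon.mono fun n hn => by push Not at hn; exact hn)
    obtain ⟨y, hy⟩ := ev_choice (U := U) (hx.mono fun n hn => hn.2)
    exact Ultrafilter.eventually_not.1 (hy.mono fun n hn => hn.2)
      (h.tail_comm _ x (hx.mono fun n hn => hn.1) y (hy.mono fun n hn => hn.1))
  have e4 : ∀ᶠ n in U, ∀ a ∈ Finset.Icc m (m + d),
      Layer p (gam (P n) a) (gam (P n) (a + 1)) (v a n) (κ' n a) :=
    (eventually_all_finset _).2 fun a ha => hL a (hm.trans (Finset.mem_Icc.1 ha).1)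
  obtain ⟨n, h1, h2, h3, h4, h5⟩ := (e1.and (e2.and (e3.and (e4.and (hc (m + k * d)))))).exists
  have hm1 := h.m_pos
  have hgen : ∀ a, m ≤ a → a ≤ m + d → Gen (gam (P n)) a (v a n) := fun a ha ha' =>
    have hl := h4 a (Finset.mem_Icc.2 ⟨ha, ha'⟩)
    ⟨hl.1, hl.gen hl.1 hl.not_mem⟩
  have hB : Base p (gam (P n)) m d :=
    ⟨hp, isFil_gam _, gam_one, gam_succ, hm1, h.d_pos, h.num, h1,
      fun a ha ha' => ⟨_, hgen a ha ha'.le⟩, _, hgen m le_rfl (by omega),
      h1 _ (hgen m le_rfl (by omega)).1,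
      (h4 (m + d) (Finset.mem_Icc.2 ⟨by omega, le_rfl⟩)).gen
        (h1 _ (hgen m le_rfl (by omega)).1) h2⟩
  obtain ⟨Z, hZ, hZm, hZc, y, hy, hy'⟩ := hB.final (gam_bot (hP n))
    (gam_ne (hP n) (by omega) le_rfl) h5 h3
  exact ⟨n, Z, m + s, hZ, fun x hx y hy => hZc x (hZm hx) y hy, fun g y hy =>
    hZc _ ((isFil_gam _).anti (Nat.le_succ m) (pow_mem_gam (hP n) m g)) y hy, y, hy, hy'⟩

end Pool.Agent.H495Z.LM

namespace Pool.Agent.H495Z

theorem coclass_abelian (p : ℕ) [Fact p.Prime] (s : ℕ) :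
    ∃ B : ℕ, ∀ (P : Type u) [Group P], HasCoclass p P s → B < Nat.card P →
      ∃ (Z : Subgroup P) (b : ℕ), Z.Normal ∧ (∀ x ∈ Z, ∀ y ∈ Z, Commute x y) ∧
        (∀ g : P, ∀ y ∈ Z, Commute (g ^ p ^ b) y) ∧ ∃ y ∈ Z, y ^ p ^ (s + 1 + b) ≠ 1 := by
  have hp : p.Prime := Fact.out
  by_contra hcon
  have h1 : ∀ n : ℕ, ∃ (P : Type u) (_ : Group P), HasCoclass p P s ∧ p ^ (n + s) < Nat.card P ∧
      ¬ ∃ (Z : Subgroup P) (b : ℕ), Z.Normal ∧ (∀ x ∈ Z, ∀ y ∈ Z, Commute x y) ∧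
        (∀ g : P, ∀ y ∈ Z, Commute (g ^ p ^ b) y) ∧ ∃ y ∈ Z, y ^ p ^ (s + 1 + b) ≠ 1 := by
    intro n
    by_contra h2
    refine hcon ⟨p ^ (n + s), fun P _ hP hB => ?_⟩
    by_contra h3
    exact h2 ⟨P, inferInstance, hP, hB, h3⟩
  choose P inst hP hB hZ using h1
  obtain ⟨n, hn⟩ := LM.exists_good (U := hyperfilter ℕ) hP (fun i => by
    refine hyperfilter_le_cofinite ?_
    rw [Nat.cofinite_eq_atTop]
    filter_upwards [eventually_ge_atTop i] with n hn
    have := hB n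
    rw [(hP n).2, Nat.pow_lt_pow_iff_right hp.one_lt] at this
    omega)
  exact hZ n hn

end Pool.Agent.H495Z
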