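import Mathlib

/-! Group-theoretic lemmas for `exp_bound`. -/

set_option autoImplicit false

universe u

namespace Pool.Agent.H495Z.PA

open Subgroup

/-- A nontrivial normal subgroup of a finite `p`-group contains a central element of order `p`. -/
theorem exists_central {p : ℕ} [Fact p.Prime] {Q : Type u} [Group Q] [Finite Q]
    (hQ : IsPGroup p Q) (N : Subgroup Q) [N.Normal] (hN : N ≠ ⊥) :
    ∃ g ∈ N, g ≠ 1 ∧ g ^ p = 1 ∧ ∀ h : Q, h * g = g * h := by
  let _ : MulAction Q N := MulAction.compHom N (MulAut.conjNormal (H := N))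
  have hsm : ∀ (h : Q) (n : N), ((h • n : N) : Q) = h * n * h⁻¹ := fun h n => rfl
  have hNt : Nontrivial N := (Subgroup.nontrivial_iff_ne_bot N).2 hN
  have dvd : p ∣ Nat.card N := by
    obtain ⟨n, hn0, hn⟩ := (hQ.to_subgroup N).nontrivial_iff_card.mp hNt
    exact hn.symm ▸ dvd_pow_self _ (ne_of_gt hn0)
  have h1 : (1 : N) ∈ MulAction.fixedPoints Q N := by
    intro h
    apply Subtype.ext
    rw [hsm]
    simp
  obtain ⟨g, hg, hg1⟩ := hQ.exists_fixed_point_of_prime_dvd_card_of_fixed_point N dvd h1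
  have hc : ∀ h : Q, h * (g : Q) = g * h := by
    intro h
    have := congrArg Subtype.val (hg h)
    rw [hsm] at this
    calc h * (g : Q) = h * g * h⁻¹ * h := by group
      _ = g * h := by rw [this]
  have hg1' : (g : Q) ≠ 1 := fun h => hg1 (Subtype.ext h.symm)
  obtain ⟨m, hm⟩ := (IsPGroup.iff_orderOf.1 hQ) (g : Q)
  have hm0 : m ≠ 0 := by
    rintro rfl
    exact hg1' (orderOf_eq_one_iff.1 (by simpa using hm))
  obtain ⟨m, rfl⟩ := Nat.exists_eq_succ_of_ne_zero hm0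
  refine ⟨(g : Q) ^ p ^ m, N.pow_mem g.2 _, ?_, ?_, fun h => ?_⟩
  · intro h
    have := orderOf_dvd_of_pow_eq_one h
    rw [hm, Nat.pow_dvd_pow_iff_le_right (Fact.out : p.Prime).one_lt] at this
    omega
  · rw [← pow_mul, ← pow_succ, ← hm, pow_orderOf_eq_one]
  · exact (Commute.pow_right (hc h) _).eq

theorem exists_central_mod {p : ℕ} [Fact p.Prime] {Q : Type u} [Group Q] [Finite Q]
    (hQ : IsPGroup p Q) (A N : Subgroup Q) [A.Normal] [hN : N.Normal] (h : ¬ N ≤ A) :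
    ∃ g ∈ N, g ∉ A ∧ g ^ p ∈ A ∧ ∀ h : Q, h * g * h⁻¹ * g⁻¹ ∈ A := by
  have hn : (N.map (QuotientGroup.mk' A)).Normal :=
    hN.map _ (QuotientGroup.mk'_surjective A)
  have hne : N.map (QuotientGroup.mk' A) ≠ ⊥ := by
    intro hb
    rw [Subgroup.map_eq_bot_iff, QuotientGroup.ker_mk'] at hb
    exact h hb
  obtain ⟨g, ⟨g', hg', rfl⟩, hg1, hgp, hgc⟩ := exists_central (hQ.to_quotient A) _ hne
  refine ⟨g', hg', fun hA => hg1 ?_, ?_, fun h => ?_⟩
  · exact (QuotientGroup.eq_one_iff _).2 hA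
  · rw [← map_pow] at hgp
    exact (QuotientGroup.eq_one_iff _).1 hgp
  · apply (QuotientGroup.eq_one_iff _).1
    have := hgc (QuotientGroup.mk' A h)
    change QuotientGroup.mk' A _ = 1
    rw [map_mul, map_mul, map_mul, this, map_inv, map_inv]
    group

theorem conj_pow_eq {Q : Type u} [Group Q] (h a : Q) (u : ℤ) (hu : h * a * h⁻¹ = a ^ u) (n : ℕ) :
    h ^ n * a * (h ^ n)⁻¹ = a ^ (u ^ n) := by
  induction n with
  | zero => simp
  | succ n ih =>
    have : h ^ (n + 1) * a * (h ^ (n + 1))⁻¹ = h * (h ^ n * a * (h ^ n)⁻¹) * h⁻¹ := by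
      rw [pow_succ']; group
    rw [this, ih, ← conj_zpow, hu, ← zpow_mul, pow_succ']

theorem dvd_sub_one {p : ℕ} [Fact p.Prime] (u : ℤ) (b : ℕ) (h : (p : ℤ) ∣ u ^ p ^ b - 1) :
    (p : ℤ) ∣ u - 1 := by
  rw [← ZMod.intCast_zmod_eq_zero_iff_dvd] at h ⊢
  push_cast at h ⊢
  rwa [ZMod.pow_card_pow] at h

theorem lte {p : ℕ} [Fact p.Prime] (hp : Odd p) (u : ℤ) (b m : ℕ)
    (h : (p : ℤ) ^ m ∣ u ^ p ^ b - 1) : (p : ℤ) ^ m ∣ (u - 1) * p ^ b := by
  have hpp : p.Prime := Fact.out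
  rcases Nat.eq_zero_or_pos m with rfl | hm
  · simp
  have h1 : (p : ℤ) ∣ u - 1 := dvd_sub_one u b ((dvd_pow_self _ hm.ne').trans h)
  have h2 : ¬ (p : ℤ) ∣ u := by
    intro h2
    have : (p : ℤ) ∣ 1 := by
      have := dvd_sub h2 h1
      simpa using this
    exact hpp.one_lt.ne' (by exact_mod_cast Int.eq_one_of_dvd_one (by positivity) this)
  have h3 := Int.emultiplicity_pow_sub_pow hpp hp h1 h2 (p ^ b)
  rw [one_pow] at h3
  rw [pow_dvd_iff_le_emultiplicity] at h ⊢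
  rw [emultiplicity_mul (Nat.prime_iff_prime_int.1 hpp)]
  rw [h3] at h
  have h4 : emultiplicity (p : ℤ) ((p : ℤ) ^ b) = emultiplicity p (p ^ b) := by
    rw [← Int.natCast_emultiplicity]
    push_cast
    rfl
  rwa [h4]

/-- If `h` normalises `⟨a⟩` and `h ^ p ^ b` centralises `a` then `a ^ ((u-1) p^b) = 1`. -/
theorem cyc_pow {p : ℕ} [Fact p.Prime] (hp : Odd p) {Q : Type u} [Group Q] [Finite Q]
    (hQ : IsPGroup p Q) (h a : Q) (u : ℤ) (hu : h * a * h⁻¹ = a ^ u) (b : ℕ)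
    (hc : Commute (h ^ p ^ b) a) : a ^ ((u - 1) * p ^ b) = 1 := by
  obtain ⟨m, hm⟩ := (IsPGroup.iff_orderOf.1 hQ) a
  have h1 := conj_pow_eq h a u hu (p ^ b)
  rw [hc.eq, mul_inv_cancel_right] at h1
  have h2 : a ^ (u ^ p ^ b - 1) = 1 := by
    rw [zpow_sub, ← h1]; simp
  rw [← orderOf_dvd_iff_zpow_eq_one, hm] at h2 ⊢
  push_cast at h2 ⊢
  exact lte hp u b m h2

/-- Elements of order dividing `p` in a cyclic normal subgroup are central. -/
theorem cyc_central {p : ℕ} [Fact p.Prime] {Q : Type u} [Group Q] [Finite Q]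
    (hQ : IsPGroup p Q) (a : Q) (hn : (zpowers a).Normal) (c : Q) (hc : c ∈ zpowers a)
    (hcp : c ^ p = 1) (h : Q) : h * c = c * h := by
  obtain ⟨u, hu⟩ := mem_zpowers_iff.1 (hn.conj_mem a (mem_zpowers a) h)
  obtain ⟨j, rfl⟩ := mem_zpowers_iff.1 hc
  have h0 : h * a ^ j * h⁻¹ = (a ^ j) ^ u := by
    rw [← conj_zpow, ← hu, ← zpow_mul, ← zpow_mul, mul_comm]
  by_cases h1 : a ^ j = 1
  · rw [h1]; simp
  have ho : orderOf (a ^ j) = p := orderOf_eq_prime hcp h1
  obtain ⟨m, hm⟩ := hQ h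
  have h2 := conj_pow_eq h (a ^ j) u h0 (p ^ m)
  rw [hm] at h2
  have h3 : (a ^ j) ^ (u ^ p ^ m - 1) = 1 := by
    rw [zpow_sub, ← h2]; simp
  rw [← orderOf_dvd_iff_zpow_eq_one, ho] at h3
  have h4 := dvd_sub_one u m h3
  rw [← ho, orderOf_dvd_iff_zpow_eq_one, zpow_sub, ← h0] at h4
  calc h * a ^ j = (h * a ^ j * h⁻¹ * ((a ^ j) ^ (1 : ℤ))⁻¹) * (a ^ j * h) := by
        simp only [zpow_one]; group
    _ = a ^ j * h := by rw [h4, one_mul]

theorem pow_mul_comm' {Q : Type u} [Group Q] (s t c : Q) (hcs : Commute c s) (hct : Commute c t)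
    (h : t * s = c * s * t) (n : ℕ) : t ^ n * s = c ^ n * s * t ^ n := by
  induction n with
  | zero => simp
  | succ n ih =>
    calc t ^ (n + 1) * s = t * (t ^ n * s) := by rw [pow_succ']; group
      _ = (t * c ^ n) * s * t ^ n := by rw [ih]; group
      _ = c ^ n * (t * s) * t ^ n := by rw [← (hct.pow_left n).eq]; group
      _ = c ^ (n + 1) * s * t ^ (n + 1) := by rw [h, pow_succ c, pow_succ' t]; group

theorem mul_pow_eq {Q : Type u} [Group Q] (s t c : Q) (hcs : Commute c s) (hct : Commute c t)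
    (h : t * s = c * s * t) (n : ℕ) : (s * t) ^ n = c ^ (n.choose 2) * s ^ n * t ^ n := by
  induction n with
  | zero => simp
  | succ n ih =>
    have h1 : (n + 1).choose 2 = n.choose 2 + n := by
      rw [Nat.choose_succ_succ' n 1, Nat.choose_one_right, add_comm]
    calc (s * t) ^ (n + 1) = c ^ (n.choose 2) * s ^ n * (t ^ n * s) * t := by
          rw [pow_succ, ih]; group
      _ = c ^ (n.choose 2) * (s ^ n * c ^ n) * s * t ^ n * t := by
          rw [pow_mul_comm' s t c hcs hct h]; group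
      _ = c ^ (n.choose 2) * (c ^ n * s ^ n) * s * t ^ n * t := by
          rw [((hcs.pow_left n).pow_right n).eq]
      _ = _ := by rw [h1, pow_add, pow_succ s, pow_succ t]; group

theorem mul_pow_prime {p : ℕ} [Fact p.Prime] (hp : Odd p) {Q : Type u} [Group Q] (s t c : Q)
    (hcs : Commute c s) (hct : Commute c t) (h : t * s = c * s * t) (hc : c ^ p = 1) :
    (s * t) ^ p = s ^ p * t ^ p := by
  have hpp : p.Prime := Fact.out
  have h2 : p ∣ p.choose 2 := by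
    apply hpp.dvd_choose_self (by norm_num)
    have := hpp.two_le
    rcases hp with ⟨j, hj⟩
    omega
  obtain ⟨j, hj⟩ := h2
  rw [mul_pow_eq s t c hcs hct h, hj, pow_mul, hc]
  simp

/-- A non-cyclic normal subgroup of a finite `p`-group (`p` odd) contains a normal subgroup of
type `(p, p)`. -/
theorem lemmaE {p : ℕ} [Fact p.Prime] (hp : Odd p) {Q : Type u} [Group Q] [Finite Q]
    (hQ : IsPGroup p Q) (N : Subgroup Q) [hN : N.Normal] (hcyc : ∀ a : Q, zpowers a ≠ N) :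
    ∃ z ∈ N, ∃ x ∈ N, z ≠ 1 ∧ z ^ p = 1 ∧ (∀ h : Q, h * z = z * h) ∧ x ^ p = 1 ∧
      x ∉ zpowers z ∧ ∀ h h' : Q, h' * (h * x * h⁻¹ * x⁻¹) = (h * x * h⁻¹ * x⁻¹) * h' := by
  have hpp : p.Prime := Fact.out
  obtain ⟨a, ⟨haN, han⟩, hmax⟩ := Set.exists_max_image
    {a : Q | a ∈ N ∧ (zpowers a).Normal} (fun a => Nat.card (zpowers a)) (Set.toFinite _)
    ⟨1, N.one_mem, by rw [zpowers_one_eq_bot]; infer_instance⟩
  have hle : zpowers a ≤ N := by rwa [zpowers_le]
  have hnle : ¬ N ≤ zpowers a := fun h => hcyc a (le_antisymm hle h)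
  obtain ⟨g, hgN, hgA, hgp, hgc⟩ := exists_central_mod hQ (zpowers a) N hnle
  -- `a` is not a power of `g`
  have hag : a ∉ zpowers g := by
    intro hag
    have hlt : zpowers a < zpowers g :=
      lt_of_le_of_ne (by rwa [zpowers_le]) fun h => hgA (h ▸ mem_zpowers g)
    have hgn : (zpowers g).Normal := by
      refine ⟨fun y hy h => ?_⟩
      obtain ⟨j, rfl⟩ := mem_zpowers_iff.1 hy
      rw [← conj_zpow]
      apply zpow_mem
      have := mul_mem (hlt.le (hgc h)) (mem_zpowers g)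
      simpa using this
    have h1 := hmax g ⟨hgN, hgn⟩
    have h2 := Subgroup.eq_of_le_of_card_ge hlt.le h1
    exact hlt.ne h2
  obtain ⟨j, hj⟩ := mem_zpowers_iff.1 hgp
  obtain ⟨m, hm⟩ := (IsPGroup.iff_orderOf.1 hQ) a
  have hpj : (p : ℤ) ∣ j := by
    by_contra hpj
    apply hag
    have hcop : IsCoprime j ((p : ℤ) ^ m) :=
      ((Nat.prime_iff_prime_int.1 hpp).coprime_iff_not_dvd.2 hpj).symm.pow_right
    obtain ⟨r, s, hrs⟩ := hcop
    have h1 : a ^ ((p : ℤ) ^ m) = 1 := by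
      rw [← orderOf_dvd_iff_zpow_eq_one, hm]; push_cast; rfl
    have h2 : a = (g ^ p) ^ r := by
      rw [← hj, ← zpow_mul]
      conv_lhs => rw [← zpow_one a, ← hrs, zpow_add, mul_comm s, zpow_mul a _ s, h1]
      simp [mul_comm]
    rw [h2]
    exact zpow_mem (pow_mem (mem_zpowers g) _) _
  obtain ⟨j', rfl⟩ := hpj
  have ha1 : a ≠ 1 := fun h => hag (h ▸ one_mem _)
  have hm0 : m ≠ 0 := by
    rintro rfl
    exact ha1 (orderOf_eq_one_iff.1 (by simpa using hm))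
  obtain ⟨m, rfl⟩ := Nat.exists_eq_succ_of_ne_zero hm0
  obtain ⟨u, hu⟩ := mem_zpowers_iff.1 (han.conj_mem a (mem_zpowers a) g)
  have hc0 : a ^ ((u - 1) * p ^ 1) = 1 := by
    apply cyc_pow hp hQ g a u hu.symm 1
    rw [pow_one, ← hj]
    exact (Commute.refl a).zpow_left _
  have hcp : ∀ r : ℤ, (a ^ (r * (u - 1))) ^ p = 1 := by
    intro r
    rw [← zpow_natCast, ← zpow_mul, mul_assoc, mul_comm r, zpow_mul]
    rw [pow_one] at hc0
    rw [hc0, one_zpow]
  have hcc : ∀ (r : ℤ) (h : Q), Commute (a ^ (r * (u - 1))) h := fun r h =>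
    (cyc_central hQ a han _ (zpow_mem (mem_zpowers a) _) (hcp r) h).symm
  have hga : ∀ r : ℤ, g * a ^ r = a ^ (r * (u - 1)) * a ^ r * g := by
    intro r
    have : g * a ^ r * g⁻¹ = a ^ (r * (u - 1)) * a ^ r := by
      rw [← conj_zpow, ← hu, ← zpow_mul, ← zpow_add]
      congr 1
      ring
    rw [← this]; group
  have hxa : ∀ r : ℤ, (a ^ (-j') * g) * a ^ r = a ^ (r * (u - 1)) * a ^ r * (a ^ (-j') * g) := by
    intro r
    rw [mul_assoc, hga r]
    simp only [← mul_assoc, ← zpow_add]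
    congr 2
    ring
  have hxp : (a ^ (-j') * g) ^ p = 1 := by
    rw [mul_pow_prime hp _ _ _ (hcc (-j') _) (hcc (-j') _) (hga (-j')) (hcp _), ← hj,
      ← zpow_natCast, ← zpow_mul, ← zpow_add]
    have : -j' * (p : ℤ) + p * j' = 0 := by ring
    rw [this, zpow_zero]
  have hzp : (a ^ p ^ m) ^ p = 1 := by
    rw [← pow_mul, ← pow_succ, ← hm, pow_orderOf_eq_one]
  refine ⟨a ^ p ^ m, N.pow_mem haN _, a ^ (-j') * g, N.mul_mem (N.zpow_mem haN _) hgN, ?_, hzp,
    fun h => cyc_central hQ a han _ (pow_mem (mem_zpowers a) _) hzp h, hxp, ?_, fun h h' => ?_⟩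
  · intro h
    have := orderOf_dvd_of_pow_eq_one h
    rw [hm, Nat.pow_dvd_pow_iff_le_right hpp.one_lt] at this
    omega
  · intro hx
    apply hgA
    have h1 : zpowers (a ^ p ^ m) ≤ zpowers a := by
      rw [zpowers_le]; exact pow_mem (mem_zpowers a) _
    have := mul_mem (zpow_mem (mem_zpowers a) j') (h1 hx)
    simpa [← mul_assoc, ← zpow_add] using this
  · have hA : h * (a ^ (-j') * g) * h⁻¹ * (a ^ (-j') * g)⁻¹ ∈ zpowers a := by
      have e : h * (a ^ (-j') * g) * h⁻¹ * (a ^ (-j') * g)⁻¹ =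
          (h * a ^ (-j') * h⁻¹) * (h * g * h⁻¹ * g⁻¹) * (a ^ (-j'))⁻¹ := by group
      rw [e]
      exact mul_mem (mul_mem (han.conj_mem _ (zpow_mem (mem_zpowers a) _) h) (hgc h))
        (inv_mem (zpow_mem (mem_zpowers a) _))
    refine cyc_central hQ a han _ hA ?_ h'
    obtain ⟨r, hr⟩ := mem_zpowers_iff.1 hA
    have h1 : (a ^ r * (a ^ (-j') * g)) ^ p = 1 := by
      have : a ^ r * (a ^ (-j') * g) = h * (a ^ (-j') * g) * h⁻¹ := by rw [hr]; group
      rw [this, conj_pow, hxp]; simp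
    rw [mul_pow_prime hp _ _ _ (hcc r _) (hcc r _) (hxa r) (hcp _), hxp, mul_one] at h1
    rw [← hr, h1]

end Pool.Agent.H495Z.PA
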