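import Mathlib
import Pool.Agent.H495Z.Stmt

/-! Module-theoretic lemmas for `exp_bound`. -/

set_option autoImplicit false

universe u

namespace Pool.Agent.H495Z.PA

open Finset

section basic

variable {p : ℕ} [Fact p.Prime] {Q : Type u} [Group Q] {M : Type} [AddCommGroup M]
  [Module ℤ_[p] M]

/-- The inductive claim. -/
def D (k : ℕ) (ρ : Q →* Module.End ℤ_[p] M) : Prop :=
  ∃ (χ : Q →* Multiplicative (ZMod (p ^ (k + 1)))) (L : Submodule ℤ_[p] M) (e n : M),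
    Inv ρ L ∧ (p : ℤ_[p]) • e ∈ L ∧ (p : ℤ_[p]) • n ∈ L ∧ (∀ h, ρ h e - e ∈ L) ∧
    (∀ (h : Q) (j : ℕ), (j : ZMod (p ^ (k + 1))) = (χ h).toAdd →
      ρ h n - n - (j : ℤ_[p]) • e ∈ L) ∧
    (∀ l m : ℤ_[p], l • e + m • n ∈ L → (p : ℤ_[p]) ∣ l ∧ (p : ℤ_[p]) ∣ m)

theorem rho_mul (ρ : Q →* Module.End ℤ_[p] M) (g h : Q) (t : M) :
    ρ (g * h) t = ρ g (ρ h t) := by rw [map_mul]; rfl

theorem tf_pow (htf : ∀ t : M, (p : ℤ_[p]) • t = 0 → t = 0) (k : ℕ) (t : M)
    (h : (p : ℤ_[p]) ^ k • t = 0) : t = 0 := by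
  induction k with
  | zero => simpa using h
  | succ k ih =>
    apply ih
    apply htf
    rw [← mul_smul, ← pow_succ', h]

theorem dich (hsep : ∀ t : M, (∀ k : ℕ, ∃ t' : M, t = (p : ℤ_[p]) ^ k • t') → t = 0)
    (ρ : Q →* Module.End ℤ_[p] M) (hch : Chain ρ) (L : Submodule ℤ_[p] M) (hL : Inv ρ L)
    (t : M) (ht : t ∈ L) (ht0 : t ≠ 0) : ∃ k : ℕ, ∀ s : M, (p : ℤ_[p]) ^ k • s ∈ L := by
  by_contra hc
  apply ht0
  apply hsep
  intro k
  have hinv : Inv ρ (LinearMap.range ((p : ℤ_[p]) ^ k • (LinearMap.id : M →ₗ[ℤ_[p]] M))) := by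
    rintro g _ ⟨s, rfl⟩
    exact ⟨ρ g s, by simp⟩
  rcases hch L _ hL hinv with h | h
  · obtain ⟨s, hs⟩ := h ht
    exact ⟨s, by simpa using hs.symm⟩
  · exact absurd ⟨k, fun s => h ⟨s, by simp⟩⟩ hc

theorem fix_normal (htf : ∀ t : M, (p : ℤ_[p]) • t = 0 → t = 0)
    (hsep : ∀ t : M, (∀ k : ℕ, ∃ t' : M, t = (p : ℤ_[p]) ^ k • t') → t = 0)
    (ρ : Q →* Module.End ℤ_[p] M) (hch : Chain ρ) (S : Set Q)
    (hS : ∀ s ∈ S, ∀ h : Q, h⁻¹ * s * h ∈ S) (t : M) (ht : ∀ s ∈ S, ρ s t = t) (ht0 : t ≠ 0) :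
    ∀ s ∈ S, ρ s = 1 := by
  let V : Submodule ℤ_[p] M :=
    { carrier := {t | ∀ s ∈ S, ρ s t = t}
      add_mem' := fun {a b} ha hb s hs => by rw [map_add, ha s hs, hb s hs]
      zero_mem' := fun s _ => map_zero _
      smul_mem' := fun c a ha s hs => by rw [map_smul, ha s hs] }
  have hV : Inv ρ V := by
    intro g a ha s hs
    have h1 := ha _ (hS s hs g)
    rw [← rho_mul]
    conv_rhs => rw [← h1, ← rho_mul]
    congr 2
    group
  obtain ⟨k, hk⟩ := dich hsep ρ hch V hV t ht ht0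
  intro s hs
  ext a
  have h1 := hk a s hs
  rw [map_smul, ← sub_eq_zero, ← smul_sub] at h1
  exact sub_eq_zero.1 (tf_pow htf k _ h1)

theorem fix_central (htf : ∀ t : M, (p : ℤ_[p]) • t = 0 → t = 0)
    (hsep : ∀ t : M, (∀ k : ℕ, ∃ t' : M, t = (p : ℤ_[p]) ^ k • t') → t = 0)
    (ρ : Q →* Module.End ℤ_[p] M) (hρ : Function.Injective ρ) (hch : Chain ρ) (w : Q)
    (hw : ∀ h : Q, h * w = w * h) (hw1 : w ≠ 1) (t : M) (ht : ρ w t = t) : t = 0 := by
  by_contra ht0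
  apply hw1
  apply hρ
  rw [map_one]
  refine fix_normal htf hsep ρ hch {w} ?_ t ?_ ht0 w rfl
  · rintro s rfl h
    rw [hw]
    simp
  · rintro s rfl
    exact ht

theorem norm_fixed (ρ : Q →* Module.End ℤ_[p] M) (w : Q) (hw : w ^ p = 1) (t : M) :
    ρ w (∑ l ∈ range p, ρ (w ^ l) t) = ∑ l ∈ range p, ρ (w ^ l) t := by
  rw [map_sum]
  simp only [← rho_mul, ← pow_succ']
  have h1 := sum_range_succ' (fun l => ρ (w ^ l) t) p
  have h2 := sum_range_succ (fun l => ρ (w ^ l) t) p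
  rw [hw] at h2
  rw [pow_zero, h2] at h1
  exact (add_right_cancel h1).symm

theorem exists_fixed [Nontrivial M] (htf : ∀ t : M, (p : ℤ_[p]) • t = 0 → t = 0)
    (hsep : ∀ t : M, (∀ k : ℕ, ∃ t' : M, t = (p : ℤ_[p]) ^ k • t') → t = 0)
    (ρ : Q →* Module.End ℤ_[p] M) (hρ : Function.Injective ρ) (hch : Chain ρ) (x z : Q)
    (hz : ∀ h : Q, h * z = z * h) (hz1 : z ≠ 1) (hzp : z ^ p = 1) (hxp : x ^ p = 1) :
    ∃ i : ℕ, ∃ t : M, t ≠ 0 ∧ ρ (x * z ^ i) t = t := by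
  have hpp : p.Prime := Fact.out
  by_contra hc
  push Not at hc
  obtain ⟨t, ht⟩ := exists_ne (0 : M)
  apply ht
  apply htf
  have hxz : ∀ i : ℕ, Commute x (z ^ i) := fun i => Commute.pow_right (hz x) i
  have h1 : ∀ i : ℕ, ∑ l ∈ range p, ρ ((x * z ^ i) ^ l) t = 0 := by
    intro i
    by_contra h0
    refine hc i _ h0 (norm_fixed ρ _ ?_ t)
    rw [(hxz i).mul_pow, hxp, ← pow_mul, mul_comm i, pow_mul, hzp]
    simp
  have h2 : ∑ i ∈ range p, ∑ l ∈ range p, ρ ((x * z ^ i) ^ l) t = 0 :=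
    sum_eq_zero fun i _ => h1 i
  rw [sum_comm] at h2
  rw [sum_eq_single 0] at h2
  · simpa [Nat.cast_smul_eq_nsmul] using h2
  · intro l hl hl0
    have h3 : ∀ i : ℕ, ρ ((x * z ^ i) ^ l) t = ρ (x ^ l) (ρ ((z ^ l) ^ i) t) := by
      intro i
      rw [(hxz i).mul_pow, rho_mul, ← pow_mul, mul_comm i, pow_mul]
    simp only [h3]
    rw [← map_sum]
    have h4 : ∑ i ∈ range p, ρ ((z ^ l) ^ i) t = 0 := by
      refine fix_central htf hsep ρ hρ hch (z ^ l) (fun h => Commute.pow_right (hz h) l) ?_ _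
        (norm_fixed ρ _ ?_ t)
      · intro h5
        have h6 := orderOf_dvd_of_pow_eq_one h5
        rw [orderOf_eq_prime hzp hz1] at h6
        exact absurd (Nat.le_of_dvd (Nat.pos_of_ne_zero hl0) h6) (not_le.2 (mem_range.1 hl))
      · rw [← pow_mul, mul_comm, pow_mul, hzp, one_pow]
    rw [h4, map_zero]
  · intro h
    exact absurd (mem_range.2 hpp.pos) h

theorem indep (htf : ∀ t : M, (p : ℤ_[p]) • t = 0 → t = 0)
    (hsep : ∀ t : M, (∀ k : ℕ, ∃ t' : M, t = (p : ℤ_[p]) ^ k • t') → t = 0)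
    (ρ : Q →* Module.End ℤ_[p] M) (hρ : Function.Injective ρ) (hch : Chain ρ) (x : Q)
    {ι : Type*} (θ : ι → Q) (hθ : ∀ i h, h * θ i = θ i * h) (hinj : Function.Injective θ)
    (S : Finset ι) : ∀ v : ι → M, (∀ i, ρ x (v i) = ρ (θ i) (v i)) → ∑ i ∈ S, v i = 0 →
      ∀ i ∈ S, v i = 0 := by
  classical
  induction S using Finset.induction_on with
  | empty => simp
  | insert j S hj ih =>
    intro v hv hs
    have h1 : ∀ i ∈ S, v i = 0 := by
      have h2 := ih (fun i => ρ (θ i) (v i) - ρ (θ j) (v i)) ?_ ?_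
      · intro i hi
        have hij : i ≠ j := fun h => hj (h ▸ hi)
        refine fix_central htf hsep ρ hρ hch ((θ j)⁻¹ * θ i) (fun h => ?_) ?_ _ ?_
        · have e1 : h * (θ j)⁻¹ = (θ j)⁻¹ * h := (Commute.inv_right (hθ j h)).eq
          rw [← mul_assoc, e1, mul_assoc, hθ i h, mul_assoc]
        · intro h
          exact hij (hinj (inv_mul_eq_one.1 h)).symm
        · have h3 := sub_eq_zero.1 (h2 i hi)
          rw [rho_mul, h3, ← rho_mul]
          simp
      · intro i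
        simp only [map_sub]
        rw [← rho_mul ρ x, ← rho_mul ρ x, hθ i x, hθ j x, rho_mul, rho_mul, hv i,
          ← rho_mul ρ (θ j) (θ i), hθ i (θ j), rho_mul]
      · have h3 : ρ x (∑ i ∈ insert j S, v i) - ρ (θ j) (∑ i ∈ insert j S, v i) = 0 := by
          rw [hs]; simp
        rw [map_sum, map_sum, ← sum_sub_distrib, sum_insert hj, hv j, sub_self, zero_add] at h3
        simpa only [hv] using h3
    intro i hi
    rcases mem_insert.1 hi with rfl | hi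
    · rw [sum_insert hj, sum_eq_zero h1, add_zero] at hs
      exact hs
    · exact h1 i hi

theorem smul_congr (k : ℕ) (L : Submodule ℤ_[p] M) (e : M) (he : (p : ℤ_[p]) • e ∈ L) (a b : ℕ)
    (h : (a : ZMod (p ^ (k + 1))) = b) : (a : ℤ_[p]) • e - (b : ℤ_[p]) • e ∈ L := by
  rw [ZMod.natCast_eq_natCast_iff] at h
  have h1 : (p : ℤ) ∣ (a : ℤ) - b :=
    (Dvd.dvd.trans (by push_cast; exact dvd_pow_self _ (Nat.succ_ne_zero k)) h.symm.dvd)
  obtain ⟨c, hc⟩ := h1
  have h2 : (a : ℤ_[p]) - b = c * p := by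
    have := congrArg (Int.cast : ℤ → ℤ_[p]) hc
    push_cast at this
    rw [this, mul_comm]
  rw [← sub_smul, h2, mul_smul]
  exact L.smul_mem _ he

/-- the final step -/
theorem D.dvd_index [Finite Q] {k : ℕ} {ρ : Q →* Module.End ℤ_[p] M} (hD : D k ρ)
    (hch : Chain ρ) : p ^ (k + 1) ∣ (commutator Q).index := by
  have hpp : p.Prime := Fact.out
  obtain ⟨χ, L, e, n, hL, he, hn, h3, h4, h5⟩ := hD
  have hu : ∃ h : Q, ¬ p ∣ (χ h).toAdd.val := by
    by_contra hc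
    push Not at hc
    have h6 : ∀ h : Q, ρ h n - n ∈ L := by
      intro h
      have h7 := h4 h _ (ZMod.natCast_zmod_val _)
      obtain ⟨c, hc⟩ := hc h
      rw [hc] at h7
      have h8 : ((p * c : ℕ) : ℤ_[p]) • e ∈ L := by
        push_cast
        rw [mul_comm, mul_smul]
        exact L.smul_mem _ he
      simpa using L.add_mem h7 h8
    have key : ∀ v : M, (∀ h : Q, ρ h v - v ∈ L) → Inv ρ (L ⊔ Submodule.span ℤ_[p] {v}) := by
      intro v hv g t ht
      obtain ⟨l, hl, s, hs, rfl⟩ := Submodule.mem_sup.1 ht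
      obtain ⟨c, rfl⟩ := Submodule.mem_span_singleton.1 hs
      have : ρ g (l + c • v) = (ρ g l + c • (ρ g v - v)) + c • v := by
        rw [map_add, map_smul, smul_sub]; abel
      rw [this]
      exact Submodule.add_mem_sup (L.add_mem (hL g l hl) (L.smul_mem _ (hv g)))
        (Submodule.smul_mem _ _ (Submodule.mem_span_singleton_self v))
    have hp1 : ¬ (p : ℤ_[p]) ∣ 1 := fun h => (PadicInt.prime_p (p := p)).not_isUnit (isUnit_of_dvd_one h)
    rcases hch _ _ (key e h3) (key n h6) with h | h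
    · have := h (Submodule.mem_sup_right (Submodule.mem_span_singleton_self e))
      obtain ⟨l, hl, s, hs, h7⟩ := Submodule.mem_sup.1 this
      obtain ⟨c, rfl⟩ := Submodule.mem_span_singleton.1 hs
      refine hp1 (h5 1 (-c) ?_).1
      rw [one_smul, ← h7, neg_smul]
      simpa using hl
    · have := h (Submodule.mem_sup_right (Submodule.mem_span_singleton_self n))
      obtain ⟨l, hl, s, hs, h7⟩ := Submodule.mem_sup.1 this
      obtain ⟨c, rfl⟩ := Submodule.mem_span_singleton.1 hs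
      refine hp1 (h5 (-c) 1 ?_).2
      rw [one_smul, ← h7, neg_smul]
      simpa using hl
  obtain ⟨h, hh⟩ := hu
  have hunit : IsUnit (χ h).toAdd := by
    rw [← ZMod.natCast_zmod_val (χ h).toAdd, ZMod.isUnit_iff_coprime]
    exact (Nat.Coprime.pow_right _ ((Nat.Prime.coprime_iff_not_dvd hpp).2 hh).symm)
  have hsurj : Function.Surjective χ := by
    intro y
    obtain ⟨v, hv⟩ := hunit
    refine ⟨h ^ (y.toAdd * (v⁻¹ : (ZMod (p ^ (k + 1)))ˣ)).val, ?_⟩
    rw [map_pow]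
    apply Multiplicative.toAdd.injective
    rw [toAdd_pow, nsmul_eq_mul, ZMod.natCast_zmod_val, ← hv, mul_assoc]
    simp
  have h7 : χ.ker.index = p ^ (k + 1) := by
    rw [Subgroup.index_ker, MonoidHom.range_eq_top.2 hsurj, Subgroup.card_top]
    simp
  rw [← h7]
  exact Subgroup.index_dvd_of_le (Abelianization.commutator_subset_ker χ)

end basic

end Pool.Agent.H495Z.PA
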