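import Mathlib
import Pool.Agent.H495Z.PartA2

/-! The cyclic case and the induction step for `exp_bound`. -/

set_option autoImplicit false

universe u

namespace Pool.Agent.H495Z.PA

open Finset

variable {p : ℕ} [Fact p.Prime] {Q : Type u} [Group Q] {M : Type} [AddCommGroup M]
  [Module ℤ_[p] M]

theorem cyclic_case (hp : Odd p) [Finite Q] (hQ : IsPGroup p Q) [Nontrivial M]
    (htf : ∀ t : M, (p : ℤ_[p]) • t = 0 → t = 0)
    (hsep : ∀ t : M, (∀ k : ℕ, ∃ t' : M, t = (p : ℤ_[p]) ^ k • t') → t = 0)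
    (ρ : Q →* Module.End ℤ_[p] M) (hρ : Function.Injective ρ) (hch : Chain ρ)
    (g : Q) (hg : ∀ x, x ∈ Subgroup.zpowers g) (k : ℕ) (y : Q) (hy : y ^ p ^ k ≠ 1) :
    D k ρ := by
  have hpp : p.Prime := Fact.out
  obtain ⟨N, hN⟩ := (IsPGroup.iff_orderOf.1 hQ) g
  have hnat : ∀ h : Q, ∃ m : ℕ, g ^ m = h := fun h =>
    (mem_powers_iff_mem_zpowers.2 (hg h) : h ∈ Submonoid.powers g)
  have hkN : k + 1 ≤ N := by
    by_contra hc
    apply hy
    obtain ⟨m, rfl⟩ := hnat y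
    have : g ^ p ^ k = 1 := by
      rw [← orderOf_dvd_iff_pow_eq_one, hN]
      exact pow_dvd_pow _ (by omega)
    rw [← pow_mul, mul_comm, pow_mul, this, one_pow]
  obtain ⟨N, rfl⟩ : ∃ N', N = N' + 1 := ⟨N - 1, by omega⟩
  have hcomm : ∀ h h' : Q, h * h' = h' * h := by
    intro h h'
    obtain ⟨m, rfl⟩ := hnat h
    obtain ⟨m', rfl⟩ := hnat h'
    rw [← pow_add, ← pow_add, add_comm]
  have hz1 : g ^ p ^ N ≠ 1 := by
    intro h
    have := orderOf_dvd_of_pow_eq_one h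
    rw [hN, Nat.pow_dvd_pow_iff_le_right hpp.one_lt] at this
    omega
  have hgN : g ^ p ^ (N + 1) = 1 := by rw [← hN, pow_orderOf_eq_one]
  have hzp : (g ^ p ^ N) ^ p = 1 := by rw [← pow_mul, ← pow_succ, hgN]
  have hg1 : g ≠ 1 := fun h => hz1 (by rw [h, one_pow])
  have hord : orderOf (Multiplicative.ofAdd (1 : ZMod (p ^ (k + 1)))) ∣ orderOf g := by
    rw [orderOf_ofAdd_eq_addOrderOf, ZMod.addOrderOf_one, hN]
    exact pow_dvd_pow _ hkN
  set γ : Module.End ℤ_[p] M := ρ g - 1 with hγ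
  have hγa : ∀ t, γ t = ρ g t - t := fun t => rfl
  have hγinj : ∀ t, γ t = 0 → t = 0 := fun t ht =>
    fix_central htf hsep ρ hρ hch g (fun h => hcomm h g) hg1 t (sub_eq_zero.1 ht)
  have hγc : ∀ h t, ρ h (γ t) = γ (ρ h t) := by
    intro h t
    rw [hγa, hγa, map_sub, ← rho_mul, hcomm h g, rho_mul]
  have h1 : ∀ (m : ℕ) (t : M), ∃ s, ρ (g ^ m) t - t = γ s := by
    intro m t
    induction m with
    | zero => exact ⟨0, by simp⟩
    | succ m ih =>
      obtain ⟨s, hs⟩ := ih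
      refine ⟨ρ (g ^ m) t + s, ?_⟩
      rw [map_add, ← hs, hγa, pow_succ', rho_mul]
      abel
  have h2 : ∀ (m : ℕ) (t : M), ∃ s, ρ (g ^ m) t - t - (m : ℤ_[p]) • γ t = γ (γ s) := by
    intro m t
    induction m with
    | zero => exact ⟨0, by simp⟩
    | succ m ih =>
      obtain ⟨s, hs⟩ := ih
      obtain ⟨s', hs'⟩ := h1 m t
      refine ⟨s + s', ?_⟩
      rw [map_add, map_add, ← hs, ← hs', map_sub, hγa (ρ (g ^ m) t), pow_succ', rho_mul]
      push_cast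
      rw [add_smul, one_smul]
      abel
  let W : Submodule ℤ_[p] M :=
    { carrier := {t | ∃ a b, t = γ a + (p : ℤ_[p]) • b}
      add_mem' := by
        rintro _ _ ⟨a, b, rfl⟩ ⟨a', b', rfl⟩
        exact ⟨a + a', b + b', by rw [map_add, smul_add]; abel⟩
      zero_mem' := ⟨0, 0, by simp⟩
      smul_mem' := by
        rintro c _ ⟨a, b, rfl⟩
        exact ⟨c • a, c • b, by rw [map_smul, smul_add, smul_comm c]⟩ }
  have hW1 : ∀ a, γ a ∈ W := fun a => ⟨a, 0, by simp⟩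
  have hW2 : ∀ b, (p : ℤ_[p]) • b ∈ W := fun b => ⟨0, b, by simp⟩
  have hn : ∃ n, n ∉ W := by
    by_contra hc
    push Not at hc
    have h3 : ∀ (j : ℕ) (t : M), ∃ a b, t = (γ ^ j) a + (p : ℤ_[p]) • b := by
      intro j t
      induction j with
      | zero => exact ⟨t, 0, by simp⟩
      | succ j ih =>
        obtain ⟨a, b, rfl⟩ := ih
        obtain ⟨a', b', rfl⟩ := hc a
        refine ⟨a', (γ ^ j) b' + b, ?_⟩
        rw [map_add, map_smul, smul_add, pow_succ, Module.End.mul_apply]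
        abel
    have h4 : ∀ a, ∃ b, (γ ^ p ^ (N + 1)) a = (p : ℤ_[p]) • b := by
      intro a
      obtain ⟨r, hr⟩ := Commute.exists_add_pow_prime_pow_eq hpp
        (Commute.neg_one_right (ρ g)) (N + 1)
      rw [← map_pow, hgN, map_one, (hp.pow).neg_one_pow, add_neg_cancel, zero_add,
        ← sub_eq_add_neg, ← hγ] at hr
      refine ⟨(ρ g * -1 * r) a, ?_⟩
      rw [hr, mul_assoc, mul_assoc, Module.End.mul_apply, mul_assoc]
      simp [Nat.cast_smul_eq_nsmul]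
    have h5 : ∀ t : M, ∃ b, t = (p : ℤ_[p]) • b := by
      intro t
      obtain ⟨a, b, rfl⟩ := h3 (p ^ (N + 1)) t
      obtain ⟨b', hb'⟩ := h4 a
      exact ⟨b' + b, by rw [hb', smul_add]⟩
    obtain ⟨t, ht⟩ := exists_ne (0 : M)
    apply ht
    apply hsep
    intro j
    induction j with
    | zero => exact ⟨t, by simp⟩
    | succ j ih =>
      obtain ⟨s, hs⟩ := ih
      obtain ⟨b, rfl⟩ := h5 s
      exact ⟨b, by rw [hs, pow_succ, mul_smul]⟩
  obtain ⟨n, hn⟩ := hn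
  have hdiv : ∀ l : ℤ_[p], l • n ∈ W → (p : ℤ_[p]) ∣ l := by
    intro l hl
    by_contra hc
    apply hn
    have hu : IsUnit l := by
      by_contra hu
      exact hc (by
        have := PadicInt.maximalIdeal_eq_span_p (p := p) ▸
          (show l ∈ IsLocalRing.maximalIdeal ℤ_[p] from hu)
        exact Ideal.mem_span_singleton.1 this)
    obtain ⟨v, rfl⟩ := hu
    have := W.smul_mem ((v⁻¹ : ℤ_[p]ˣ) : ℤ_[p]) hl
    simpa [← mul_smul] using this
  have hpn : (p : ℤ_[p]) • n ∈ W.map γ := by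
    have h6 : ∑ i ∈ range p, ρ ((g ^ p ^ N) ^ i) n = 0 :=
      fix_central htf hsep ρ hρ hch _ (fun h => hcomm h _) hz1 _ (norm_fixed ρ _ hzp n)
    have h7 : ∑ i ∈ range p, (ρ (g ^ (p ^ N * i)) n - n - ((p ^ N * i : ℕ) : ℤ_[p]) • γ n)
        ∈ W.map γ := by
      refine Submodule.sum_mem _ fun i _ => ?_
      obtain ⟨s, hs⟩ := h2 (p ^ N * i) n
      rw [hs]
      exact ⟨_, hW1 s, rfl⟩
    simp only [pow_mul] at h7
    rw [sum_sub_distrib, sum_sub_distrib, h6, ← sum_smul, ← Nat.cast_sum, ← mul_sum] at h7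
    have h8 : p ∣ ∑ i ∈ range p, i := by
      have h9 := Finset.sum_range_id_mul_two p
      have h10 : p ∣ (∑ i ∈ range p, i) * 2 := h9 ▸ Dvd.intro _ rfl
      exact (Nat.Coprime.dvd_mul_right (Nat.coprime_two_right.2 hp)).1 h10
    obtain ⟨c, hc⟩ := h8
    have h11 : ((p ^ N * ∑ i ∈ range p, i : ℕ) : ℤ_[p]) • γ n ∈ W.map γ := by
      refine ⟨(p : ℤ_[p]) • ((p ^ N * c : ℕ) : ℤ_[p]) • n, hW2 _, ?_⟩
      rw [map_smul, map_smul, ← mul_smul, hc]
      congr 1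
      push_cast
      ring
    have h12 := (W.map γ).neg_mem ((W.map γ).add_mem h7 h11)
    simpa [Nat.cast_smul_eq_nsmul] using h12
  have hpe : (p : ℤ_[p]) • γ n ∈ W.map γ := ⟨_, hW2 n, map_smul _ _ _⟩
  refine ⟨monoidHomOfForallMemZpowers hg hord, W.map γ, γ n, n, ?_, hpe, hpn, ?_, ?_, ?_⟩
  · rintro h _ ⟨_, ⟨a, b, rfl⟩, rfl⟩
    refine ⟨ρ h (γ a + (p : ℤ_[p]) • b), ⟨ρ h a, ρ h b, ?_⟩, (hγc _ _).symm⟩
    rw [map_add, map_smul, hγc]
  · intro h
    obtain ⟨m, rfl⟩ := hnat h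
    obtain ⟨s, hs⟩ := h1 m n
    rw [hγc, ← map_sub, hs]
    exact ⟨_, hW1 s, rfl⟩
  · intro h j hj
    obtain ⟨m, rfl⟩ := hnat h
    rw [map_pow, monoidHomOfForallMemZpowers_apply_gen, toAdd_pow, toAdd_ofAdd, nsmul_one] at hj
    obtain ⟨s, hs⟩ := h2 m n
    have h6 := smul_congr k _ _ hpe m j hj.symm
    have h7 : γ (γ s) ∈ W.map γ := ⟨_, hW1 s, rfl⟩
    rw [← hs] at h7
    simpa using (W.map γ).add_mem h7 h6
  · rintro l m ⟨w, hw, h6⟩
    have h7 : (p : ℤ_[p]) ∣ m := by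
      apply hdiv
      have : m • n = γ (w - l • n) := by rw [map_sub, map_smul, h6]; abel
      rw [this]
      exact hW1 _
    refine ⟨?_, h7⟩
    apply hdiv
    obtain ⟨c, rfl⟩ := h7
    obtain ⟨w', hw', h8⟩ := hpn
    have h9 : γ (l • n - (w - c • w')) = 0 := by
      rw [map_sub, map_sub, map_smul, map_smul, h6, h8, mul_comm, mul_smul]
      abel
    rw [sub_eq_zero.1 (hγinj _ h9)]
    exact W.sub_mem hw (W.smul_mem _ hw')

section ind

variable {C : Type u} [Group C] {W : Type} [AddCommGroup W] [Module ℤ_[p] W]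
  {I : Type u} [Fintype I] [MulAction Q I]

omit [Fintype I] in
theorem ind_chain (ρ : Q →* Module.End ℤ_[p] M) (ρ' : C →* Module.End ℤ_[p] W)
    (c : Q → I → C) (Ψ : (I → W) →ₗ[ℤ_[p]] M) (hΨ : Function.Injective Ψ)
    (hact : ∀ h w, ρ h (Ψ w) = Ψ (fun j => ρ' (c h (h⁻¹ • j)) (w (h⁻¹ • j)))) (i0 : I)
    (hch : Chain ρ) : Chain ρ' := by
  classical
  have key : ∀ U : Submodule ℤ_[p] W, Inv ρ' U →
      Inv ρ ((Submodule.pi Set.univ fun _ : I => U).map Ψ) := by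
    rintro U hU h _ ⟨w, hw, rfl⟩
    exact ⟨_, fun j _ => hU _ _ (hw _ trivial), (hact h w).symm⟩
  have key2 : ∀ U U' : Submodule ℤ_[p] W, (Submodule.pi Set.univ fun _ : I => U).map Ψ ≤
      (Submodule.pi Set.univ fun _ : I => U').map Ψ → U ≤ U' := by
    intro U U' h u hu
    obtain ⟨w, hw, h1⟩ := h ⟨fun _ => u, fun _ _ => hu, rfl⟩
    have := hw i0 trivial
    rwa [hΨ h1] at this
  intro U U' hU hU'
  exact (hch _ _ (key U hU) (key U' hU')).imp (key2 U U') (key2 U' U)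

theorem ind_D (k : ℕ) (ρ : Q →* Module.End ℤ_[p] M) (ρ' : C →* Module.End ℤ_[p] W)
    (c : Q → I → C) (hc1 : ∀ i, c 1 i = 1) (hc : ∀ h h' i, c (h * h') i = c h (h' • i) * c h' i)
    (Ψ : (I → W) →ₗ[ℤ_[p]] M) (hΨ : Function.Injective Ψ)
    (hact : ∀ h w, ρ h (Ψ w) = Ψ (fun j => ρ' (c h (h⁻¹ • j)) (w (h⁻¹ • j)))) [Nontrivial I]
    (hD : D k ρ') : D k ρ := by
  classical
  obtain ⟨i0, i1, hi⟩ := exists_pair_ne I
  obtain ⟨χ, L, e, n, hL, he, hn, h3, h4, h5⟩ := hD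
  let χ' : Q →* Multiplicative (ZMod (p ^ (k + 1))) :=
    { toFun := fun h => ∏ i, χ (c h i)
      map_one' := by simp [hc1]
      map_mul' := fun h h' => by
        simp only [hc, map_mul, prod_mul_distrib]
        congr 1
        exact Equiv.prod_comp (MulAction.toPerm h') fun i => χ (c h i) }
  let L0 : Submodule ℤ_[p] W := L ⊔ Submodule.span ℤ_[p] {e}
  have hL0 : ∀ w ∈ L0, ∀ g, ρ' g w - w ∈ L := by
    intro w hw g
    obtain ⟨l, hl, s, hs, rfl⟩ := Submodule.mem_sup.1 hw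
    obtain ⟨a, rfl⟩ := Submodule.mem_span_singleton.1 hs
    have : ρ' g (l + a • e) - (l + a • e) = ρ' g l - l + a • (ρ' g e - e) := by
      rw [map_add, map_smul, smul_sub]; abel
    rw [this]
    exact L.add_mem (L.sub_mem (hL g l hl) hl) (L.smul_mem _ (h3 g))
  have hLL0 : L ≤ L0 := le_sup_left
  have heL0 : e ∈ L0 := Submodule.mem_sup_right (Submodule.mem_span_singleton_self e)
  have hL0' : ∀ w ∈ L0, ∀ g, ρ' g w ∈ L0 := by
    intro w hw g
    simpa using L0.add_mem (hLL0 (hL0 w hw g)) hw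
  let Lt : Submodule ℤ_[p] (I → W) :=
    { carrier := {w | (∀ i, w i ∈ L0) ∧ ∑ i, w i ∈ L}
      add_mem' := fun {a b} ha hb => ⟨fun i => L0.add_mem (ha.1 i) (hb.1 i), by
        simp only [Pi.add_apply, sum_add_distrib]
        exact L.add_mem ha.2 hb.2⟩
      zero_mem' := ⟨fun i => L0.zero_mem, by simp⟩
      smul_mem' := fun a w hw => ⟨fun i => L0.smul_mem a (hw.1 i), by
        simp only [Pi.smul_apply, ← smul_sum]
        exact L.smul_mem a hw.2⟩ }
  have hsum : ∀ (h : Q) (w : I → W), ∑ j, ρ' (c h (h⁻¹ • j)) (w (h⁻¹ • j)) =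
      ∑ i, ρ' (c h i) (w i) := fun h w =>
    Equiv.sum_comp (MulAction.toPerm h⁻¹) fun i => ρ' (c h i) (w i)
  have hT : ∀ (h : Q) (w : I → W), (∀ i, w i ∈ L0) →
      (fun j => ρ' (c h (h⁻¹ • j)) (w (h⁻¹ • j))) - w ∈ Lt := by
    intro h w hw
    refine ⟨fun i => L0.sub_mem (hL0' _ (hw _) _) (hw _), ?_⟩
    simp only [Pi.sub_apply]
    rw [sum_sub_distrib, hsum, ← sum_sub_distrib]
    exact L.sum_mem fun i _ => hL0 _ (hw i) _
  have hse : ∀ i, (Pi.single i0 e : I → W) i ∈ L0 := by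
    intro i
    rw [Pi.single_apply]
    split_ifs
    · exact heL0
    · exact L0.zero_mem
  refine ⟨χ', Lt.map Ψ, Ψ (Pi.single i0 e), Ψ (fun _ => n), ?_, ?_, ?_, ?_, ?_, ?_⟩
  · rintro h _ ⟨w, hw, rfl⟩
    refine ⟨_, ?_, (hact h w).symm⟩
    simpa using Lt.add_mem (hT h w hw.1) hw
  · refine ⟨(p : ℤ_[p]) • Pi.single i0 e, ⟨fun i => L0.smul_mem _ (hse i), ?_⟩, map_smul _ _ _⟩
    simpa [← smul_sum] using he
  · refine ⟨(p : ℤ_[p]) • fun _ => n, ⟨fun i => hLL0 hn, ?_⟩, map_smul _ _ _⟩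
    exact L.sum_mem fun i _ => hn
  · intro h
    rw [hact, ← map_sub]
    exact ⟨_, hT h _ hse, rfl⟩
  · intro h j hj
    rw [hact, ← map_smul, ← map_sub, ← map_sub]
    have h6 : ∀ g, ρ' g n - n - (((χ g).toAdd.val : ℕ) : ℤ_[p]) • e ∈ L := fun g =>
      h4 g _ (ZMod.natCast_zmod_val _)
    refine ⟨_, ⟨fun i => ?_, ?_⟩, rfl⟩
    · refine L0.sub_mem ?_ (L0.smul_mem _ (hse i))
      have := L0.add_mem (hLL0 (h6 (c h (h⁻¹ • i))))
        (L0.smul_mem (((χ (c h (h⁻¹ • i))).toAdd.val : ℕ) : ℤ_[p]) heL0)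
      rwa [sub_add_cancel] at this
    · simp only [Pi.sub_apply, Pi.smul_apply]
      rw [sum_sub_distrib, sum_sub_distrib, hsum h (fun _ => n), ← sum_sub_distrib, ← smul_sum,
        Finset.sum_pi_single']
      have h7 := L.sum_mem (t := univ) fun i _ => h6 (c h i)
      rw [sum_sub_distrib, ← sum_smul, ← Nat.cast_sum] at h7
      have h8 := smul_congr k L e he (∑ i, (χ (c h i)).toAdd.val) j (by
        rw [hj]
        change _ = (∏ i, χ (c h i)).toAdd
        rw [toAdd_prod]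
        simp)
      simpa using L.add_mem h7 h8
  · intro l m hlm
    rw [← map_smul, ← map_smul, ← map_add] at hlm
    obtain ⟨w, hw, h6⟩ := hlm
    rw [hΨ h6] at hw
    obtain ⟨h7, h8⟩ := hw
    have h9 : (p : ℤ_[p]) ∣ m := by
      have h10 := h7 i1
      simp only [Pi.add_apply, Pi.smul_apply, Pi.single_eq_of_ne hi.symm, smul_zero,
        zero_add] at h10
      obtain ⟨l', hl', s, hs, h11⟩ := Submodule.mem_sup.1 h10
      obtain ⟨a, rfl⟩ := Submodule.mem_span_singleton.1 hs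
      refine (h5 (-a) m ?_).2
      rw [← h11, neg_smul]
      simpa using hl'
    refine ⟨?_, h9⟩
    obtain ⟨a, rfl⟩ := h9
    simp only [Pi.add_apply, Pi.smul_apply] at h8
    rw [sum_add_distrib, ← smul_sum, Finset.sum_pi_single'] at h8
    have h12 : ∑ _i : I, ((p : ℤ_[p]) * a) • n ∈ L := L.sum_mem fun i _ => by
      rw [mul_comm, mul_smul]
      exact L.smul_mem _ hn
    refine (h5 l 0 ?_).1
    simpa using L.sub_mem h8 h12

end ind

end Pool.Agent.H495Z.PA
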