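import Mathlib
import Pool.Agent.H495Z.Stmt
import Pool.Agent.H495Z.PartA1
import Pool.Agent.H495Z.PartA3

/-! `exp_bound` (task A). -/

set_option autoImplicit false

universe u

namespace Pool.Agent.H495Z

namespace PA

open Finset

/-- The statement proved by induction on the order of the group. -/
def Claim (p : ℕ) [Fact p.Prime] (k : ℕ) (Q : Type u) [Group Q] (inj : Prop) : Prop :=
  ∀ (M : Type) [AddCommGroup M] [Module ℤ_[p] M] [Nontrivial M],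
    (∀ t : M, (p : ℤ_[p]) • t = 0 → t = 0) →
    (∀ t : M, (∀ k : ℕ, ∃ t' : M, t = (p : ℤ_[p]) ^ k • t') → t = 0) →
    ∀ ρ : Q →* Module.End ℤ_[p] M, (inj → Function.Injective ρ) → Chain ρ →
    ∀ (Z : Subgroup Q), Z.Normal → (∀ x ∈ Z, ∀ y ∈ Z, Commute x y) →
    ∀ b : ℕ, (∀ g : Q, ∀ y ∈ Z, Commute (g ^ p ^ b) y) →
    ∀ y ∈ Z, ρ (y ^ p ^ (k + b)) ≠ 1 → D k ρ

variable {p : ℕ} [Fact p.Prime]

theorem claim_of_quot (k : ℕ) (Q : Type u) [Group Q]
    (h : ∀ (K : Subgroup Q) [K.Normal], Claim p k (Q ⧸ K) True) : Claim p k Q False := by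
  intro M _ _ _ htf hsep ρ _ hch Z hZn hZ b hb y hy hyk
  let σ : Q →* (Module.End ℤ_[p] M)ˣ := ρ.toHomUnits
  let ρ' : Q ⧸ σ.ker →* Module.End ℤ_[p] M :=
    (Units.coeHom _).comp (QuotientGroup.kerLift σ)
  have hρ' : ∀ g : Q, ρ' (QuotientGroup.mk' σ.ker g) = ρ g := fun g => rfl
  have hsurj := QuotientGroup.mk'_surjective σ.ker
  have hD := h σ.ker M htf hsep ρ'
    (fun _ => Units.val_injective.comp (QuotientGroup.kerLift_injective σ))
    (fun L L' hL hL' => hch L L' (fun g => hL (QuotientGroup.mk' σ.ker g))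
      (fun g => hL' (QuotientGroup.mk' σ.ker g)))
    (Z.map (QuotientGroup.mk' σ.ker)) (hZn.map _ hsurj) ?_ b ?_
    (QuotientGroup.mk' σ.ker y) ⟨y, hy, rfl⟩ (by rw [← map_pow, hρ']; exact hyk)
  · obtain ⟨χ, L, e, n, hL, he, hn, h3, h4, h5⟩ := hD
    exact ⟨χ.comp (QuotientGroup.mk' σ.ker), L, e, n, fun g => hL (QuotientGroup.mk' σ.ker g),
      he, hn, fun g => h3 (QuotientGroup.mk' σ.ker g), fun g => h4 (QuotientGroup.mk' σ.ker g), h5⟩
  · rintro _ ⟨a, ha, rfl⟩ _ ⟨a', ha', rfl⟩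
    exact (hZ a ha a' ha').map _
  · rintro g _ ⟨a, ha, rfl⟩
    obtain ⟨g, rfl⟩ := hsurj g
    rw [← map_pow]
    exact (hb g a ha).map _

theorem step (k : ℕ) (Q : Type u) [Group Q] [Finite Q]
    (ih : ∀ C : Subgroup Q, C ≠ ⊤ → Claim p k C False)
    (M : Type) [AddCommGroup M] [Module ℤ_[p] M]
    (htf : ∀ t : M, (p : ℤ_[p]) • t = 0 → t = 0)
    (hsep : ∀ t : M, (∀ k : ℕ, ∃ t' : M, t = (p : ℤ_[p]) ^ k • t') → t = 0)
    (ρ : Q →* Module.End ℤ_[p] M) (hρ : Function.Injective ρ) (hch : Chain ρ)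
    (Z : Subgroup Q) (hZn : Z.Normal) (hZ : ∀ x ∈ Z, ∀ y ∈ Z, Commute x y)
    (b : ℕ) (hb : ∀ g : Q, ∀ y ∈ Z, Commute (g ^ p ^ b) y)
    (y : Q) (hy : y ∈ Z) (hyk : ρ (y ^ p ^ (k + b)) ≠ 1)
    (x : Q) (hx1 : x ≠ 1) (t0 : M) (ht0 : t0 ≠ 0) (hxt : ρ x t0 = t0)
    (hxc : ∀ h h' : Q, h' * (h * x * h⁻¹ * x⁻¹) = (h * x * h⁻¹ * x⁻¹) * h')
    (hZx : ∀ y ∈ Z, y * x = x * y) : D k ρ := by
  classical
  let C : Subgroup Q := Subgroup.centralizer {x}
  have hC : ∀ g : Q, g ∈ C ↔ g * x = x * g := fun g => Subgroup.mem_centralizer_singleton_iff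
  have hCt : C ≠ ⊤ := by
    intro h
    exact ht0 (fix_central htf hsep ρ hρ hch x
      (fun g => (hC g).1 (h ▸ Subgroup.mem_top g)) hx1 t0 hxt)
  let W : Submodule ℤ_[p] M := LinearMap.eqLocus (ρ x) LinearMap.id
  have hW : ∀ t : M, t ∈ W ↔ ρ x t = t := fun t => Iff.rfl
  have hWC : ∀ g : C, ∀ t ∈ W, ρ g t ∈ W := by
    intro g t ht
    rw [hW] at ht ⊢
    rw [← rho_mul, ← (hC g).1 g.2, rho_mul, ht]
  let ρ' : C →* Module.End ℤ_[p] W :=
    { toFun := fun g => (ρ g).restrict (hWC g)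
      map_one' := by ext; simp
      map_mul' := fun g h => by ext; simp }
  have hρ' : ∀ (g : C) (w : W), (ρ' g w : M) = ρ g w := fun g w => rfl
  let _ : Fintype (Q ⧸ C) := Fintype.ofFinite _
  have hnt : Nontrivial (Q ⧸ C) := by
    rw [← Finite.one_lt_card_iff_nontrivial]
    exact Subgroup.one_lt_index_of_ne_top hCt
  have hcm : ∀ (h : Q) (i : Q ⧸ C), ((h • i).out)⁻¹ * (h * i.out) ∈ C := by
    intro h i
    rw [← QuotientGroup.eq, QuotientGroup.out_eq', ← smul_eq_mul, ← MulAction.Quotient.smul_mk,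
      QuotientGroup.out_eq']
  let c : Q → (Q ⧸ C) → C := fun h i => ⟨((h • i).out)⁻¹ * (h * i.out), hcm h i⟩
  have hc1 : ∀ i, c 1 i = 1 := by
    intro i
    apply Subtype.ext
    simp [c]
  have hc : ∀ h h' i, c (h * h') i = c h (h' • i) * c h' i := by
    intro h h' i
    apply Subtype.ext
    simp only [c, Subgroup.coe_mul, mul_smul]
    group
  let Ψ : ((Q ⧸ C) → W) →ₗ[ℤ_[p]] M :=
    ∑ i : Q ⧸ C, (ρ i.out).comp (W.subtype.comp (LinearMap.proj i))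
  have hΨa : ∀ w, Ψ w = ∑ i : Q ⧸ C, ρ i.out (w i) := by
    intro w
    simp [Ψ]
  have hΨ : Function.Injective Ψ := by
    rw [injective_iff_map_eq_zero]
    intro w hw
    rw [hΨa] at hw
    have h1 := indep htf hsep ρ hρ hch x (fun i : Q ⧸ C => (i.out * x * i.out⁻¹ * x⁻¹)⁻¹)
      (fun i h => (Commute.inv_right (hxc i.out h)).eq) ?_ univ (fun i => ρ i.out (w i)) ?_ hw
    · funext i
      apply Subtype.ext
      have h2 := congrArg (ρ i.out⁻¹) (h1 i (mem_univ i))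
      rw [← rho_mul] at h2
      simpa using h2
    · intro i j hij
      have h2 : i.out * x * i.out⁻¹ = j.out * x * j.out⁻¹ := mul_right_cancel (inv_injective hij)
      rw [← QuotientGroup.out_eq' i, ← QuotientGroup.out_eq' j, QuotientGroup.eq, hC]
      calc i.out⁻¹ * j.out * x = i.out⁻¹ * (j.out * x * j.out⁻¹) * j.out := by group
        _ = x * (i.out⁻¹ * j.out) := by rw [← h2]; group
    · intro i
      have h2 := (hW _).1 (w i).2
      conv_rhs => rw [← h2]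
      rw [← rho_mul, ← rho_mul, ← rho_mul]
      congr 2
      group
  have hact : ∀ h w, ρ h (Ψ w) = Ψ (fun j => ρ' (c h (h⁻¹ • j)) (w (h⁻¹ • j))) := by
    intro h w
    rw [hΨa, hΨa, map_sum, ← Equiv.sum_comp (MulAction.toPerm h)
      (fun j => ρ j.out (ρ' (c h (h⁻¹ • j)) (w (h⁻¹ • j)) : M))]
    refine sum_congr rfl fun i _ => ?_
    simp only [MulAction.toPerm_apply, inv_smul_smul, hρ', c]
    rw [← rho_mul, ← rho_mul]
    congr 2
    group
  have hWnt : Nontrivial W := ⟨⟨⟨t0, hxt⟩, 0, fun h => ht0 (congrArg Subtype.val h)⟩⟩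
  have hex : ∃ y' : C, (y' : Q) ∈ Z ∧ ρ' (y' ^ p ^ (k + b)) ≠ 1 := by
    by_contra hcon
    push Not at hcon
    apply hyk
    refine fix_normal htf hsep ρ hch {s | ∃ y' ∈ Z, s = y' ^ p ^ (k + b)} ?_ t0 ?_ ht0 _
      ⟨y, hy, rfl⟩
    · rintro _ ⟨y', hy', rfl⟩ h
      refine ⟨h⁻¹ * y' * h⁻¹⁻¹, hZn.conj_mem _ hy' _, ?_⟩
      rw [conj_pow, inv_inv]
    · rintro _ ⟨y', hy', rfl⟩
      have h1 := hcon ⟨y', (hC y').2 (hZx y' hy')⟩ hy'
      have h2 := hρ' (⟨y', (hC y').2 (hZx y' hy')⟩ ^ p ^ (k + b)) ⟨t0, hxt⟩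
      rw [h1] at h2
      exact h2.symm
  obtain ⟨y', hy', hyk'⟩ := hex
  refine ind_D k ρ ρ' c hc1 hc Ψ hΨ hact ?_
  refine ih C hCt W ?_ ?_ ρ' False.elim (ind_chain ρ ρ' c Ψ hΨ hact (1 : Q) hch)
    (Z.subgroupOf C) (hZn.subgroupOf C) ?_ b ?_ y' hy' hyk'
  · intro t ht
    exact Subtype.ext (htf t (congrArg Subtype.val ht))
  · intro t ht
    refine Subtype.ext (hsep t fun j => ?_)
    obtain ⟨t', ht'⟩ := ht j
    exact ⟨t', congrArg Subtype.val ht'⟩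
  · intro a ha a' ha'
    exact Subtype.ext (hZ a ha a' ha').eq
  · intro g a ha
    exact Subtype.ext (hb g a ha).eq

theorem claim_inj (hp : Odd p) (k : ℕ) (Q : Type u) [Group Q] [Finite Q] (hQ : IsPGroup p Q)
    (ih : ∀ C : Subgroup Q, C ≠ ⊤ → Claim p k C False) : Claim p k Q True := by
  intro M _ _ _ htf hsep ρ hρ hch Z hZn hZ b hb y hy hyk
  have hρ := hρ trivial
  by_cases hcyc : ∃ g : Q, Subgroup.zpowers g = ⊤
  · obtain ⟨g, hg⟩ := hcyc
    refine cyclic_case hp hQ htf hsep ρ hρ hch g (fun x => hg ▸ Subgroup.mem_top x) k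
      (y ^ p ^ b) fun h => hyk ?_
    rw [add_comm, pow_add, pow_mul, h, map_one]
  push Not at hcyc
  have main : ∀ (N : Subgroup Q) [N.Normal], (∀ a : Q, Subgroup.zpowers a ≠ N) →
      ∀ (Z : Subgroup Q), Z.Normal → (∀ x ∈ Z, ∀ y ∈ Z, Commute x y) →
      ∀ b : ℕ, (∀ g : Q, ∀ y ∈ Z, Commute (g ^ p ^ b) y) →
      ∀ y ∈ Z, ρ (y ^ p ^ (k + b)) ≠ 1 → (∀ y ∈ Z, ∀ x ∈ N, y * x = x * y) → D k ρ := by
    intro N _ hN Z hZn hZ b hb y hy hyk hZN
    obtain ⟨z, hzN, x, hxN, hz1, hzp, hzc, hxp, hxz, hxc⟩ := lemmaE hp hQ N hN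
    obtain ⟨i, t0, ht0, hxt⟩ := exists_fixed htf hsep ρ hρ hch x z hzc hz1 hzp hxp
    refine step k Q ih M htf hsep ρ hρ hch Z hZn hZ b hb y hy hyk (x * z ^ i) ?_ t0 ht0 hxt ?_
      fun y hy => hZN y hy _ (N.mul_mem hxN (N.pow_mem hzN i))
    · intro h
      apply hxz
      rw [mul_eq_one_iff_eq_inv.1 h]
      exact inv_mem (pow_mem (Subgroup.mem_zpowers z) i)
    · intro h h'
      have e : h * (x * z ^ i) * h⁻¹ * (x * z ^ i)⁻¹ = h * x * h⁻¹ * x⁻¹ := by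
        have h1 : z ^ i * h⁻¹ = h⁻¹ * z ^ i := (Commute.pow_right (hzc h⁻¹) i).eq.symm
        calc h * (x * z ^ i) * h⁻¹ * (x * z ^ i)⁻¹
            = h * x * (z ^ i * h⁻¹) * (z ^ i)⁻¹ * x⁻¹ := by group
          _ = h * x * h⁻¹ * x⁻¹ := by rw [h1]; group
      rw [e]
      exact hxc h h'
  by_cases hZc : ∃ a : Q, Subgroup.zpowers a = Z
  · obtain ⟨a, rfl⟩ := hZc
    have hcen : ∀ h : Q, Commute h (a ^ p ^ b) := by
      intro h
      obtain ⟨u, hu⟩ := Subgroup.mem_zpowers_iff.1 (hZn.conj_mem a (Subgroup.mem_zpowers a) h)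
      have h1 := cyc_pow hp hQ h a u hu.symm b (hb h a (Subgroup.mem_zpowers a))
      have h2 : h * a ^ p ^ b * h⁻¹ = a ^ p ^ b := by
        rw [← conj_pow, ← hu, ← zpow_natCast, ← zpow_mul, ← zpow_natCast,
          ← mul_one (a ^ ((p ^ b : ℕ) : ℤ)), ← h1, ← zpow_add]
        congr 1
        push_cast
        ring
      exact mul_inv_eq_iff_eq_mul.1 h2
    have hcen' : ∀ h : Q, ∀ y ∈ Subgroup.zpowers (a ^ p ^ b), Commute h y := by
      intro h y hy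
      obtain ⟨j, rfl⟩ := Subgroup.mem_zpowers_iff.1 hy
      exact (hcen h).zpow_right j
    refine main ⊤ hcyc (Subgroup.zpowers (a ^ p ^ b)) ⟨fun n hn g => ?_⟩
      (fun x _ y hy => hcen' x y hy) 0 (fun g y hy => hcen' _ y hy) (y ^ p ^ b) ?_ ?_
      fun y hy x _ => (hcen' x y hy).eq.symm
    · rw [(hcen' g n hn).eq]
      simpa using hn
    · obtain ⟨j, rfl⟩ := Subgroup.mem_zpowers_iff.1 hy
      refine Subgroup.mem_zpowers_iff.2 ⟨j, ?_⟩
      rw [← zpow_natCast, ← zpow_natCast, ← zpow_mul, ← zpow_mul, mul_comm]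
    · rwa [add_zero, ← pow_mul, ← pow_add, add_comm]
  · push Not at hZc
    exact main Z hZc Z hZn hZ b hb y hy hyk fun y hy x hx => (hZ y hy x hx).eq

theorem claim_all (hp : Odd p) (k : ℕ) (n : ℕ) : ∀ (Q : Type u) [Group Q] [Finite Q],
    IsPGroup p Q → Nat.card Q ≤ n → Claim p k Q False := by
  induction n with
  | zero =>
    intro Q _ _ _ h
    exact absurd Nat.card_pos (not_lt.2 h)
  | succ n ih =>
    intro Q _ _ hQ h
    refine claim_of_quot k Q fun K _ => ?_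
    refine claim_inj hp k (Q ⧸ K) (hQ.to_quotient K) fun C hC => ?_
    refine ih C ((hQ.to_quotient K).to_subgroup C) ?_
    have h1 : Nat.card (Q ⧸ K) ≤ Nat.card Q :=
      Nat.card_le_card_of_surjective _ (QuotientGroup.mk'_surjective K)
    have h2 : Nat.card C < Nat.card (Q ⧸ K) := by
      have h3 := C.card_le_card_group
      refine lt_of_le_of_ne h3 fun h4 => hC ?_
      exact (Subgroup.card_eq_iff_eq_top C).1 h4
    omega

end PA

/-- TASK A -/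
theorem exp_bound {p : ℕ} [Fact p.Prime] (hp : Odd p) (Q : Type u) [Group Q] [Finite Q]
    (hQ : IsPGroup p Q) (M : Type) [AddCommGroup M] [Module ℤ_[p] M] [Nontrivial M]
    (htf : ∀ t : M, (p : ℤ_[p]) • t = 0 → t = 0)
    (hsep : ∀ t : M, (∀ k : ℕ, ∃ t' : M, t = (p : ℤ_[p]) ^ k • t') → t = 0)
    (ρ : Q →* Module.End ℤ_[p] M) (hρ : Function.Injective ρ) (hch : Chain ρ)
    (Z : Subgroup Q) [Z.Normal] (hZ : ∀ x ∈ Z, ∀ y ∈ Z, Commute x y)
    (b k : ℕ) (hb : ∀ g : Q, ∀ y ∈ Z, Commute (g ^ p ^ b) y)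
    (y : Q) (hy : y ∈ Z) (hyk : y ^ p ^ (k + b) ≠ 1) :
    p ^ (k + 1) ∣ (commutator Q).index := by
  refine PA.D.dvd_index ?_ hch
  refine PA.claim_all hp k (Nat.card Q) Q hQ le_rfl M htf hsep ρ False.elim hch Z inferInstance
    hZ b hb y hy fun h => hyk (hρ ?_)
  rw [h, map_one]

end Pool.Agent.H495Z
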