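import Mathlib
import Pool.Agent.H495Z.Stmt

/-! Module theory for part C: a finite `p`-group acting on a lattice whose commutator series
has slowly growing indices acts uniserially. -/

set_option autoImplicit false
set_option maxHeartbeats 400000

universe u

namespace Pool.Agent.H495Z.PC

variable {p : ℕ} [Fact p.Prime] {Q : Type u} [Group Q] {M : Type} [AddCommGroup M]
  [Module ℤ_[p] M]

/-- The commutator submodule `[N, Q]`. -/
noncomputable def comm (ρ : Q →* Module.End ℤ_[p] M) (N : Submodule ℤ_[p] M) : Submodule ℤ_[p] M :=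
  Submodule.span ℤ_[p] {x | ∃ g : Q, ∃ t ∈ N, x = ρ g t - t}

/-- The commutator series. -/
noncomputable def ser (ρ : Q →* Module.End ℤ_[p] M) : ℕ → Submodule ℤ_[p] M
  | 0 => ⊤
  | i + 1 => comm ρ (ser ρ i)

theorem sub_mem_comm (ρ : Q →* Module.End ℤ_[p] M) {N : Submodule ℤ_[p] M} (g : Q) {t : M}
    (ht : t ∈ N) : ρ g t - t ∈ comm ρ N :=
  Submodule.subset_span ⟨g, t, ht, rfl⟩

theorem comm_le_iff (ρ : Q →* Module.End ℤ_[p] M) {N K : Submodule ℤ_[p] M} :
    comm ρ N ≤ K ↔ ∀ g : Q, ∀ t ∈ N, ρ g t - t ∈ K := by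
  constructor
  · intro h g t ht
    exact h (sub_mem_comm ρ g ht)
  · intro h
    refine Submodule.span_le.2 ?_
    rintro x ⟨g, t, ht, rfl⟩
    exact h g t ht

theorem comm_le (ρ : Q →* Module.End ℤ_[p] M) {N : Submodule ℤ_[p] M} (hN : Inv ρ N) :
    comm ρ N ≤ N :=
  (comm_le_iff ρ).2 fun g t ht => N.sub_mem (hN g t ht) ht

theorem inv_of_between (ρ : Q →* Module.End ℤ_[p] M) {N K : Submodule ℤ_[p] M}
    (h1 : comm ρ N ≤ K) (h2 : K ≤ N) : Inv ρ K := by
  intro g t ht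
  have := K.add_mem (h1 (sub_mem_comm ρ g (h2 ht))) ht
  simpa using this

theorem inv_comm (ρ : Q →* Module.End ℤ_[p] M) {N : Submodule ℤ_[p] M} (hN : Inv ρ N) :
    Inv ρ (comm ρ N) :=
  inv_of_between ρ le_rfl (comm_le ρ hN)

theorem inv_ser (ρ : Q →* Module.End ℤ_[p] M) : ∀ i, Inv ρ (ser ρ i)
  | 0 => fun _ _ _ => Submodule.mem_top
  | i + 1 => inv_comm ρ (inv_ser ρ i)

theorem ser_succ_le (ρ : Q →* Module.End ℤ_[p] M) (i : ℕ) : ser ρ (i + 1) ≤ ser ρ i :=
  comm_le ρ (inv_ser ρ i)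

theorem ser_antitone (ρ : Q →* Module.End ℤ_[p] M) : Antitone (ser ρ) :=
  antitone_nat_of_succ_le (ser_succ_le ρ)

theorem inv_sup (ρ : Q →* Module.End ℤ_[p] M) {A B : Submodule ℤ_[p] M} (hA : Inv ρ A)
    (hB : Inv ρ B) : Inv ρ (A ⊔ B) := by
  intro g t ht
  obtain ⟨a, ha, b, hb, rfl⟩ := Submodule.mem_sup.1 ht
  rw [map_add]
  exact Submodule.add_mem_sup (hA g a ha) (hB g b hb)

theorem inv_smul (ρ : Q →* Module.End ℤ_[p] M) (I : Ideal ℤ_[p]) {A : Submodule ℤ_[p] M}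
    (hA : Inv ρ A) : Inv ρ (I • A) := by
  intro g t ht
  refine Submodule.smul_induction_on ht ?_ ?_
  · intro r hr n hn
    rw [map_smul]
    exact Submodule.smul_mem_smul hr (hA g n hn)
  · intro x y hx hy
    rw [map_add]
    exact Submodule.add_mem _ hx hy

theorem comm_sup_le (ρ : Q →* Module.End ℤ_[p] M) {A B : Submodule ℤ_[p] M} (hB : Inv ρ B) :
    comm ρ (A ⊔ B) ≤ comm ρ A ⊔ B := by
  rw [comm_le_iff]
  intro g t ht
  obtain ⟨a, ha, b, hb, rfl⟩ := Submodule.mem_sup.1 ht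
  have : ρ g (a + b) - (a + b) = (ρ g a - a) + (ρ g b - b) := by
    rw [map_add]; abel
  rw [this]
  exact Submodule.add_mem_sup (sub_mem_comm ρ g ha) (B.sub_mem (hB g b hb) hb)

theorem comm_mono (ρ : Q →* Module.End ℤ_[p] M) {A B : Submodule ℤ_[p] M} (h : A ≤ B) :
    comm ρ A ≤ comm ρ B :=
  (comm_le_iff ρ).2 fun g _ ht => sub_mem_comm ρ g (h ht)

theorem isUnit_natCast_of_not_dvd {n : ℕ} (h : ¬ p ∣ n) : IsUnit (n : ℤ_[p]) := by
  rw [PadicInt.isUnit_iff]
  have h1 : ‖(n : ℤ_[p])‖ ≤ 1 := PadicInt.norm_le_one _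
  have h2 : ¬ ‖((n : ℤ) : ℤ_[p])‖ < 1 := by
    rw [PadicInt.norm_int_lt_one_iff_dvd]
    exact_mod_cast h
  have h3 : ((n : ℤ) : ℤ_[p]) = (n : ℤ_[p]) := by simp
  rw [h3] at h2
  exact le_antisymm h1 (not_lt.1 h2)

theorem dvd_card_of_ne_zero {X : Type} [AddCommGroup X] [Module ℤ_[p] X] [Finite X] {x : X}
    (hx : x ≠ 0) : p ∣ Nat.card X := by
  by_contra h
  have hu := isUnit_natCast_of_not_dvd (p := p) h
  have h0 : Nat.card X • x = 0 := card_nsmul_eq_zero'
  rw [← Nat.cast_smul_eq_nsmul ℤ_[p]] at h0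
  exact hx ((hu.smul_eq_zero).1 h0)

theorem finite_quot_span_pow (k : ℕ) :
    Finite (ℤ_[p] ⧸ (Ideal.span {(p : ℤ_[p]) ^ k} : Ideal ℤ_[p])) := by
  have hs : Function.Surjective (PadicInt.toZModPow (p := p) k) := by
    intro x
    refine ⟨(x.val : ℤ_[p]), ?_⟩
    haveI : NeZero (p ^ k) := ⟨pow_ne_zero _ (Fact.out : p.Prime).ne_zero⟩
    simp
  have e := RingHom.quotientKerEquivOfSurjective hs
  haveI : NeZero (p ^ k) := ⟨pow_ne_zero _ (Fact.out : p.Prime).ne_zero⟩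
  have h : Finite (ℤ_[p] ⧸ RingHom.ker (PadicInt.toZModPow (p := p) k)) :=
    Finite.of_equiv _ e.toEquiv.symm
  rwa [PadicInt.ker_toZModPow] at h

theorem finite_quot_of_le {A B : Submodule ℤ_[p] M} (h : A ≤ B) [Finite (M ⧸ A)] :
    Finite (M ⧸ B) :=
  Finite.of_surjective (Submodule.factor h) (Submodule.factor_surjective h)

/-- A `p`-group has a nonzero fixed vector on a finite section. -/
theorem exists_fixed (ρ : Q →* Module.End ℤ_[p] M) (hQ : IsPGroup p Q)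
    {K N : Submodule ℤ_[p] M} (hK : Inv ρ K) (hN : Inv ρ N) (hlt : K < N) [Finite (M ⧸ K)] :
    ∃ x ∈ N, x ∉ K ∧ ∀ g : Q, ρ g x - x ∈ K := by
  let X : Submodule ℤ_[p] (M ⧸ K) := N.map K.mkQ
  let act : Q → (M ⧸ K) →ₗ[ℤ_[p]] (M ⧸ K) := fun g => K.mapQ K (ρ g) (fun t ht => hK g t ht)
  have act_mk : ∀ g x, act g (K.mkQ x) = K.mkQ (ρ g x) := fun g x => rfl
  have act_mem : ∀ g, ∀ y ∈ X, act g y ∈ X := by
    rintro g y ⟨x, hx, rfl⟩
    exact ⟨ρ g x, hN g x hx, rfl⟩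
  letI : MulAction Q X :=
    { smul := fun g y => ⟨act g y.1, act_mem g y.1 y.2⟩
      one_smul := by
        rintro ⟨y, x, hx, rfl⟩
        apply Subtype.ext
        change act 1 (K.mkQ x) = K.mkQ x
        rw [act_mk, map_one]; rfl
      mul_smul := by
        rintro g h ⟨y, x, hx, rfl⟩
        apply Subtype.ext
        change act (g * h) (K.mkQ x) = act g (act h (K.mkQ x))
        rw [act_mk, act_mk, act_mk, map_mul]; rfl }
  obtain ⟨x0, hx0N, hx0K⟩ := SetLike.exists_of_lt hlt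
  have hne : (⟨K.mkQ x0, ⟨x0, hx0N, rfl⟩⟩ : X) ≠ 0 := by
    intro h
    have h' : K.mkQ x0 = 0 := congrArg Subtype.val h
    exact hx0K ((Submodule.Quotient.mk_eq_zero K).1 h')
  have hdvd : p ∣ Nat.card X := dvd_card_of_ne_zero hne
  have h0 : (0 : X) ∈ MulAction.fixedPoints Q X := by
    intro g
    apply Subtype.ext
    change act g 0 = 0
    exact map_zero _
  obtain ⟨b, hb, hb0⟩ := hQ.exists_fixed_point_of_prime_dvd_card_of_fixed_point X hdvd h0
  obtain ⟨y, x, hx, rfl⟩ := b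
  refine ⟨x, hx, ?_, ?_⟩
  · intro hxK
    apply hb0
    apply Subtype.ext
    exact ((Submodule.Quotient.mk_eq_zero K).2 hxK).symm
  · intro g
    have h1 : act g (K.mkQ x) = K.mkQ x := congrArg Subtype.val (hb g)
    rw [act_mk] at h1
    exact (Submodule.Quotient.eq K).1 h1

/-- Nakayama's lemma for the group algebra of a `p`-group. -/
theorem nak [Module.Finite ℤ_[p] M] (ρ : Q →* Module.End ℤ_[p] M) (hQ : IsPGroup p Q)
    {L N : Submodule ℤ_[p] M} (hL : Inv ρ L) (hN : Inv ρ N) (hle : L ≤ N) [Finite (M ⧸ N)]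
    (h : N ≤ L ⊔ comm ρ N) : L = N := by
  by_contra hne
  let I : Ideal ℤ_[p] := Ideal.span {(p : ℤ_[p]) ^ 1}
  have hNfg : N.FG := IsNoetherian.noetherian N
  haveI : Finite (ℤ_[p] ⧸ I) := finite_quot_span_pow 1
  haveI : Finite (M ⧸ I • N) := Submodule.finite_quotient_smul I hNfg
  have hI : I ≤ (⊥ : Ideal ℤ_[p]).jacobson := by
    rw [IsLocalRing.jacobson_eq_maximalIdeal ⊥ bot_ne_top, PadicInt.maximalIdeal_eq_span_p]
    simp [I]
  have hK0 : L ⊔ I • N < N := by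
    refine lt_of_le_of_ne (sup_le hle Submodule.smul_le_right) ?_
    intro h1
    exact hne (le_antisymm hle (Submodule.le_of_le_smul_of_le_jacobson_bot hNfg hI h1.ge))
  let S : Set (Submodule ℤ_[p] M) := {K | Inv ρ K ∧ L ⊔ I • N ≤ K ∧ K < N}
  have hS : S.Nonempty := ⟨L ⊔ I • N, inv_sup ρ hL (inv_smul ρ I hN), le_rfl, hK0⟩
  obtain ⟨K, ⟨hKinv, hK1, hK2⟩, hmax⟩ :=
    (set_has_maximal_iff_noetherian.2 (inferInstance : IsNoetherian ℤ_[p] M)) S hS
  haveI : Finite (M ⧸ K) := finite_quot_of_le (le_sup_right.trans hK1)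
  obtain ⟨x, hxN, hxK, hx⟩ := exists_fixed ρ hQ hKinv hN hK2
  let K' : Submodule ℤ_[p] M := K ⊔ Submodule.span ℤ_[p] {x}
  have hcomm : comm ρ K' ≤ K := by
    rw [comm_le_iff]
    intro g t ht
    obtain ⟨a, ha, b, hb, rfl⟩ := Submodule.mem_sup.1 ht
    obtain ⟨c, rfl⟩ := Submodule.mem_span_singleton.1 hb
    have : ρ g (a + c • x) - (a + c • x) = (ρ g a - a) + c • (ρ g x - x) := by
      rw [map_add, map_smul, smul_sub]; abel
    rw [this]
    exact K.add_mem (K.sub_mem (hKinv g a ha) ha) (K.smul_mem c (hx g))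
  have hK'inv : Inv ρ K' := inv_of_between ρ (hcomm.trans le_sup_left) le_rfl
  have hK'N : K' ≤ N := sup_le hK2.le ((Submodule.span_singleton_le_iff_mem _ _).2 hxN)
  have hKK' : K < K' := by
    refine lt_of_le_of_ne le_sup_left ?_
    intro h1
    apply hxK
    rw [h1]
    exact Submodule.mem_sup_right (Submodule.mem_span_singleton_self x)
  have hK'eq : K' = N := by
    by_contra h1
    exact hmax K' ⟨hK'inv, hK1.trans le_sup_left, lt_of_le_of_ne hK'N h1⟩ hKK'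
  rw [hK'eq] at hcomm
  exact hK2.not_ge (h.trans (sup_le (le_sup_left.trans hK1) hcomm))

/-- The index of a submodule. -/
noncomputable def idx (A : Submodule ℤ_[p] M) : ℕ := A.toAddSubgroup.index

theorem finite_of_idx {A : Submodule ℤ_[p] M} (h : idx A ≠ 0) : Finite (M ⧸ A) :=
  Nat.finite_of_card_ne_zero h

theorem idx_ne_zero (A : Submodule ℤ_[p] M) [Finite (M ⧸ A)] : idx A ≠ 0 := by
  change Nat.card (M ⧸ A) ≠ 0
  exact Nat.card_pos.ne'

theorem idx_le_of_le {A B : Submodule ℤ_[p] M} (h : A ≤ B) (hA : idx A ≠ 0) : idx B ≤ idx A :=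
  Nat.le_of_dvd (Nat.pos_of_ne_zero hA) (AddSubgroup.index_dvd_of_le (H := A.toAddSubgroup)
    (K := B.toAddSubgroup) h)

theorem mul_idx_le {A B : Submodule ℤ_[p] M} (h : A < B) (hA : idx A ≠ 0) :
    p * idx B ≤ idx A := by
  have h1 : A.toAddSubgroup.relIndex B.toAddSubgroup * idx B = idx A :=
    AddSubgroup.relIndex_mul_index (H := A.toAddSubgroup) (K := B.toAddSubgroup) h.le
  have h2 : A.toAddSubgroup.relIndex B.toAddSubgroup ≠ 0 := by
    intro h0
    rw [h0, zero_mul] at h1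
    exact hA h1.symm
  have h3 : p ∣ A.toAddSubgroup.relIndex B.toAddSubgroup := by
    by_contra hn
    have hu := isUnit_natCast_of_not_dvd (p := p) hn
    obtain ⟨x, hxB, hxA⟩ := SetLike.exists_of_lt h
    have h4 : A.toAddSubgroup.relIndex B.toAddSubgroup • x ∈ A.toAddSubgroup :=
      AddSubgroup.nsmul_relIndex_mem A.toAddSubgroup (K := B.toAddSubgroup) hxB
    rw [← Nat.cast_smul_eq_nsmul ℤ_[p]] at h4
    exact hxA ((A.smul_mem_iff_of_isUnit hu).1 h4)
  rw [← h1]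
  exact Nat.mul_le_mul_right _ (Nat.le_of_dvd (Nat.pos_of_ne_zero h2) h3)

theorem idx_bot_eq_zero [Infinite M] : idx (⊥ : Submodule ℤ_[p] M) = 0 := by
  unfold idx
  rw [Submodule.bot_toAddSubgroup, AddSubgroup.index_bot]
  exact Nat.card_eq_zero_of_infinite

theorem ser_lt [Module.Finite ℤ_[p] M] [Infinite M] (ρ : Q →* Module.End ℤ_[p] M)
    (hQ : IsPGroup p Q) (hfin : ∀ i, idx (ser ρ i) ≠ 0) (i : ℕ) : ser ρ (i + 1) < ser ρ i := by
  refine lt_of_le_of_ne (ser_succ_le ρ i) ?_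
  intro h
  haveI := finite_of_idx (hfin i)
  have h1 : (⊥ : Submodule ℤ_[p] M) = ser ρ i := by
    refine nak ρ hQ (fun g t ht => ?_) (inv_ser ρ i) bot_le ?_
    · rw [(Submodule.mem_bot _).1 ht, map_zero]
      exact Submodule.zero_mem _
    · rw [bot_sup_eq]
      exact h.ge
  exact hfin i (by rw [← h1]; exact idx_bot_eq_zero)

/-- Eventually consecutive terms of the series are covering pairs. -/
theorem eventually_covBy [Module.Finite ℤ_[p] M] [Infinite M] (ρ : Q →* Module.End ℤ_[p] M)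
    (hQ : IsPGroup p Q) (C : ℕ) (hfin : ∀ i, idx (ser ρ i) ≠ 0)
    (hb : ∀ i, idx (ser ρ i) ≤ p ^ (i + C)) :
    ∃ i0, ∀ j, i0 ≤ j → ser ρ (j + 1) ⋖ ser ρ j := by
  have hp : 1 < p := (Fact.out : p.Prime).one_lt
  by_contra hcon
  push Not at hcon
  have step : ∀ j n, p ^ (j + n) ≤ idx (ser ρ j) → p ^ (j + 1 + n) ≤ idx (ser ρ (j + 1)) := by
    intro j n h
    calc p ^ (j + 1 + n) = p * p ^ (j + n) := by ring
      _ ≤ p * idx (ser ρ j) := Nat.mul_le_mul_left _ h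
      _ ≤ _ := mul_idx_le (ser_lt ρ hQ hfin j) (hfin _)
  have step' : ∀ j n, p ^ (j + n) ≤ idx (ser ρ j) → ∀ t,
      p ^ (j + t + n) ≤ idx (ser ρ (j + t)) := by
    intro j n h t
    induction t with
    | zero => exact h
    | succ t ih => exact step (j + t) n ih
  have key : ∀ n, ∃ j, p ^ (j + n) ≤ idx (ser ρ j) := by
    intro n
    induction n with
    | zero => exact ⟨0, by rw [pow_zero]; exact Nat.pos_of_ne_zero (hfin 0)⟩
    | succ n ih =>
      obtain ⟨j, hj⟩ := ih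
      obtain ⟨j', hjj', hj'⟩ := hcon j
      obtain ⟨t, rfl⟩ := Nat.exists_eq_add_of_le hjj'
      have h1 := step' j n hj t
      obtain ⟨K, hK1, hK2⟩ := exists_lt_lt_of_not_covBy (ser_lt ρ hQ hfin (j + t)) hj'
      have h2 : p * idx K ≤ idx (ser ρ (j + t + 1)) := mul_idx_le hK1 (hfin _)
      have hK0 : idx K ≠ 0 := by
        haveI := finite_of_idx (hfin (j + t + 1))
        haveI : Finite (M ⧸ K) := finite_quot_of_le hK1.le
        exact idx_ne_zero K
      have h3 : p * idx (ser ρ (j + t)) ≤ idx K := mul_idx_le hK2 hK0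
      refine ⟨j + t + 1, ?_⟩
      calc p ^ (j + t + 1 + (n + 1)) = p * (p * p ^ (j + t + n)) := by ring
        _ ≤ p * (p * idx (ser ρ (j + t))) :=
          Nat.mul_le_mul_left _ (Nat.mul_le_mul_left _ h1)
        _ ≤ p * idx K := Nat.mul_le_mul_left _ h3
        _ ≤ _ := h2
  obtain ⟨j, hj⟩ := key (C + 1)
  have h := hj.trans (hb j)
  rw [Nat.pow_le_pow_iff_right hp] at h
  omega

theorem exists_ser_le [Module.Finite ℤ_[p] M] (ρ : Q →* Module.End ℤ_[p] M)
    (hQ : IsPGroup p Q) {P : Submodule ℤ_[p] M} (hP : Inv ρ P) [Finite (M ⧸ P)] :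
    ∃ j, ser ρ j ≤ P := by
  have hp : 1 < p := (Fact.out : p.Prime).one_lt
  by_contra hcon
  push Not at hcon
  have hfin : ∀ j, idx (ser ρ j ⊔ P) ≠ 0 := fun j => by
    haveI : Finite (M ⧸ (ser ρ j ⊔ P)) := finite_quot_of_le le_sup_right
    exact idx_ne_zero _
  have hlt : ∀ j, ser ρ (j + 1) ⊔ P < ser ρ j ⊔ P := by
    intro j
    refine lt_of_le_of_ne (sup_le_sup_right (ser_succ_le ρ j) P) ?_
    intro h
    haveI : Finite (M ⧸ (ser ρ j ⊔ P)) := finite_quot_of_le le_sup_right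
    have h1 : P = ser ρ j ⊔ P := by
      refine nak ρ hQ hP (inv_sup ρ (inv_ser ρ j) hP) le_sup_right ?_
      rw [← h]
      refine sup_le ?_ le_sup_left
      rw [h]
      exact (comm_mono ρ le_sup_left).trans le_sup_right
    exact hcon j (by rw [h1]; exact le_sup_left)
  have key : ∀ j, j < idx (ser ρ j ⊔ P) := by
    intro j
    induction j with
    | zero => exact Nat.pos_of_ne_zero (hfin 0)
    | succ j ih =>
      have h := mul_idx_le (hlt j) (hfin (j + 1))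
      nlinarith
  have h1 := key (idx P)
  have h2 : idx (ser ρ (idx P) ⊔ P) ≤ idx P := idx_le_of_le le_sup_right (idx_ne_zero P)
  omega

theorem eq_bot_of_le_ser [Module.Finite ℤ_[p] M] (ρ : Q →* Module.End ℤ_[p] M)
    (hQ : IsPGroup p Q) {L : Submodule ℤ_[p] M} (hL : ∀ j, L ≤ ser ρ j) : L = ⊥ := by
  let I : Ideal ℤ_[p] := Ideal.span {(p : ℤ_[p])}
  have hI : I ≠ ⊤ := by
    have : I = IsLocalRing.maximalIdeal ℤ_[p] := PadicInt.maximalIdeal_eq_span_p.symm
    rw [this]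
    exact (IsLocalRing.maximalIdeal.isMaximal _).ne_top
  have hK := Ideal.iInf_pow_smul_eq_bot_of_isLocalRing (M := M) I hI
  rw [eq_bot_iff, ← hK]
  refine le_iInf fun k => ?_
  have hIk : I ^ k = Ideal.span {(p : ℤ_[p]) ^ k} := Ideal.span_singleton_pow _ _
  haveI : Finite (ℤ_[p] ⧸ I ^ k) := by rw [hIk]; exact finite_quot_span_pow k
  haveI : Finite (M ⧸ (I ^ k • (⊤ : Submodule ℤ_[p] M))) :=
    Submodule.finite_quotient_smul (I ^ k) Module.Finite.fg_top
  obtain ⟨j, hj⟩ := exists_ser_le ρ hQ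
    (inv_smul ρ (I ^ k) (A := ⊤) (fun _ _ _ => Submodule.mem_top))
  exact (hL j).trans hj

theorem eq_ser_or_bot [Module.Finite ℤ_[p] M] (ρ : Q →* Module.End ℤ_[p] M)
    (hQ : IsPGroup p Q) (hfin : ∀ i, idx (ser ρ i) ≠ 0) {i0 : ℕ}
    (hcov : ∀ j, i0 ≤ j → ser ρ (j + 1) ⋖ ser ρ j) {L : Submodule ℤ_[p] M} (hL : Inv ρ L)
    (hle : L ≤ ser ρ i0) : L = ⊥ ∨ ∃ j, L = ser ρ j := by
  classical
  by_cases hall : ∀ j, L ≤ ser ρ j
  · exact Or.inl (eq_bot_of_le_ser ρ hQ hall)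
  right
  push Not at hall
  have hspec := Nat.find_spec hall
  have hgt : i0 < Nat.find hall := by
    by_contra h
    exact hspec (hle.trans (ser_antitone ρ (not_lt.1 h)))
  obtain ⟨j, hj⟩ : ∃ j, Nat.find hall = j + 1 := ⟨Nat.find hall - 1, by omega⟩
  have hLj : L ≤ ser ρ j := by
    by_contra h
    exact Nat.find_min hall (by omega : j < Nat.find hall) h
  rw [hj] at hspec
  have hc := hcov j (by omega)
  haveI := finite_of_idx (hfin j)
  refine ⟨j, nak ρ hQ hL (inv_ser ρ j) hLj ?_⟩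
  change ser ρ j ≤ L ⊔ ser ρ (j + 1)
  rcases hc.eq_or_eq (c := L ⊔ ser ρ (j + 1)) le_sup_right (sup_le hLj (ser_succ_le ρ j)) with
    h | h
  · exact absurd (le_sup_left.trans h.le) hspec
  · exact h.ge

/-- The uniseriality criterion. -/
theorem chain_of_bound [Module.Finite ℤ_[p] M] [Infinite M] [Module.IsTorsionFree ℤ_[p] M]
    (ρ : Q →* Module.End ℤ_[p] M)
    (hQ : IsPGroup p Q) (C : ℕ) (hfin : ∀ i, idx (ser ρ i) ≠ 0)
    (hb : ∀ i, idx (ser ρ i) ≤ p ^ (i + C)) : Chain ρ := by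
  obtain ⟨i0, hcov⟩ := eventually_covBy ρ hQ C hfin hb
  let a : ℤ_[p] := (idx (ser ρ i0) : ℤ_[p])
  have ha : a ≠ 0 := Nat.cast_ne_zero.2 (hfin i0)
  let f : M →ₗ[ℤ_[p]] M := a • LinearMap.id
  have hf : ∀ x, f x = a • x := fun x => rfl
  have hinj : Function.Injective f := fun x y h => smul_right_injective M ha h
  have hmem : ∀ x, f x ∈ ser ρ i0 := by
    intro x
    rw [hf, Nat.cast_smul_eq_nsmul]
    exact AddSubgroup.nsmul_index_mem (ser ρ i0).toAddSubgroup x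
  have hinv : ∀ L, Inv ρ L → Inv ρ (L.map f) := by
    rintro L hL g _ ⟨t, ht, rfl⟩
    exact ⟨ρ g t, hL g t ht, by rw [hf, hf, map_smul]⟩
  have hle : ∀ L : Submodule ℤ_[p] M, L.map f ≤ ser ρ i0 := by
    rintro L _ ⟨t, -, rfl⟩
    exact hmem t
  intro L L' hL hL'
  have key : L.map f ≤ L'.map f ∨ L'.map f ≤ L.map f := by
    rcases eq_ser_or_bot ρ hQ hfin hcov (hinv L hL) (hle L) with h | ⟨j, h⟩
    · left; rw [h]; exact bot_le
    rcases eq_ser_or_bot ρ hQ hfin hcov (hinv L' hL') (hle L') with h' | ⟨j', h'⟩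
    · right; rw [h']; exact bot_le
    rw [h, h']
    rcases le_total j j' with hj | hj
    · exact Or.inr (ser_antitone ρ hj)
    · exact Or.inl (ser_antitone ρ hj)
  rcases key with h | h
  · exact Or.inl ((Submodule.map_le_map_iff_of_injective hinj _ _).1 h)
  · exact Or.inr ((Submodule.map_le_map_iff_of_injective hinj _ _).1 h)

/-- A uniserial lattice is spanned by one orbit. -/
theorem le_card_of_chain {d : ℕ} [Finite Q] (ρ : Q →* Module.End ℤ_[p] (Fin d → ℤ_[p]))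
    (hd : 1 ≤ d) (hρ : Chain ρ) : d ≤ Nat.card Q := by
  classical
  haveI : Nonempty (Fin d) := ⟨⟨0, hd⟩⟩
  let S : Fin d → Submodule ℤ_[p] (Fin d → ℤ_[p]) := fun i =>
    Submodule.span ℤ_[p] (Set.range fun g : Q => ρ g (Pi.single i 1))
  have hS : ∀ i, Inv ρ (S i) := by
    intro i g t ht
    have : (S i).map (ρ g) ≤ S i := by
      rw [Submodule.map_span_le]
      rintro _ ⟨h, rfl⟩
      refine Submodule.subset_span ⟨g * h, ?_⟩
      simp only [map_mul, Module.End.mul_apply]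
    exact this ⟨t, ht, rfl⟩
  obtain ⟨i, hi⟩ := Set.finite_univ.exists_maximalFor S (Set.univ : Set (Fin d)) Set.univ_nonempty
  have hall : ∀ j, S j ≤ S i := by
    intro j
    rcases hρ (S j) (S i) (hS j) (hS i) with h | h
    · exact h
    · exact hi.2 (Set.mem_univ j) h
  have htop : S i = ⊤ := by
    rw [eq_top_iff, ← (Pi.basisFun ℤ_[p] (Fin d)).span_eq, Submodule.span_le]
    rintro _ ⟨j, rfl⟩
    apply hall j
    refine Submodule.subset_span ⟨1, ?_⟩
    simp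
  haveI := Fintype.ofFinite Q
  have h1 := finrank_range_le_card (R := ℤ_[p]) (fun g : Q => ρ g (Pi.single i 1))
  have h2 : Set.finrank ℤ_[p] (Set.range fun g : Q => ρ g (Pi.single i 1)) = d := by
    change Module.finrank ℤ_[p] (S i) = d
    rw [htop, finrank_top]
    simp
  rw [h2] at h1
  rwa [Nat.card_eq_fintype_card]

end Pool.Agent.H495Z.PC
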