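import Mathlib
import Pool.Agent.H495Z.Stmt
import Pool.Agent.H495Z.PartC1

/-! Part C: the uniserial representation attached to a space group of finite coclass. -/

set_option autoImplicit false
set_option maxHeartbeats 400000

universe u

namespace Pool.Agent.H495Z

namespace PC

variable {p : ℕ} [Fact p.Prime]

/-- A continuous additive self-map of `ℤ_p^d` is linear. -/
theorem map_smul_of_continuous {d : ℕ} (φ : (Fin d → ℤ_[p]) →+ (Fin d → ℤ_[p]))
    (hφ : Continuous φ) (a : ℤ_[p]) (x : Fin d → ℤ_[p]) : φ (a • x) = a • φ x := by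
  have h := (PadicInt.denseRange_natCast (p := p)).equalizer
    (g := fun a : ℤ_[p] => φ (a • x)) (h := fun a : ℤ_[p] => a • φ x)
    (hφ.comp (continuous_id.smul continuous_const)) (continuous_id.smul continuous_const)
    (by
      funext n
      simp only [Function.comp_apply, Nat.cast_smul_eq_nsmul, map_nsmul])
  exact congrFun h a

theorem isCompact_submodule {d : ℕ} (L : Submodule ℤ_[p] (Fin d → ℤ_[p])) :
    IsCompact (L : Set (Fin d → ℤ_[p])) := by
  obtain ⟨n, v, hv⟩ := Submodule.fg_iff_exists_fin_generating_family.1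
    (IsNoetherian.noetherian L)
  have h1 : (L : Set (Fin d → ℤ_[p])) = Set.range fun c : Fin n → ℤ_[p] => ∑ i, c i • v i := by
    ext x
    rw [← hv]
    exact Submodule.mem_span_range_iff_exists_fun ℤ_[p]
  rw [h1]
  refine isCompact_range ?_
  exact continuous_finset_sum _ fun i _ => (continuous_apply i).smul continuous_const

section

variable {R : Type u} [Group R] [TopologicalSpace R] [IsTopologicalGroup R] {T : Subgroup R}
  [hTn : T.Normal] {d : ℕ} (e : T ≃ₜ* Multiplicative (Fin d → ℤ_[p]))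

/-- Conjugation on the translation subgroup. -/
def cj (g : R) (t : T) : T := ⟨g * t * g⁻¹, hTn.conj_mem _ t.2 g⟩

omit [TopologicalSpace R] [IsTopologicalGroup R] in
theorem cj_mul (g : R) (s t : T) : cj g (s * t) = cj g s * cj g t := by
  apply Subtype.ext
  simp [cj, mul_assoc]

theorem continuous_cj (g : R) : Continuous (cj (T := T) g) := by
  unfold cj
  exact Continuous.subtype_mk (by fun_prop) _

/-- Conjugation transported to the lattice, as an additive map. -/
noncomputable def conjAdd (g : R) : (Fin d → ℤ_[p]) →+ (Fin d → ℤ_[p]) :=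
  AddMonoidHom.mk' (fun m => (e (cj g (e.symm (Multiplicative.ofAdd m)))).toAdd) (by
    intro a b
    rw [ofAdd_add, map_mul, cj_mul, map_mul, toAdd_mul])

theorem continuous_conjAdd (g : R) : Continuous (conjAdd e g) :=
  continuous_toAdd.comp (e.continuous.comp ((continuous_cj g).comp
    (e.symm.continuous.comp continuous_ofAdd)))

/-- Conjugation transported to the lattice, as a linear map. -/
noncomputable def conjLin (g : R) : Module.End ℤ_[p] (Fin d → ℤ_[p]) where
  toFun := conjAdd e g
  map_add' := map_add _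
  map_smul' := map_smul_of_continuous _ (continuous_conjAdd e g)

theorem conjLin_apply (g : R) (m : Fin d → ℤ_[p]) :
    conjLin e g m = (e (cj g (e.symm (Multiplicative.ofAdd m)))).toAdd := rfl

theorem conjLin_e (g : R) (t : T) : conjLin e g (e t).toAdd = (e (cj g t)).toAdd := by
  rw [conjLin_apply, ofAdd_toAdd, e.symm_apply_apply]

/-- The conjugation representation of `R`. -/
noncomputable def rho0 : R →* Module.End ℤ_[p] (Fin d → ℤ_[p]) where
  toFun := conjLin e
  map_one' := by
    refine LinearMap.ext fun m => ?_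
    rw [conjLin_apply]
    have : ∀ t : T, cj (1 : R) t = t := fun t => Subtype.ext (by simp [cj])
    rw [this, e.apply_symm_apply]
    rfl
  map_mul' := by
    intro g h
    refine LinearMap.ext fun m => ?_
    rw [Module.End.mul_apply, conjLin_apply e h, conjLin_e, conjLin_apply]
    congr 2
    apply Subtype.ext
    simp [cj, mul_assoc]

theorem rho0_e (g : R) (t : T) : rho0 e g (e t).toAdd = (e (cj g t)).toAdd := conjLin_e e g t

theorem rho0_eq_one_iff (g : R) : rho0 e g = 1 ↔ ∀ t ∈ T, g * t * g⁻¹ = t := by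
  constructor
  · intro h t ht
    have h1 := rho0_e e g ⟨t, ht⟩
    rw [h, Module.End.one_apply] at h1
    have h2 := e.injective (Multiplicative.toAdd.injective h1)
    exact (congrArg Subtype.val h2).symm
  · intro h
    refine LinearMap.ext fun m => ?_
    obtain ⟨t, ht⟩ := e.surjective (Multiplicative.ofAdd m)
    have hm : m = (e t).toAdd := by rw [ht]; rfl
    have h1 : cj g t = t := Subtype.ext (h t t.2)
    rw [hm, rho0_e, h1, Module.End.one_apply]

theorem rho0_of_mem {g : R} (hg : g ∈ T) : rho0 e g = 1 := by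
  rw [rho0_eq_one_iff]
  intro t ht
  have h1 : (⟨g, hg⟩ : T) * ⟨t, ht⟩ = ⟨t, ht⟩ * ⟨g, hg⟩ := by
    apply e.injective
    rw [map_mul, map_mul, mul_comm]
  have h2 : g * t = t * g := congrArg Subtype.val h1
  rw [h2, mul_inv_cancel_right]

/-- The representation of the point group. -/
noncomputable def rho : (R ⧸ T) →* Module.End ℤ_[p] (Fin d → ℤ_[p]) :=
  QuotientGroup.lift T (rho0 e) (fun _ hg => rho0_of_mem e hg)

theorem rho_mk (g : R) : rho e (g : R ⧸ T) = rho0 e g := rfl

/-- The embedding of the lattice in `R`. -/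
noncomputable def psi : Multiplicative (Fin d → ℤ_[p]) →* R :=
  T.subtype.comp e.symm.toMulEquiv.toMonoidHom

omit [IsTopologicalGroup R] hTn in
theorem psi_apply (m : Multiplicative (Fin d → ℤ_[p])) : psi e m = (e.symm m : R) := rfl

omit [IsTopologicalGroup R] hTn in
theorem psi_injective : Function.Injective (psi e) :=
  Subtype.val_injective.comp e.symm.injective

omit [IsTopologicalGroup R] hTn in
theorem continuous_psi : Continuous (psi e) :=
  continuous_subtype_val.comp e.symm.continuous

/-- The image in `R` of a submodule. -/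
noncomputable def img (L : Submodule ℤ_[p] (Fin d → ℤ_[p])) : Subgroup R :=
  (AddSubgroup.toSubgroup L.toAddSubgroup).map (psi e)

omit [IsTopologicalGroup R] hTn in
theorem isClosed_img [T2Space R] (L : Submodule ℤ_[p] (Fin d → ℤ_[p])) :
    IsClosed (img e L : Set R) := by
  have h1 : (img e L : Set R) =
      (fun m => psi e (Multiplicative.ofAdd m)) '' (L : Set (Fin d → ℤ_[p])) := by
    ext x
    constructor
    · rintro ⟨m, hm, rfl⟩
      exact ⟨m.toAdd, hm, rfl⟩
    · rintro ⟨m, hm, rfl⟩
      exact ⟨Multiplicative.ofAdd m, hm, rfl⟩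
  rw [h1]
  exact ((isCompact_submodule L).image
    ((continuous_psi e).comp continuous_ofAdd)).isClosed

theorem commutator_img (L : Submodule ℤ_[p] (Fin d → ℤ_[p])) :
    ⁅img e L, (⊤ : Subgroup R)⁆ ≤ img e (comm (rho e) L) := by
  rw [Subgroup.commutator_le]
  rintro _ ⟨m, hm, rfl⟩ g -
  have hm' : m.toAdd ∈ L := hm
  have h1 := sub_mem_comm (rho e) (g : R ⧸ T) (L.neg_mem hm')
  refine ⟨Multiplicative.ofAdd (rho e (g : R ⧸ T) (-m.toAdd) - -m.toAdd), h1, ?_⟩
  have h2 : -m.toAdd = (e (e.symm m)⁻¹).toAdd := by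
    rw [map_inv, e.apply_symm_apply]; rfl
  have h3 : rho e (g : R ⧸ T) (-m.toAdd) = (e (cj g (e.symm m)⁻¹)).toAdd := by
    rw [h2, rho_mk, rho0_e]
  rw [h3, sub_neg_eq_add, add_comm, ofAdd_add, map_mul, ofAdd_toAdd, ofAdd_toAdd, psi_apply,
    psi_apply, e.symm_apply_apply, commutatorElement_def]
  simp [cj, mul_assoc]

theorem closedLCS_le_img [T2Space R] {c : ℕ} (hc : closedLCS R c ≤ T) (i : ℕ) :
    closedLCS R (c + i) ≤ img e (ser (rho e) i) := by
  induction i with
  | zero =>
    intro x hx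
    have hm : (e ⟨x, hc hx⟩).toAdd ∈ (⊤ : Submodule ℤ_[p] (Fin d → ℤ_[p])) := Submodule.mem_top
    refine ⟨e ⟨x, hc hx⟩, hm, ?_⟩
    rw [psi_apply, e.symm_apply_apply]
  | succ i ih =>
    change (⁅closedLCS R (c + i), (⊤ : Subgroup R)⁆).topologicalClosure ≤
      img e (comm (rho e) (ser (rho e) i))
    refine Subgroup.topologicalClosure_minimal _ ?_ (isClosed_img e _)
    exact (Subgroup.commutator_mono ih le_rfl).trans (commutator_img e _)

omit [IsTopologicalGroup R] hTn in
theorem idx_dvd_index {H : Subgroup R} [H.Normal] {L : Submodule ℤ_[p] (Fin d → ℤ_[p])}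
    (h : H ≤ img e L) : idx L ∣ H.index := by
  have h1 : H.comap (psi e) ≤ AddSubgroup.toSubgroup L.toAddSubgroup := by
    intro m hm
    obtain ⟨m', hm', h2⟩ := h hm
    rwa [← psi_injective e h2]
  have h2 := Subgroup.index_dvd_of_le h1
  rw [Subgroup.index_comap, AddSubgroup.index_toSubgroup] at h2
  exact h2.trans (Subgroup.relIndex_dvd_index_of_normal _ _)

end

section

variable {R : Type u} [Group R] [TopologicalSpace R] [IsTopologicalGroup R]

theorem lcs_le_closedLCS (i : ℕ) : (⊤ : Subgroup R).lowerCentralSeries i ≤ closedLCS R i := by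
  induction i with
  | zero => exact le_rfl
  | succ i ih =>
    exact (Subgroup.commutator_mono ih le_rfl).trans (Subgroup.le_topologicalClosure _)

theorem class_quot_le (i : ℕ) : Group.nilpotencyClass (R ⧸ closedLCS R i) ≤ i := by
  have h1 : (⊤ : Subgroup (R ⧸ closedLCS R i)).lowerCentralSeries i = ⊥ := by
    rw [← Subgroup.map_top_of_surjective _ (QuotientGroup.mk'_surjective (closedLCS R i)),
      ← Subgroup.map_lowerCentralSeries, Subgroup.map_eq_bot_iff, QuotientGroup.ker_mk']
    exact lcs_le_closedLCS i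
  haveI : Group.IsNilpotent (R ⧸ closedLCS R i) :=
    Subgroup.nilpotent_iff_lowerCentralSeries.2 ⟨i, h1⟩
  exact Subgroup.lowerCentralSeries_eq_bot_iff_nilpotencyClass_le.1 h1

theorem closedLCS_le_comap (T : Subgroup R) [T.Normal] (hT : IsOpen (T : Set R)) (i : ℕ) :
    closedLCS R i ≤ ((⊤ : Subgroup (R ⧸ T)).lowerCentralSeries i).comap (QuotientGroup.mk' T) := by
  induction i with
  | zero => exact le_top.trans (Subgroup.comap_top _).ge
  | succ i ih =>
    refine Subgroup.topologicalClosure_minimal _ ?_ ?_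
    · rw [← Subgroup.map_le_iff_le_comap, Subgroup.map_commutator,
        Subgroup.lowerCentralSeries_succ]
      exact Subgroup.commutator_mono (Subgroup.map_le_iff_le_comap.2 ih) le_top
    · refine Subgroup.isClosed_of_isOpen _ (Subgroup.isOpen_mono (H₁ := T) ?_ hT)
      intro x hx
      rw [Subgroup.mem_comap]
      have : QuotientGroup.mk' T x = 1 := (QuotientGroup.eq_one_iff x).2 hx
      rw [this]
      exact Subgroup.one_mem _

theorem exists_closedLCS_le (T : Subgroup R) [T.Normal] (hT : IsClosed (T : Set R))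
    [Finite (R ⧸ T)] (hp : IsPGroup p (R ⧸ T)) : ∃ c, closedLCS R c ≤ T := by
  haveI : T.FiniteIndex := Subgroup.finiteIndex_of_finite_quotient
  have hopen : IsOpen (T : Set R) := Subgroup.isOpen_of_isClosed_of_finiteIndex T hT
  haveI : Group.IsNilpotent (R ⧸ T) := hp.isNilpotent
  obtain ⟨c, hc⟩ := Subgroup.nilpotent_iff_lowerCentralSeries.1 this
  refine ⟨c, (closedLCS_le_comap T hopen c).trans ?_⟩
  rw [hc, MonoidHom.comap_bot, QuotientGroup.ker_mk']

end

end PC

/-- TASK C -/
theorem exists_rep {p : ℕ} [Fact p.Prime] (R : ProfiniteGrp.{u}) (T : Subgroup R) [T.Normal]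
    (hT : IsSpaceGroup p R T) (hR : FiniteCoclass p R) :
    ∃ (d : ℕ) (e : T ≃ₜ* Multiplicative (Fin d → ℤ_[p]))
      (ρ : (R ⧸ T) →* Module.End ℤ_[p] (Fin d → ℤ_[p])),
      1 ≤ d ∧ d ≤ Nat.card (R ⧸ T) ∧ Function.Injective ρ ∧ Chain ρ ∧
      ∀ (g : R) (t : T), ∀ h : g * t * g⁻¹ ∈ T,
        (e ⟨g * t * g⁻¹, h⟩).toAdd = ρ (g : R ⧸ T) (e t).toAdd := by
  obtain ⟨d, hd, ⟨e⟩⟩ := hT.lattice
  haveI := hT.finite
  have hp : 1 < p := (Fact.out : p.Prime).one_lt
  obtain ⟨c, hc⟩ := PC.exists_closedLCS_le (p := p) T hT.closed hT.pgroup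
  obtain ⟨r, hr⟩ := hR
  have hdvd : ∀ i, ∃ n ≤ i + (c + r), PC.idx (PC.ser (PC.rho e) i) ∣ p ^ n := by
    intro i
    obtain ⟨k, hk, -, hcard⟩ := hr (c + i)
    refine ⟨Group.nilpotencyClass (R ⧸ closedLCS R (c + i)) + k, ?_, ?_⟩
    · have := PC.class_quot_le (R := R) (c + i)
      omega
    · rw [← hcard]
      exact PC.idx_dvd_index e (PC.closedLCS_le_img e hc i)
  haveI : Nonempty (Fin d) := ⟨⟨0, hd⟩⟩
  have hchain : Chain (PC.rho e) := by
    refine PC.chain_of_bound (PC.rho e) hT.pgroup (c + r) ?_ ?_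
    · intro i h0
      obtain ⟨n, -, hn⟩ := hdvd i
      rw [h0, zero_dvd_iff] at hn
      exact pow_ne_zero n (by omega) hn
    · intro i
      obtain ⟨n, hn, hn'⟩ := hdvd i
      exact (Nat.le_of_dvd (pow_pos (by omega) n) hn').trans
        (Nat.pow_le_pow_right (by omega) hn)
  refine ⟨d, e, PC.rho e, hd, PC.le_card_of_chain _ hd hchain, ?_, hchain, ?_⟩
  · rw [injective_iff_map_eq_one]
    intro x hx
    obtain ⟨g, rfl⟩ := QuotientGroup.mk_surjective x
    rw [PC.rho_mk, PC.rho0_eq_one_iff] at hx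
    exact (QuotientGroup.eq_one_iff g).2 (hT.faithful g hx)
  · intro g t h
    rw [PC.rho_mk, PC.rho0_e]
    rfl

end Pool.Agent.H495Z
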