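import Mathlib
import Pool.Agent.H495Z.Stmt

set_option autoImplicit false

universe u

namespace Pool.Agent.H495Z

namespace PD

variable {p : ℕ} [Fact p.Prime]

/-- `R` is an extension of `Q` by the lattice, with action `ρ` and cocycle `c` -/
def Ext (R : Type u) [Group R] [TopologicalSpace R] (Q : Type) [Group Q] (d : ℕ)
    (ρ : Q →* Module.End ℤ_[p] (Fin d → ℤ_[p])) (c : Q → Q → Fin d → ℤ_[p]) : Prop :=
  ∃ (ι : (Fin d → ℤ_[p]) → R) (σ : Q → R), Continuous ι ∧ (∀ s t, ι (s + t) = ι s * ι t) ∧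
    Function.Bijective (fun x : (Fin d → ℤ_[p]) × Q => ι x.1 * σ x.2) ∧
    (∀ i j, σ i * σ j = ι (c i j) * σ (i * j)) ∧ ∀ i t, σ i * ι t = ι (ρ i t) * σ i

theorem Ext.cocycle {R : Type u} [Group R] [TopologicalSpace R] {Q : Type} [Group Q] {d : ℕ}
    {ρ : Q →* Module.End ℤ_[p] (Fin d → ℤ_[p])} {c : Q → Q → Fin d → ℤ_[p]}
    (h : Ext R Q d ρ c) (i j k : Q) : c i j + c (i * j) k = ρ i (c j k) + c i (j * k) := by
  obtain ⟨ι, σ, -, h1, h2, h3, h4⟩ := h
  have e1 : σ i * σ j * σ k = ι (c i j + c (i * j) k) * σ (i * j * k) := by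
    rw [h3 i j, mul_assoc, h3, h1, mul_assoc (ι _)]
  have e2 : σ i * σ j * σ k = ι (ρ i (c j k) + c i (j * k)) * σ (i * j * k) := by
    rw [mul_assoc, h3 j k, ← mul_assoc, h4, mul_assoc, h3, h1, mul_assoc, mul_assoc]
  exact congrArg Prod.fst (h2.1 (a₁ := (_, i * j * k)) (a₂ := (_, i * j * k)) (e1.symm.trans e2))

theorem bijective_one_add {d : ℕ} (A : Module.End ℤ_[p] (Fin d → ℤ_[p])) :
    Function.Bijective (1 + (p : ℤ_[p]) • A : Module.End ℤ_[p] (Fin d → ℤ_[p])) := by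
  have hs : Function.Surjective (1 + (p : ℤ_[p]) • A : Module.End ℤ_[p] (Fin d → ℤ_[p])) := by
    rw [← LinearMap.range_eq_top, eq_top_iff]
    refine Submodule.le_of_le_smul_of_le_jacobson_bot (I := IsLocalRing.maximalIdeal ℤ_[p])
      Module.Finite.fg_top (IsLocalRing.jacobson_eq_maximalIdeal ⊥ bot_ne_top).ge fun t _ => ?_
    have : t = (1 + (p : ℤ_[p]) • A : Module.End ℤ_[p] (Fin d → ℤ_[p])) t
        + (p : ℤ_[p]) • (-(A t)) := by simp
    rw [this]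
    refine Submodule.add_mem_sup ⟨_, rfl⟩ (Submodule.smul_mem_smul ?_ Submodule.mem_top)
    rw [PadicInt.maximalIdeal_eq_span_p]
    exact Ideal.mem_span_singleton_self _
  exact ⟨OrzechProperty.injective_of_surjective_endomorphism _ hs, hs⟩

theorem rigid {Q : Type} [Group Q] [Finite Q] {d n K : ℕ} (hQ : Nat.card Q = p ^ n)
    (hK : 2 * n + 1 ≤ K) {ρ ρ' : Q →* Module.End ℤ_[p] (Fin d → ℤ_[p])}
    {c c' : Q → Q → Fin d → ℤ_[p]}
    (hc : ∀ i j k, c i j + c (i * j) k = ρ i (c j k) + c i (j * k))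
    (hc' : ∀ i j k, c' i j + c' (i * j) k = ρ' i (c' j k) + c' i (j * k))
    (h1 : ∀ i, ∃ A : Module.End ℤ_[p] (Fin d → ℤ_[p]), ρ' i = ρ i + (p : ℤ_[p]) ^ K • A)
    (h2 : ∀ i j, ∃ y : Fin d → ℤ_[p], c i j = c' i j + (p : ℤ_[p]) ^ K • y) :
    ∃ (v : Module.End ℤ_[p] (Fin d → ℤ_[p])) (β : Q → Fin d → ℤ_[p]), Function.Bijective v ∧
      (∀ i t, v (ρ i t) = ρ' i (v t)) ∧
      ∀ i j, v (c i j) + β (i * j) = β i + ρ' i (β j) + c' i j := by
  classical
  have := Fintype.ofFinite Q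
  choose A hA using h1
  choose y hy using h2
  obtain ⟨m, rfl⟩ : ∃ m, K = n + (n + (m + 1)) := ⟨K - (2 * n + 1), by omega⟩
  have hp : ((p : ℤ_[p]) ^ n) ≠ 0 := pow_ne_zero _ (Nat.cast_ne_zero.2 (Fact.out : p.Prime).ne_zero)
  have hcard : ∀ {M : Type} [AddCommGroup M] [Module ℤ_[p] M] (x : M),
      ∑ _ : Q, x = (p : ℤ_[p]) ^ n • x := by
    intro M _ _ x
    rw [Finset.sum_const, Finset.card_univ, ← Nat.card_eq_fintype_card, hQ,
      ← Nat.cast_smul_eq_nsmul ℤ_[p], Nat.cast_pow]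
  have hcanc : ∀ x x' : Fin d → ℤ_[p], (p : ℤ_[p]) ^ n • x = (p : ℤ_[p]) ^ n • x' → x = x' :=
    fun x x' h => smul_right_injective _ hp h
  let B : Module.End ℤ_[p] (Fin d → ℤ_[p]) := ∑ q, A q * ρ q⁻¹
  let v : Module.End ℤ_[p] (Fin d → ℤ_[p]) := 1 + (p : ℤ_[p]) • ((p : ℤ_[p]) ^ (n + m) • B)
  have hS : ∑ q, ρ' q * ρ q⁻¹ = (p : ℤ_[p]) ^ n • v := by
    simp only [hA, add_mul, ← map_mul, mul_inv_cancel, map_one, Finset.sum_add_distrib, hcard,
      smul_mul_assoc, ← Finset.smul_sum, v, B, smul_add, smul_smul]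
    congr 2
    ring
  have hv : ∀ i t, v (ρ i t) = ρ' i (v t) := by
    intro i t
    apply hcanc
    have e : (∑ q, ρ' q * ρ q⁻¹) * ρ i = ρ' i * ∑ q, ρ' q * ρ q⁻¹ := by
      rw [Finset.sum_mul, Finset.mul_sum]
      refine (Fintype.sum_equiv (Equiv.mulLeft i) _ _ fun q => ?_).symm
      simp only [Equiv.coe_mulLeft, mul_inv_rev, map_mul, mul_assoc]
      rw [← map_mul ρ i⁻¹, inv_mul_cancel, map_one, mul_one]
    rw [hS] at e
    simpa using LinearMap.congr_fun e t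
  let z : Q → Q → Fin d → ℤ_[p] := fun i j =>
    (p : ℤ_[p]) ^ (n + (m + 1)) • y i j + (p : ℤ_[p]) ^ (m + 1) • B (c i j)
  have hz : ∀ i j, (p : ℤ_[p]) ^ n • z i j = v (c i j) - c' i j := by
    intro i j
    have : c' i j = c i j - (p : ℤ_[p]) ^ (n + (n + (m + 1))) • y i j := by
      rw [hy i j]
      abel
    rw [this]
    simp only [z, v, smul_add, smul_smul, LinearMap.add_apply, LinearMap.smul_apply,
      Module.End.one_apply, ← pow_add, ← pow_succ']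
    rw [add_assoc n m 1]
    abel
  clear_value z
  have hzc : ∀ i j k, z i j + z (i * j) k = ρ' i (z j k) + z i (j * k) := by
    intro i j k
    apply hcanc
    rw [smul_add, smul_add, ← map_smul, hz, hz, hz, hz, map_sub, ← hv]
    have e1 := congrArg v (hc i j k)
    rw [map_add, map_add] at e1
    have e2 := hc' i j k
    linear_combination (exp := 1) e1 - e2
  refine ⟨v, fun i => ∑ k, z i k, bijective_one_add _, hv, fun i j => ?_⟩
  have e := Finset.sum_congr (rfl : (Finset.univ : Finset Q) = _) fun k _ => hzc i j k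
  rw [Finset.sum_add_distrib, Finset.sum_add_distrib, hcard, hz, ← map_sum,
    Fintype.sum_equiv (Equiv.mulLeft j) (fun k => z i (j * k)) (z i) fun _ => rfl] at e
  linear_combination (exp := 1) e

theorem iso_of_ext {R R' : Type u} [Group R] [TopologicalSpace R] [IsTopologicalGroup R]
    [T2Space R] [Group R'] [TopologicalSpace R'] [IsTopologicalGroup R'] [T2Space R']
    {Q : Type} [Group Q] [Finite Q] {d : ℕ} {ρ ρ' : Q →* Module.End ℤ_[p] (Fin d → ℤ_[p])}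
    {c c' : Q → Q → Fin d → ℤ_[p]} (h : Ext R Q d ρ c) (h' : Ext R' Q d ρ' c')
    (v : Module.End ℤ_[p] (Fin d → ℤ_[p])) (β : Q → Fin d → ℤ_[p]) (hv : Function.Bijective v)
    (h1 : ∀ i t, v (ρ i t) = ρ' i (v t))
    (h2 : ∀ i j, v (c i j) + β (i * j) = β i + ρ' i (β j) + c' i j) : Nonempty (R ≃ₜ* R') := by
  obtain ⟨ι, σ, a0, a1, a2, a3, a4⟩ := h
  obtain ⟨ι', σ', b0, b1, b2, b3, b4⟩ := h'
  let _ : TopologicalSpace Q := ⊥
  have : DiscreteTopology Q := ⟨rfl⟩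
  have hb : Function.Bijective fun x : (Fin d → ℤ_[p]) × Q => ι' (v x.1 + β x.2) * σ' x.2 := by
    refine b2.comp (f := fun x : (Fin d → ℤ_[p]) × Q => (v x.1 + β x.2, x.2)) ⟨?_, ?_⟩
    · rintro ⟨s, i⟩ ⟨t, j⟩ e
      simp only [Prod.mk.injEq] at e
      obtain ⟨e, rfl⟩ := e
      rw [hv.1 (add_right_cancel e)]
    · rintro ⟨t, j⟩
      obtain ⟨s, hs⟩ := hv.2 (t - β j)
      exact ⟨(s, j), by simp [hs]⟩
  let f := Continuous.homeoOfEquivCompactToT2 (f := Equiv.ofBijective _ a2)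
    ((a0.comp continuous_fst).mul (continuous_of_discreteTopology.comp continuous_snd))
  let g := Continuous.homeoOfEquivCompactToT2 (f := Equiv.ofBijective _ hb)
    ((b0.comp ((v.continuous_on_pi.comp continuous_fst).add
      (continuous_of_discreteTopology.comp continuous_snd))).mul
      (continuous_of_discreteTopology.comp continuous_snd))
  have hf : ∀ t i, f (t, i) = ι t * σ i := fun _ _ => rfl
  have hg : ∀ t i, g (t, i) = ι' (v t + β i) * σ' i := fun _ _ => rfl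
  refine ⟨{ f.symm.trans g with map_mul' := fun x y => ?_ }⟩
  obtain ⟨⟨s, i⟩, rfl⟩ := f.surjective x
  obtain ⟨⟨t, j⟩, rfl⟩ := f.surjective y
  have e : f (s, i) * f (t, j) = f (s + ρ i t + c i j, i * j) := by
    rw [hf, hf, hf, a1, a1, mul_assoc, ← mul_assoc (σ i), a4, mul_assoc, a3]
    simp only [mul_assoc]
  show g (f.symm (f (s, i) * f (t, j))) = g (f.symm (f (s, i))) * g (f.symm (f (t, j)))
  rw [e, f.symm_apply_apply, f.symm_apply_apply, f.symm_apply_apply, hg, hg, hg, mul_assoc,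
    ← mul_assoc (σ' i), b4, mul_assoc, b3, ← mul_assoc, ← mul_assoc, ← b1, ← b1]
  congr 2
  rw [map_add, map_add, map_add, h1]
  linear_combination (exp := 1) h2 i j

theorem exists_ext {R : Type u} [Group R] [TopologicalSpace R] (T : Subgroup R) [T.Normal] {d : ℕ}
    (e : T ≃ₜ* Multiplicative (Fin d → ℤ_[p]))
    (ρ : (R ⧸ T) →* Module.End ℤ_[p] (Fin d → ℤ_[p]))
    (h : ∀ (g : R) (t : T), ∀ h : g * t * g⁻¹ ∈ T,
      (e ⟨g * t * g⁻¹, h⟩).toAdd = ρ (g : R ⧸ T) (e t).toAdd)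
    {Q : Type} [Group Q] (ψ : Q ≃* (R ⧸ T)) : ∃ c, Ext R Q d (ρ.comp ψ.toMonoidHom) c := by
  let σ : Q → R := fun q => (ψ q).out
  have hσ : ∀ q, (σ q : R ⧸ T) = ψ q := fun q => QuotientGroup.out_eq' _
  let ι : (Fin d → ℤ_[p]) → R := fun t => (e.symm (Multiplicative.ofAdd t) : T)
  have hι : ∀ t : T, ι (e t).toAdd = t := fun t => by simp [ι]
  have hι1 : ∀ t, (ι t : R ⧸ T) = 1 := fun t => (QuotientGroup.eq_one_iff _).2 (Subtype.prop _)
  have hm : ∀ i j, σ i * σ j * (σ (i * j))⁻¹ ∈ T := fun i j => by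
    rw [← QuotientGroup.eq_one_iff]
    simp [hσ]
  refine ⟨fun i j => (e ⟨_, hm i j⟩).toAdd, ι, σ,
    continuous_subtype_val.comp (e.symm.continuous.comp continuous_ofAdd), fun s t => ?_,
    ⟨?_, fun g => ?_⟩, fun i j => ?_, fun i t => ?_⟩
  · simp [ι, ofAdd_add]
  · rintro ⟨s, i⟩ ⟨t, j⟩ e1
    have e2 := congrArg (fun g : R => (g : R ⧸ T)) e1
    simp only [QuotientGroup.mk_mul, hι1, hσ, one_mul] at e2
    obtain rfl := ψ.injective e2
    have e3 : ι s = ι t := mul_right_cancel e1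
    rw [Multiplicative.ofAdd.injective (e.symm.injective (Subtype.val_injective e3))]
  · have hg : g * (σ (ψ.symm g))⁻¹ ∈ T := by
      rw [← QuotientGroup.eq_one_iff]
      simp [hσ]
    exact ⟨((e ⟨_, hg⟩).toAdd, ψ.symm g), by simp [hι]⟩
  · simp [hι]
  · have h1 : σ i * (e.symm (Multiplicative.ofAdd t) : T) * (σ i)⁻¹ ∈ T :=
      Subgroup.Normal.conj_mem inferInstance _ (Subtype.prop _) _
    have h2 := h _ _ h1
    simp only [ContinuousMulEquiv.apply_symm_apply, toAdd_ofAdd, hσ] at h2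
    have h3 : (ρ.comp ψ.toMonoidHom) i t = ρ (ψ i) t := rfl
    rw [h3, ← h2, hι]
    simp [ι]

theorem congr_of_toZModPow {K : ℕ} {x y : ℤ_[p]}
    (h : PadicInt.toZModPow K x = PadicInt.toZModPow K y) : ∃ z, x = y + (p : ℤ_[p]) ^ K * z := by
  have : x - y ∈ RingHom.ker (PadicInt.toZModPow (p := p) K) := by
    rw [RingHom.mem_ker, map_sub, h, sub_self]
  rw [PadicInt.ker_toZModPow, Ideal.mem_span_singleton] at this
  obtain ⟨z, hz⟩ := this
  exact ⟨z, by rw [← hz]; ring⟩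

theorem fin_of_inv {I : Type} [Finite I] (P : ProfiniteGrp.{u} → I → Prop)
    (h : ∀ R R' i, P R i → P R' i → Nonempty (R ≃ₜ* R')) :
    ∃ (n : ℕ) (G : Fin n → ProfiniteGrp.{u}), ∀ R i, P R i → ∃ j, Nonempty (R ≃ₜ* G j) := by
  obtain ⟨n, ⟨e⟩⟩ := Finite.exists_equiv_fin {i // ∃ R, P R i}
  refine ⟨n, fun j => (e.symm j).2.choose, fun R i hi => ⟨e ⟨i, R, hi⟩, h _ _ i hi ?_⟩⟩
  have := (e.symm (e ⟨i, R, hi⟩)).2.choose_spec
  convert this using 1
  simp

instance finite_group (α : Type) [Finite α] : Finite (Group α) :=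
  Finite.of_injective (fun G : Group α => G.mul) fun _ _ h => Group.ext h

end PD

/-- TASK D -/
theorem finite_of_bounded (p : ℕ) [Fact p.Prime] (B : ℕ) :
    ∃ (n : ℕ) (G : Fin n → ProfiniteGrp.{u}), ∀ (R : ProfiniteGrp.{u}) (T : Subgroup R)
      [T.Normal] (d : ℕ) (e : T ≃ₜ* Multiplicative (Fin d → ℤ_[p]))
      (ρ : (R ⧸ T) →* Module.End ℤ_[p] (Fin d → ℤ_[p])),
      Finite (R ⧸ T) → IsPGroup p (R ⧸ T) → Nat.card (R ⧸ T) ≤ B → d ≤ B →
      (∀ (g : R) (t : T), ∀ h : g * t * g⁻¹ ∈ T,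
        (e ⟨g * t * g⁻¹, h⟩).toAdd = ρ (g : R ⧸ T) (e t).toAdd) →
      ∃ i, Nonempty (R ≃ₜ* G i) := by
  classical
  have : NeZero (p ^ (2 * B + 1)) := ⟨pow_ne_zero _ (Fact.out : p.Prime).ne_zero⟩
  obtain ⟨n, G, hG⟩ := PD.fin_of_inv
    (I := Σ (N : Fin (B + 1)) (d : Fin (B + 1)), Group (Fin N) ×
      (Fin N → Fin d → Fin d → ZMod (p ^ (2 * B + 1))) ×
      (Fin N → Fin N → Fin d → ZMod (p ^ (2 * B + 1))))
    (fun R x => letI := x.2.2.1
      (∃ n, (x.1 : ℕ) = p ^ n) ∧ ∃ ρ c, PD.Ext (p := p) R (Fin x.1) x.2.1 ρ c ∧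
        (∀ i a b, PadicInt.toZModPow (2 * B + 1) (ρ i (Pi.single a 1) b) = x.2.2.2.1 i a b) ∧
        ∀ i j a, PadicInt.toZModPow (2 * B + 1) (c i j a) = x.2.2.2.2 i j a) (by
      rintro R R' ⟨N, d, inst, r, s⟩ ⟨⟨n, hn⟩, ρ, c, h1, h2, h3⟩ ⟨-, ρ', c', h1', h2', h3'⟩
      have hnB : n ≤ B := by
        have h4 : n < p ^ n := Nat.lt_pow_self (Fact.out : p.Prime).one_lt
        have h5 := N.2
        simp only at hn
        omega
      obtain ⟨v, β, a1, a2, a3⟩ := PD.rigid (n := n) (K := 2 * B + 1) (by simpa using hn) (by omega)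
        h1.cocycle h1'.cocycle (fun i => by
          choose z hz using fun a b => PD.congr_of_toZModPow ((h2' i a b).trans (h2 i a b).symm)
          refine ⟨(Pi.basisFun ℤ_[p] (Fin d)).constr ℤ_[p] z, (Pi.basisFun ℤ_[p] (Fin d)).ext
            fun a => ?_⟩
          rw [LinearMap.add_apply, LinearMap.smul_apply, Module.Basis.constr_basis,
            Pi.basisFun_apply]
          exact funext fun b => hz a b) (fun i j => by
          choose z hz using fun a => PD.congr_of_toZModPow ((h3 i j a).trans (h3' i j a).symm)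
          exact ⟨z, funext hz⟩)
      exact PD.iso_of_ext h1 h1' v β a1 a2 a3)
  refine ⟨n, G, fun R T _ d e ρ hfin hp hB hd h => ?_⟩
  let q := (Finite.equivFin (R ⧸ T)).symm
  let inst : Group (Fin (Nat.card (R ⧸ T))) := q.group
  obtain ⟨c, hc⟩ := PD.exists_ext T e ρ h (Q := Fin (Nat.card (R ⧸ T))) q.mulEquiv
  exact hG R ⟨⟨_, Nat.lt_succ_of_le hB⟩, ⟨d, Nat.lt_succ_of_le hd⟩, inst,
    fun i a b => PadicInt.toZModPow (2 * B + 1) (ρ (q i) (Pi.single a 1) b),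
    fun i j a => PadicInt.toZModPow (2 * B + 1) (c i j a)⟩
    ⟨IsPGroup.iff_card.1 hp, _, c, hc, fun _ _ _ => rfl, fun _ _ _ => rfl⟩

end Pool.Agent.H495Z
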