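import Mathlib
import Pool.Agent.H495Z.PartA
import Pool.Agent.H495Z.PartC
import Pool.Agent.H495Z.PartD
import Pool.Agent.H495Z.Lim

/-! Assembly: finitely many space groups of finite coclass with point group of coclass `s`. -/

set_option autoImplicit false

universe u

namespace Pool.Agent.H495Z

theorem main (p : ℕ) [Fact p.Prime] (hp : Odd p) (s : ℕ) :
    ∃ (n : ℕ) (G : Fin n → ProfiniteGrp.{u}), ∀ (R : ProfiniteGrp.{u}) (T : Subgroup R)
      [T.Normal], IsSpaceGroup p R T → FiniteCoclass p R → HasCoclass p (R ⧸ T) s →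
      ∃ i, Nonempty (R ≃ₜ* G i) := by
  obtain ⟨B, hB⟩ := coclass_abelian.{u} p s
  obtain ⟨n, G, hG⟩ := finite_of_bounded.{u} p B
  refine ⟨n, G, fun R T _ hT hR hs => ?_⟩
  obtain ⟨d, e, ρ, hd1, hd, hinj, hch, hconj⟩ := exists_rep R T hT hR
  have hle : Nat.card (R ⧸ T) ≤ B := by
    by_contra hlt
    obtain ⟨Z, b, hZn, hZ, hb, y, hy, hyk⟩ := hB (R ⧸ T) hs (not_le.1 hlt)
    have := hT.finite
    have : Nonempty (Fin d) := ⟨⟨0, hd1⟩⟩
    have hp0 : (p : ℤ_[p]) ≠ 0 := by exact_mod_cast (Fact.out : p.Prime).ne_zero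
    have h1 := exp_bound hp (R ⧸ T) hT.pgroup (Fin d → ℤ_[p])
      (fun t ht => by
        rcases smul_eq_zero.1 ht with h | h
        · exact absurd h hp0
        · exact h)
      (fun t ht => by
        funext i
        by_contra hne
        obtain ⟨t', ht'⟩ := ht ((t i).valuation + 1)
        have h2 : t i = (p : ℤ_[p]) ^ ((t i).valuation + 1) * t' i := by
          conv_lhs => rw [ht']
          simp
        have h3 : t' i ≠ 0 := fun h0 => hne (by rw [h2, h0, mul_zero]; rfl)
        have h4 := congrArg PadicInt.valuation h2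
        rw [PadicInt.valuation_p_pow_mul _ _ h3] at h4
        omega)
      ρ hinj hch Z hZ b (s + 1) hb y hy hyk
    have h2 := h1.trans (index_commutator_dvd p s _ hs)
    have := (Nat.pow_dvd_pow_iff_le_right (Fact.out : p.Prime).one_lt).1 h2
    omega
  exact hG R T d e ρ hT.finite hT.pgroup hle (hd.trans hle) hconj

end Pool.Agent.H495Z
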